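import Pool.Agent.H93.UB.Lg
import Pool.Agent.H35.CF.Fib
import Pool.Agent.H35.CF.Ins
import Pool.Agent.H86.AP.Df
import Pool.Agent.H55.E2.Cfg
import Pool.Agent.H55.E2.Ana
import Pool.Agent.H83.LW.LGB

/-!
# H38-S3-LOWZ (with LGX, CLC, GPX, MTW): MP_b39724_nt, stage 3, chapter D
-/

section Lgx_

/-!
# H38-S3-LGX: the error terms of level zero from `GPU`, with free end points (MP_b39724_nt, stage 3, chapter D)

As `H93.UB.lg`, with end points `x i`, `T ≤ x i`, `nr (n i) x i ≤ 2 Y`, instead of `2 Y / nr (n i)`.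
-/

set_option autoImplicit false

open scoped NumberField Classical
open IsDedekindDomain H63.MA H38.BB H38.BG H57.PC H57.BRA H77.WD H77.WE H57.AN H35.UB H93.UB Filter

noncomputable section

namespace H38.S3

variable {K : Type} [Field K] [NumberField K] {Ω : Type} [Field Ω] [Algebra K Ω]
  {p : ℕ} {ζ : K}

/-- THE ERROR TERMS OF LEVEL ZERO -/
theorem lgx (D : RD0 K p ζ) (κ : ℕ) (hG : GPU D Ω κ)
    (b K₀ A₁ A : ℕ) (hK : 1 ≤ K₀) (ε : ℝ) (hε : 0 < ε) (hε1 : ε ≤ 1) : ∃ Y₀ : ℝ, ∀ Y : ℝ, Y₀ ≤ Y →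
      ∀ (L : LDs D Ω) (Fr : FR L) (E : Finset (Pl K)), nr E ≤ Real.log Y ^ A₁ →
      ∀ (ι : Type) (I : Finset ι) (n : ι → Finset (Pl K)) (x : ι → ℝ) (W : ι → ℝ),
      (∀ i ∈ I, (∀ v ∈ n i, D.Gd v) ∧ Disjoint (n i) E ∧
        Real.exp (Real.log Y ^ ε) ≤ x i ∧ nr (n i) * x i ≤ 2 * Y) →
      (∀ i ∈ I, 0 ≤ W i ∧ W i ≤ (K₀ : ℝ) ^ ((n i).card + 1)) →
      (∀ m, ((I.filter fun i => n i = m).card : ℝ) ≤ (K₀ : ℝ) ^ (m.card + 1)) →
      ∀ (G : ι → Type) [∀ i, Group (G i)] [∀ i, Fintype (G i)] (φ : ∀ i, Gal(Ω/K) →* G i)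
        (h : ∀ i, G i → ℝ), (∀ i ∈ I, Lgm κ b L E (n i ∪ E) (φ i) (h i)) →
      ∑ i ∈ I, W i * |ing D (Real.exp (Real.log Y ^ ε)) (x i) (n i ∪ E)
        (cvg Fr (φ i) (h i))| ≤ Y * Real.log Y ^ (-(A : ℝ)) := by
  obtain ⟨c₁, hc₁, hpb⟩ := card_pb K
  obtain ⟨k, hk⟩ : ∃ k : ℕ, k = 2 * K₀ ^ 2 := ⟨_, rfl⟩
  obtain ⟨C₁, hC₁, hr⟩ := rkn K k
  obtain ⟨N, hN⟩ : ∃ N : ℕ, N = 2 * (A + k + 2) := ⟨_, rfl⟩
  obtain ⟨C', hC'⟩ : ∃ C' : ℕ, C' = N + 2 * A₁ + (N * K₀ + 1) + 2 := ⟨_, rfl⟩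
  obtain ⟨A', hA'⟩ : ∃ A' : ℕ, A' = A + N * K₀ + A₁ + 3 := ⟨_, rfl⟩
  obtain ⟨Y₁, hY₁⟩ := hG b C' A' ε hε
  have e1 := ev_log (12 * b * c₁ * K₀ ^ 2 * C₁ * 2 ^ k) ((k : ℝ) - N / 2) (-(A : ℝ)) (by
    rw [hN]
    push_cast
    linarith)
  have e2 := ev_log 12 (((N * K₀ + 1 : ℕ) : ℝ) + (A₁ : ℝ) + -(A' : ℝ)) (-(A : ℝ)) (by
    rw [hA']
    push_cast
    linarith)
  have e4 := ev_exp 1 A₁ ε 1 hε one_pos
  have e5 := ev_log K₀ (N * K₀ : ℕ) (N * K₀ + 1 : ℕ) (by exact_mod_cast Nat.lt_succ_self _)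
  obtain ⟨Y₀, hY₀⟩ := eventually_atTop.1
    ((((e1.and e2).and e4).and e5).and ((eventually_ge_atTop Y₁).and (eventually_ge_atTop 3)))
  refine ⟨Y₀, fun Y hY L' Fr E hE ι I n x W hn hW hI G _ _ φ h H => ?_⟩
  obtain ⟨⟨⟨⟨f1, f2⟩, f4⟩, f5⟩, hYY₁, hY3⟩ := hY₀ Y hY
  obtain ⟨L, hL⟩ : ∃ L : ℝ, L = Real.log Y := ⟨_, rfl⟩
  obtain ⟨T, hT⟩ : ∃ T : ℝ, T = Real.exp (L ^ ε) := ⟨_, rfl⟩
  rw [← hL] at f1 f2 f4 f5 hE hn ⊢
  rw [← hT] at hn ⊢
  have hY0 : 0 < Y := by linarith
  have hL1 : 1 ≤ L := by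
    rw [hL, Real.le_log_iff_exp_le hY0]
    linarith [Real.exp_one_lt_d9]
  have hL0 : 0 < L := by linarith
  have hT1 : 1 ≤ T := by
    rw [hT]
    exact Real.one_le_exp (Real.rpow_nonneg hL0.le _)
  have hT0 : 0 < T := by linarith
  have hTY : T ≤ Y := by
    rw [hT, ← Real.exp_log hY0, ← hL]
    refine Real.exp_le_exp.2 ?_
    calc L ^ ε ≤ L ^ (1 : ℝ) := Real.rpow_le_rpow_of_exponent_le hL1 hε1
      _ = L := Real.rpow_one L
  have hLT : L ^ A₁ ≤ T := by
    rw [one_mul, Real.rpow_natCast, one_mul, ← hT] at f4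
    exact f4
  have hK1 : (1 : ℝ) ≤ K₀ := by exact_mod_cast hK
  have hℓ : 0 ≤ Real.log L := Real.log_nonneg hL1
  have hnr0 : ∀ m : Finset (Pl K), 0 < nr m := fun m => lt_of_lt_of_le one_pos (one_le_nr m)
  have hnT : ∀ i ∈ I, nr (n i) * T ≤ 2 * Y := fun i hi =>
    (mul_le_mul_of_nonneg_left (hn i hi).2.2.1 (hnr0 _).le).trans (hn i hi).2.2.2
  -- the sum over all sets of primes
  obtain ⟨U, hU⟩ : ∃ U : Finset (Finset (Pl K)), U = (gdY D (2 * Y)).powerset := ⟨_, rfl⟩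
  have hnU : ∀ i ∈ I, n i ∈ U := by
    intro i hi
    rw [hU]
    refine nr_gdg (hn i hi).1 ?_
    have h1 := hnT i hi
    have h2 := mul_le_mul_of_nonneg_left hT1 (hnr0 (n i)).le
    linarith
  obtain ⟨S, hS⟩ : ∃ S : ℝ, S = ∑ m ∈ U, (k : ℝ) ^ m.card / nr m := ⟨_, rfl⟩
  have hS1 : S ≤ C₁ * 2 ^ k * L ^ (k : ℝ) := by
    have h1 := hr p ζ D (2 * Y) (by linarith)
    rw [← hU, ← hS] at h1
    refine h1.trans ?_
    have h2 : Real.log (2 * Y) ≤ 2 * L := by
      rw [Real.log_mul (by norm_num) hY0.ne', ← hL]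
      have := Real.log_two_lt_d9
      linarith
    have h3 : 0 ≤ Real.log (2 * Y) := Real.log_nonneg (by linarith)
    rw [Real.rpow_natCast, mul_assoc, ← mul_pow]
    exact mul_le_mul_of_nonneg_left (pow_le_pow_left₀ h3 h2 _) hC₁.le
  have hS0 : 0 ≤ S := by
    rw [hS]
    exact Finset.sum_nonneg fun m _ => div_nonneg (by positivity) (hnr0 m).le
  -- multiplicities
  have hKk : ∀ m : Finset (Pl K), (K₀ : ℝ) ^ (m.card + 1) * (K₀ : ℝ) ^ (m.card + 1) * 2 ^ m.card =
      K₀ ^ 2 * (k : ℝ) ^ m.card := by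
    intro m
    rw [hk]
    push_cast
    rw [mul_pow, ← pow_mul]
    ring
  have hKk' : ∀ m : Finset (Pl K), (K₀ : ℝ) ^ (m.card + 1) * (K₀ : ℝ) ^ (m.card + 1) ≤
      K₀ ^ 2 * (k : ℝ) ^ m.card := by
    intro m
    rw [← hKk]
    refine le_mul_of_one_le_right (by positivity) (one_le_pow₀ (by norm_num))
  -- the points
  have hx : ∀ i ∈ I, T ≤ x i ∧ x i ≤ 2 * Y := by
    intro i hi
    refine ⟨(hn i hi).2.2.1, le_trans ?_ (hn i hi).2.2.2⟩
    exact le_mul_of_one_le_left (hT0.le.trans (hn i hi).2.2.1) (one_le_nr _)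
  -- the trivial bound
  have htriv : ∀ i ∈ I, W i * |ing D T (x i) (n i ∪ E) (cvg Fr (φ i) (h i))| ≤
      (K₀ : ℝ) ^ ((n i).card + 1) * (4 * b * c₁ * Y / nr (n i)) := by
    intro i hi
    have h1 := ing_bd D T (x i) (n i ∪ E) (cvg Fr (φ i) (h i)) (2 * b)
      (by positivity) ((H i hi).cv_bd Fr)
    have h2 := hpb (x i) (hT1.trans (hx i hi).1)
    have h3 : |ing D T (x i) (n i ∪ E) (cvg Fr (φ i) (h i))| ≤
        4 * b * c₁ * Y / nr (n i) := by
      refine h1.trans ((mul_le_mul_of_nonneg_left h2 (by positivity)).trans ?_)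
      rw [le_div_iff₀ (hnr0 _)]
      calc 2 * (b : ℝ) * (c₁ * x i) * nr (n i) = 2 * b * c₁ * (nr (n i) * x i) := by ring
        _ ≤ 2 * b * c₁ * (2 * Y) := mul_le_mul_of_nonneg_left (hn i hi).2.2.2 (by positivity)
        _ = _ := by ring
    exact mul_le_mul (hW i hi).2 h3 (abs_nonneg _) (by positivity)
  -- the indices with many primes
  obtain ⟨I₁, hI₁⟩ : ∃ I₁ : Finset ι, I₁ = I.filter fun i => N * Real.log L < (n i).card := ⟨_, rfl⟩
  obtain ⟨I₂, hI₂⟩ : ∃ I₂ : Finset ι, I₂ = I.filter fun i => ¬ N * Real.log L < (n i).card := ⟨_, rfl⟩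
  have hI₁s : ∀ i ∈ I₁, i ∈ I ∧ N * Real.log L < (n i).card := by
    intro i hi
    rw [hI₁] at hi
    exact Finset.mem_filter.1 hi
  have hI₂s : ∀ i ∈ I₂, i ∈ I ∧ ((n i).card : ℝ) ≤ N * Real.log L := by
    intro i hi
    rw [hI₂] at hi
    exact ⟨(Finset.mem_filter.1 hi).1, not_lt.1 (Finset.mem_filter.1 hi).2⟩
  have hpart1 : ∑ i ∈ I₁, W i * |ing D T (x i) (n i ∪ E) (cvg Fr (φ i) (h i))| ≤
      1 / 3 * (Y * L ^ (-(A : ℝ))) := by
    have h1 : ∑ i ∈ I₁, W i * |ing D T (x i) (n i ∪ E) (cvg Fr (φ i) (h i))| ≤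
        ∑ i ∈ I₁, (K₀ : ℝ) ^ ((n i).card + 1) * (4 * b * c₁ * Y / nr (n i)) :=
      Finset.sum_le_sum fun i hi => htriv i (hI₁s i hi).1
    have h2 := mult I₁ n U (fun i hi => hnU i (hI₁s i hi).1)
      (fun m => if N * Real.log L < m.card then (K₀ : ℝ) ^ (m.card + 1) else 0) (by
        intro m
        split_ifs with hm
        · refine le_trans (Nat.cast_le.2 (Finset.card_le_card ?_)) (hI m)
          intro i hi
          rw [Finset.mem_filter] at hi ⊢
          exact ⟨(hI₁s i hi.1).1, hi.2⟩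
        · have h5 : (I₁.filter fun i => n i = m) = ∅ := by
            rw [Finset.filter_eq_empty_iff]
            rintro i hi rfl
            exact hm (hI₁s i hi).2
          rw [h5, Finset.card_empty, Nat.cast_zero])
      (fun m => (K₀ : ℝ) ^ (m.card + 1) * (4 * b * c₁ * Y / nr m))
      (fun m _ => mul_nonneg (by positivity) (div_nonneg (by positivity) (hnr0 m).le))
    have h3 : ∑ m ∈ U, (if N * Real.log L < m.card then (K₀ : ℝ) ^ (m.card + 1) else 0) *
        ((K₀ : ℝ) ^ (m.card + 1) * (4 * b * c₁ * Y / nr m)) ≤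
        ∑ m ∈ U, 4 * b * c₁ * Y * K₀ ^ 2 * L ^ (-(N / 2 : ℝ)) * ((k : ℝ) ^ m.card / nr m) := by
      refine Finset.sum_le_sum fun m _ => ?_
      have hm0 := hnr0 m
      split_ifs with hm
      · have h4 : L ^ (N / 2 : ℝ) ≤ 2 ^ m.card := by
          rw [Real.rpow_def_of_pos hL0, ← Real.exp_log (show (0 : ℝ) < 2 ^ m.card by positivity),
            Real.log_pow]
          refine Real.exp_le_exp.2 ?_
          have h5 := Real.log_two_gt_d9
          have h6 : (m.card : ℝ) * (1 / 2) ≤ m.card * Real.log 2 :=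
            mul_le_mul_of_nonneg_left (by linarith) (Nat.cast_nonneg _)
          linarith
        have h5 : (K₀ : ℝ) ^ (m.card + 1) * (K₀ : ℝ) ^ (m.card + 1) ≤
            K₀ ^ 2 * (k : ℝ) ^ m.card * L ^ (-(N / 2 : ℝ)) := by
          rw [Real.rpow_neg hL0.le, ← div_eq_mul_inv, le_div_iff₀ (Real.rpow_pos_of_pos hL0 _),
            ← hKk]
          exact mul_le_mul_of_nonneg_left h4 (by positivity)
        calc (K₀ : ℝ) ^ (m.card + 1) * ((K₀ : ℝ) ^ (m.card + 1) * (4 * b * c₁ * Y / nr m))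
            = (K₀ : ℝ) ^ (m.card + 1) * (K₀ : ℝ) ^ (m.card + 1) * (4 * b * c₁ * Y / nr m) := by ring
          _ ≤ K₀ ^ 2 * (k : ℝ) ^ m.card * L ^ (-(N / 2 : ℝ)) * (4 * b * c₁ * Y / nr m) :=
              mul_le_mul_of_nonneg_right h5 (by positivity)
          _ = _ := by ring
      · rw [zero_mul]
        have := Real.rpow_nonneg hL0.le (-(N / 2 : ℝ))
        positivity
    rw [← Finset.mul_sum, ← hS] at h3
    have h4 : 4 * b * c₁ * Y * K₀ ^ 2 * L ^ (-(N / 2 : ℝ)) * S ≤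
        4 * b * c₁ * Y * K₀ ^ 2 * L ^ (-(N / 2 : ℝ)) * (C₁ * 2 ^ k * L ^ (k : ℝ)) := by
      have := Real.rpow_nonneg hL0.le (-(N / 2 : ℝ))
      exact mul_le_mul_of_nonneg_left hS1 (by positivity)
    have h5 : L ^ (-(N / 2 : ℝ)) * L ^ (k : ℝ) = L ^ ((k : ℝ) - N / 2) := by
      rw [← Real.rpow_add hL0]
      congr 1
      ring
    calc _ ≤ _ := h1
      _ ≤ _ := h2
      _ ≤ _ := h3
      _ ≤ _ := h4
      _ = 1 / 3 * (Y * (12 * b * c₁ * K₀ ^ 2 * C₁ * 2 ^ k * (L ^ (-(N / 2 : ℝ)) * L ^ (k : ℝ)))) := by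
          ring
      _ ≤ 1 / 3 * (Y * L ^ (-(A : ℝ))) := by
          rw [h5]
          exact mul_le_mul_of_nonneg_left (mul_le_mul_of_nonneg_left f1 hY0.le) (by norm_num)
  have hmul2 : ∀ m, ((I₂.filter fun i => n i = m).card : ℝ) ≤ (K₀ : ℝ) ^ (m.card + 1) := by
    intro m
    refine le_trans ?_ (hI m)
    refine Nat.cast_le.2 (Finset.card_le_card ?_)
    intro i hi
    rw [Finset.mem_filter] at hi ⊢
    exact ⟨(hI₂s i hi.1).1, hi.2⟩
  have hpart3 : ∑ i ∈ I₂, W i * (|sgg D (x i) (n i ∪ E) (cvg Fr (φ i) (h i))| +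
      |sgg D T (n i ∪ E) (cvg Fr (φ i) (h i))|) ≤ 1 / 3 * (Y * L ^ (-(A : ℝ))) := by
    -- cardinalities
    have hcE : (E.card : ℝ) ≤ 2 * A₁ * Real.log L := by
      have h1 := (two_pow_cardg E).trans hE
      have h2 := Real.log_le_log (by positivity) h1
      rw [Real.log_pow, Real.log_pow] at h2
      have h3 := Real.log_two_gt_d9
      have h4 : (E.card : ℝ) * (1 / 2) ≤ E.card * Real.log 2 :=
        mul_le_mul_of_nonneg_left (by linarith) (Nat.cast_nonneg _)
      linarith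
    have hpow : ∀ m : ℕ, (m : ℝ) ≤ N * Real.log L →
        (K₀ : ℝ) ^ (m + 1) ≤ L ^ ((N * K₀ + 1 : ℕ) : ℝ) := by
      intro m hm
      have h1 : (K₀ : ℝ) ^ m ≤ L ^ ((N * K₀ : ℕ) : ℝ) := by
        rw [Real.rpow_def_of_pos hL0, ← Real.exp_log (show (0 : ℝ) < (K₀ : ℝ) ^ m by positivity),
          Real.log_pow]
        refine Real.exp_le_exp.2 ?_
        have h2 : Real.log K₀ ≤ K₀ := by
          have := Real.log_le_sub_one_of_pos (show (0 : ℝ) < K₀ by linarith)
          linarith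
        have h3 : 0 ≤ Real.log (K₀ : ℝ) := Real.log_nonneg hK1
        push_cast
        calc (m : ℝ) * Real.log K₀ ≤ N * Real.log L * K₀ :=
              mul_le_mul hm h2 h3 (by positivity)
          _ = _ := by ring
      rw [pow_succ, mul_comm]
      exact (mul_le_mul_of_nonneg_left h1 (by positivity)).trans f5
    have hC'0 : (0 : ℝ) ≤ (C' : ℝ) := Nat.cast_nonneg _
    -- the hypotheses of `gp`
    have g1 : ∀ i ∈ I₂, E ⊆ n i ∪ E ∧ nr (n i ∪ E) ≤ Y ^ C' ∧
        (((n i ∪ E).card : ℕ) : ℝ) ≤ C' * Real.log (Real.log Y) := by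
      intro i hi
      have hi' := (hI₂s i hi).1
      refine ⟨Finset.subset_union_right, ?_, ?_⟩
      · rw [nr_disjg (hn i hi').2.1]
        have h1 : nr (n i) * nr E ≤ 2 * Y := by
          refine le_trans ?_ (hnT i hi')
          exact mul_le_mul_of_nonneg_left (hE.trans hLT) (hnr0 _).le
        refine h1.trans ?_
        calc 2 * Y ≤ Y * Y := mul_le_mul_of_nonneg_right (by linarith) hY0.le
          _ = Y ^ 2 := by ring
          _ ≤ Y ^ C' := pow_le_pow_right₀ (by linarith) (by omega)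
      · rw [← hL, hC']
        have h1 : ((n i ∪ E).card : ℝ) ≤ (n i).card + E.card := by
          exact_mod_cast Finset.card_union_le _ _
        have h2 := (hI₂s i hi).2
        push_cast
        have h3 : (0 : ℝ) ≤ (N * K₀ + 1 + 2) * Real.log L := by positivity
        nlinarith
    have g2 : ∀ i ∈ I₂, Real.exp (Real.log Y ^ ε) ≤ x i ∧
        x i ≤ Y ^ C' := by
      intro i hi
      have hi' := (hI₂s i hi).1
      rw [← hL, ← hT]
      refine ⟨(hx i hi').1, (hx i hi').2.trans ?_⟩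
      calc 2 * Y ≤ Y * Y := mul_le_mul_of_nonneg_right (by linarith) hY0.le
        _ = Y ^ 2 := by ring
        _ ≤ Y ^ C' := pow_le_pow_right₀ (by linarith) (by omega)
    have g2' : ∀ i ∈ I₂, Real.exp (Real.log Y ^ ε) ≤ T ∧ T ≤ Y ^ C' := by
      intro i _
      rw [← hL, ← hT]
      refine ⟨le_rfl, hTY.trans ?_⟩
      calc Y = Y ^ 1 := by ring
        _ ≤ Y ^ C' := pow_le_pow_right₀ (by linarith) (by omega)
    have g3 : ∀ m, ((I₂.filter fun i => n i ∪ E = m).card : ℝ) ≤ Real.log Y ^ C' := by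
      intro m
      rw [← hL]
      by_cases hne : (I₂.filter fun i => n i ∪ E = m).Nonempty
      · obtain ⟨j, hj⟩ := hne
        rw [Finset.mem_filter] at hj
        have h1 : (I₂.filter fun i => n i ∪ E = m) ⊆ I₂.filter fun i => n i = n j := by
          intro i hi
          rw [Finset.mem_filter] at hi ⊢
          refine ⟨hi.1, ?_⟩
          have h2 := (hn i (hI₂s i hi.1).1).2.1
          have h3 := (hn j (hI₂s j hj.1).1).2.1
          have h4 : n i ∪ E = n j ∪ E := hi.2.trans hj.2.symm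
          ext v
          have h5 : v ∈ n i ∪ E ↔ v ∈ n j ∪ E := by rw [h4]
          rw [Finset.mem_union, Finset.mem_union] at h5
          constructor
          · intro hv
            exact (h5.1 (Or.inl hv)).resolve_right (Finset.disjoint_left.1 h2 hv)
          · intro hv
            exact (h5.2 (Or.inl hv)).resolve_right (Finset.disjoint_left.1 h3 hv)
        refine le_trans (Nat.cast_le.2 (Finset.card_le_card h1)) ((hmul2 (n j)).trans ?_)
        refine (hpow _ (hI₂s j hj.1).2).trans ?_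
        rw [Real.rpow_natCast]
        exact pow_le_pow_right₀ hL1 (by omega)
      · rw [Finset.not_nonempty_iff_eq_empty.1 hne, Finset.card_empty, Nat.cast_zero]
        positivity
    have g4 : ∀ i ∈ I₂, (Finset.univ.filter fun y : G i => y ∈ (φ i).range).card ≤ b ∧
        (∀ y ∈ (φ i).range, y ^ (p ^ κ) = 1) ∧
        (∀ y ∈ (φ i).range, ∀ z ∈ (φ i).range, ((h i (z * y * z⁻¹) : ℝ) : ℂ) = (h i y : ℂ)) ∧
        (∀ y ∈ (φ i).range, ‖((h i y : ℝ) : ℂ)‖ ≤ b) ∧ HonE L' E (n i ∪ E) (φ i) := by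
      intro i hi
      have H' := H i (hI₂s i hi).1
      refine ⟨?_, fun y _ => H'.exp y, fun y _ z _ => by rw [H'.cl], fun y _ => ?_, H'.hon⟩
      · rw [H'.rng, Finset.card_univ]
        exact H'.card
      · rw [Complex.norm_real]
        exact H'.bd y
    have G1 := hY₁ Y hYY₁ L' Fr E ι I₂ (fun i => n i ∪ E) (fun i => x i) g1 g2 g3 G φ
      (fun i g => (h i g : ℂ)) g4
    have G2 := hY₁ Y hYY₁ L' Fr E ι I₂ (fun i => n i ∪ E) (fun _ => T) g1 g2' g3 G φ
      (fun i g => (h i g : ℂ)) g4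
    have hcv : ∀ i ∈ I₂, ∀ x : ℝ, ‖∑ w ∈ (PB K x).filter (fun w => D.Gd w ∧ w ∉ n i ∪ E),
        ((h i (φ i (Fr.F w)) : ℂ) - mrg (φ i) (fun g => (h i g : ℂ)))‖ =
        |sgg D x (n i ∪ E) (cvg Fr (φ i) (h i))| := by
      intro i hi x
      rw [← sgg_real]
      congr 1
      exact Finset.sum_congr rfl fun w _ => (H i (hI₂s i hi).1).cv_gp Fr w
    rw [← hL] at G1 G2
    obtain ⟨M, hM⟩ : ∃ M : ℝ, M = L ^ ((N * K₀ + 1 : ℕ) : ℝ) * (L ^ A₁ * (2 * Y)) := ⟨_, rfl⟩
    have hM0 : 0 ≤ M := by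
      rw [hM]
      have := Real.rpow_nonneg hL0.le ((N * K₀ + 1 : ℕ) : ℝ)
      positivity
    -- one summand
    have hone : ∀ i ∈ I₂, ∀ x : ℝ, T ≤ x → nr (n i) * x ≤ 2 * Y →
        W i * |sgg D x (n i ∪ E) (cvg Fr (φ i) (h i))| ≤
        M * ((nr (n i ∪ E))⁻¹ * x⁻¹ * ‖∑ w ∈ (PB K x).filter (fun w => D.Gd w ∧ w ∉ n i ∪ E),
          ((h i (φ i (Fr.F w)) : ℂ) - mrg (φ i) (fun g => (h i g : ℂ)))‖) := by
      intro i hi x hTx hnx
      have hi' := (hI₂s i hi).1
      rw [hcv i hi, nr_disjg (hn i hi').2.1]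
      obtain ⟨s, hs⟩ : ∃ s : ℝ, s = |sgg D x (n i ∪ E) (cvg Fr (φ i) (h i))| := ⟨_, rfl⟩
      have hs0 : 0 ≤ s := by
        rw [hs]
        exact abs_nonneg _
      rw [← hs]
      have hx0 : 0 < x := lt_of_lt_of_le hT0 hTx
      have hn0 := hnr0 (n i)
      have hE0 := hnr0 E
      have h1 : 1 ≤ L ^ A₁ * (2 * Y) * ((nr (n i) * nr E)⁻¹ * x⁻¹) := by
        rw [← mul_inv, ← div_eq_mul_inv, one_le_div (by positivity)]
        calc nr (n i) * nr E * x = nr E * (nr (n i) * x) := by ring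
          _ ≤ L ^ A₁ * (2 * Y) := mul_le_mul hE hnx (by positivity) (by positivity)
      have h2 : W i ≤ L ^ ((N * K₀ + 1 : ℕ) : ℝ) := (hW i hi').2.trans (hpow _ (hI₂s i hi).2)
      have h3 : 0 ≤ L ^ ((N * K₀ + 1 : ℕ) : ℝ) := Real.rpow_nonneg hL0.le _
      calc W i * s ≤ L ^ ((N * K₀ + 1 : ℕ) : ℝ) * s := mul_le_mul_of_nonneg_right h2 hs0
        _ = L ^ ((N * K₀ + 1 : ℕ) : ℝ) * s * 1 := (mul_one _).symm
        _ ≤ L ^ ((N * K₀ + 1 : ℕ) : ℝ) * s *
            (L ^ A₁ * (2 * Y) * ((nr (n i) * nr E)⁻¹ * x⁻¹)) :=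
              mul_le_mul_of_nonneg_left h1 (by positivity)
        _ = _ := by
            rw [hM]
            ring
    have hsum : ∑ i ∈ I₂, W i * (|sgg D (x i) (n i ∪ E) (cvg Fr (φ i) (h i))| +
        |sgg D T (n i ∪ E) (cvg Fr (φ i) (h i))|) ≤ M * L ^ (-(A' : ℝ)) + M * L ^ (-(A' : ℝ)) := by
      have h1 : ∀ i, W i * (|sgg D (x i) (n i ∪ E) (cvg Fr (φ i) (h i))| +
          |sgg D T (n i ∪ E) (cvg Fr (φ i) (h i))|) =
          W i * |sgg D (x i) (n i ∪ E) (cvg Fr (φ i) (h i))| +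
          W i * |sgg D T (n i ∪ E) (cvg Fr (φ i) (h i))| := fun i => mul_add _ _ _
      rw [Finset.sum_congr rfl fun i _ => h1 i, Finset.sum_add_distrib]
      refine add_le_add ?_ ?_
      · refine le_trans (Finset.sum_le_sum fun i hi => hone i hi (x i)
          (hx i (hI₂s i hi).1).1 (hn i (hI₂s i hi).1).2.2.2) ?_
        · rw [← Finset.mul_sum]
          exact mul_le_mul_of_nonneg_left G1 hM0
      · refine le_trans (Finset.sum_le_sum fun i hi => hone i hi T le_rfl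
          (hnT i (hI₂s i hi).1)) ?_
        rw [← Finset.mul_sum]
        exact mul_le_mul_of_nonneg_left G2 hM0
    refine hsum.trans ?_
    have h1 : M * L ^ (-(A' : ℝ)) + M * L ^ (-(A' : ℝ)) =
        4 * Y * (L ^ ((N * K₀ + 1 : ℕ) : ℝ) * L ^ (A₁ : ℝ) * L ^ (-(A' : ℝ))) := by
      rw [hM, ← Real.rpow_natCast L A₁]
      ring
    rw [h1, ← Real.rpow_add hL0, ← Real.rpow_add hL0]
    calc 4 * Y * L ^ (((N * K₀ + 1 : ℕ) : ℝ) + (A₁ : ℝ) + -(A' : ℝ))
        = 1 / 3 * (Y * (12 * L ^ (((N * K₀ + 1 : ℕ) : ℝ) + (A₁ : ℝ) + -(A' : ℝ)))) := by ring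
      _ ≤ 1 / 3 * (Y * L ^ (-(A : ℝ))) :=
          mul_le_mul_of_nonneg_left (mul_le_mul_of_nonneg_left f2 hY0.le) (by norm_num)
  have hsplit : ∑ i ∈ I, W i * |ing D T (x i) (n i ∪ E) (cvg Fr (φ i) (h i))| =
      ∑ i ∈ I₁, W i * |ing D T (x i) (n i ∪ E) (cvg Fr (φ i) (h i))| +
      ∑ i ∈ I₂, W i * |ing D T (x i) (n i ∪ E) (cvg Fr (φ i) (h i))| := by
    rw [hI₁, hI₂]
    exact (Finset.sum_filter_add_sum_filter_not _ _ _).symm
  rw [hsplit]
  have hpart4 : ∑ i ∈ I₂, W i * |ing D T (x i) (n i ∪ E) (cvg Fr (φ i) (h i))| ≤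
      ∑ i ∈ I₂, W i * (|sgg D (x i) (n i ∪ E) (cvg Fr (φ i) (h i))| +
      |sgg D T (n i ∪ E) (cvg Fr (φ i) (h i))|) := by
    refine Finset.sum_le_sum fun i hi => ?_
    have hi' := (hI₂s i hi).1
    exact mul_le_mul_of_nonneg_left (ing_sg D T (x i) (n i ∪ E) _ (hx i hi').1)
      (hW i hi').1
  have hfin : 0 ≤ Y * L ^ (-(A : ℝ)) := mul_nonneg hY0.le (Real.rpow_nonneg hL0.le _)
  linarith

end H38.S3

end

end Lgx_

section Clc_

/-!
# H38-S3-CLC: change of the weights of a sum over configurations, complex form (MP_b39724_nt, stage 3, chapter D)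

`a`, `m` weights which agree at the places outside `W`. `clc`: the difference of the two sums `∑ Ψ om a`, `∑ Ψ om m` over the configurations is a sum over the configurations `c` with marks and one new place `w` in `W`
of `Ψ (c, w ↦ x) (a w x - m w x)` with coefficients bounded by the product of the weights `m2` (`a - m` at the marked places, `m` at the others).
-/

set_option autoImplicit false

open scoped Classical

noncomputable section

namespace H38.S3

open H35.CF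

variable {V Λ : Type} [Fintype Λ]

/-- the weights with marks -/
def m2 (a m : V → Λ → ℂ) (v : V) (x : Λ × Bool) : ℂ :=
  if x.2 then a v x.1 - m v x.1 else m v x.1

/-- the weights of the configurations without marks -/
def m0 (m : V → Λ → ℂ) (v : V) (x : Λ × Bool) : ℂ := if x.2 then 0 else m v x.1

/-- the number of marks -/
def tk (Z : Finset V) (c : V → Option (Λ × Bool)) : ℕ := ∑ x : Λ, (pl Z c (x, true)).card

theorem fst_sum (F : Λ × Bool → ℂ) (y : Λ) :
    ∑ x ∈ Finset.univ.filter (fun x : Λ × Bool => Prod.fst x = y), F x =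
      F (y, true) + F (y, false) := by
  have h1 : Finset.univ.filter (fun x : Λ × Bool => Prod.fst x = y) = {(y, true), (y, false)} := by
    ext ⟨x, β⟩
    rw [Finset.mem_filter, Finset.mem_insert, Finset.mem_singleton]
    cases β <;> simp
  rw [h1, Finset.sum_pair (by simp)]

omit [Fintype Λ] in
theorem om_upd (Z : Finset V) (a : V → Λ → ℂ) (c : V → Option Λ) (w : V) (hw : w ∈ Z)
    (hc : c w = none) (x : Λ) : om Z a (Function.update c w (some x)) = a w x * om Z a c := by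
  unfold om
  rw [← Finset.mul_prod_erase Z _ hw, ← Finset.mul_prod_erase Z (fun v => (c v).elim 1 (a v)) hw,
    Function.update_self, hc]
  show a w x * _ = a w x * (1 * _)
  rw [one_mul]
  congr 1
  refine Finset.prod_congr rfl fun v hv => ?_
  rw [Function.update_of_ne (Finset.ne_of_mem_erase hv)]

theorem tk_upd (Z : Finset V) (c : V → Option (Λ × Bool)) (w : V) (hw : w ∈ Z)
    (hc : c w = none) (x : Λ) :
    tk Z (Function.update c w (some (x, true))) = tk Z c + 1 := by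
  unfold tk
  have h1 : ∀ y : Λ, (pl Z (Function.update c w (some (x, true))) (y, true)).card =
      (pl Z c (y, true)).card + if y = x then 1 else 0 := by
    intro y
    have hw' : w ∉ pl Z c (y, true) := by
      rw [mem_pl, hc]
      simp
    by_cases hj : y = x
    · subst hj
      rw [if_pos rfl, ← Finset.card_insert_of_notMem hw']
      congr 1
      ext v
      rw [Finset.mem_insert, mem_pl, mem_pl]
      by_cases hv : v = w
      · subst hv
        rw [Function.update_self]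
        exact ⟨fun _ => Or.inl rfl, fun _ => ⟨hw, rfl⟩⟩
      · rw [Function.update_of_ne hv]
        simp [hv]
    · rw [if_neg hj, add_zero]
      congr 1
      ext v
      rw [mem_pl, mem_pl]
      by_cases hv : v = w
      · subst hv
        rw [Function.update_self, hc]
        simp [Ne.symm hj]
      · rw [Function.update_of_ne hv]
  rw [Finset.sum_congr rfl fun j _ => h1 j, Finset.sum_add_distrib, Finset.sum_ite_eq',
    if_pos (Finset.mem_univ _)]

/-- the weight of a configuration without marks -/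
theorem om_m0 (Z : Finset V) (a m : V → Λ → ℂ) (c : V → Option (Λ × Bool)) :
    om Z (m2 a m) c = om Z (m0 m) c + (if tk Z c = 0 then 0 else om Z (m2 a m) c) := by
  by_cases ht : tk Z c = 0
  · rw [if_pos ht, add_zero]
    unfold om
    refine Finset.prod_congr rfl fun v hv => ?_
    unfold tk at ht
    rw [Finset.sum_eq_zero_iff] at ht
    cases hc : c v with
    | none => rfl
    | some x =>
      rcases x with ⟨i, β⟩
      cases β with
      | false => rfl
      | true =>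
        have h1 := ht i (Finset.mem_univ _)
        rw [Finset.card_eq_zero] at h1
        have h2 : v ∈ pl Z c (i, true) := mem_pl.2 ⟨hv, hc⟩
        rw [h1] at h2
        exact absurd h2 (Finset.notMem_empty v)
  · rw [if_neg ht]
    have h1 : om Z (m0 m) c = 0 := by
      unfold tk at ht
      obtain ⟨i, -, hi⟩ := Finset.exists_ne_zero_of_sum_ne_zero ht
      obtain ⟨v, hv⟩ := Finset.card_ne_zero.1 hi
      rw [mem_pl] at hv
      unfold om
      refine Finset.prod_eq_zero hv.1 ?_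
      rw [hv.2]
      show m0 m v (i, true) = 0
      unfold m0
      rw [if_pos rfl]
    rw [h1, zero_add]

/-- CHANGE OF THE WEIGHTS -/
theorem clc (Z : Finset V) (W : V → Prop) (Ψ : (V → Option Λ) → ℂ) (a m : V → Λ → ℂ)
    (h : ∀ v x, ¬ W v → a v x = m v x) :
    ∑ f ∈ Cf Z Λ, Ψ f * om Z a f - ∑ f ∈ Cf Z Λ, Ψ f * om Z m f =
      ∑ x : Λ, ∑ c ∈ Cf Z (Λ × Bool), om Z (m2 a m) c / ((tk Z c : ℂ) + 1) *
        ∑ w ∈ Z.filter (fun v => W v ∧ c v = none),
          Ψ (mp Prod.fst (Function.update c w (some (x, true)))) * (a w x - m w x) := by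
  have h1 : ∑ c ∈ Cf Z (Λ × Bool), Ψ (mp Prod.fst c) * om Z (m2 a m) c =
      ∑ f ∈ Cf Z Λ, Ψ f * om Z a f := by
    refine (cf_fib Z (Prod.fst : Λ × Bool → Λ) Ψ (fun _ => m2 a m)).trans
      (Finset.sum_congr rfl fun c _ => congrArg (fun t => Ψ c * om Z t c)
        (funext fun v => funext fun y => ?_))
    rw [fst_sum]
    unfold m2
    simp
  have h2 : ∑ c ∈ Cf Z (Λ × Bool), Ψ (mp Prod.fst c) * om Z (m0 m) c =
      ∑ f ∈ Cf Z Λ, Ψ f * om Z m f := by
    refine (cf_fib Z (Prod.fst : Λ × Bool → Λ) Ψ (fun _ => m0 m)).trans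
      (Finset.sum_congr rfl fun c _ => congrArg (fun t => Ψ c * om Z t c)
        (funext fun v => funext fun y => ?_))
    rw [fst_sum]
    unfold m0
    simp
  obtain ⟨X, hX⟩ : ∃ X : (V → Option (Λ × Bool)) → ℂ,
      X = fun c => Ψ (mp Prod.fst c) * om Z (m2 a m) c := ⟨_, rfl⟩
  have h3 : ∑ f ∈ Cf Z Λ, Ψ f * om Z a f - ∑ f ∈ Cf Z Λ, Ψ f * om Z m f =
      ∑ c ∈ Cf Z (Λ × Bool), (if tk Z c = 0 then 0 else X c) := by
    rw [← h1, ← h2, ← Finset.sum_sub_distrib]
    refine Finset.sum_congr rfl fun c _ => ?_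
    rw [hX]
    beta_reduce
    have h6 := om_m0 Z a m c
    split_ifs with ht
    · rw [if_pos ht, add_zero] at h6
      rw [h6, sub_self]
    · rw [if_neg ht] at h6
      have h7 : om Z (m0 m) c = 0 := by
        have h8 : om Z (m0 m) c + om Z (m2 a m) c = 0 + om Z (m2 a m) c := by
          rw [zero_add]
          exact h6.symm
        exact add_right_cancel h8
      rw [h7, mul_zero, sub_zero]
  have hzero : ∀ c (i : Λ) (w : V), w ∈ pl Z c (i, true) → ¬ W w → X c = 0 := by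
    intro c i w hw hn
    rw [mem_pl] at hw
    rw [hX]
    have h1 : om Z (m2 a m) c = 0 := by
      unfold om
      refine Finset.prod_eq_zero hw.1 ?_
      rw [hw.2]
      show m2 a m w (i, true) = 0
      unfold m2
      rw [if_pos rfl, h w i hn, sub_self]
    show Ψ (mp Prod.fst c) * _ = 0
    rw [h1, mul_zero]
  have h4 : ∀ c, (if tk Z c = 0 then 0 else X c) =
      ∑ i : Λ, ∑ w ∈ (pl Z c (i, true)).filter W, X c / (tk Z c : ℂ) := by
    intro c
    have h5 : ∑ i : Λ, ∑ w ∈ (pl Z c (i, true)).filter W, X c / (tk Z c : ℂ) =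
        ∑ i : Λ, ∑ w ∈ pl Z c (i, true), X c / (tk Z c : ℂ) := by
      refine Finset.sum_congr rfl fun i hi => ?_
      refine Finset.sum_subset (Finset.filter_subset _ _) fun w hw hw' => ?_
      rw [hzero c i w hw, zero_div]
      intro h3
      exact hw' (Finset.mem_filter.2 ⟨hw, h3⟩)
    rw [h5]
    have h6 : ∑ i : Λ, ∑ w ∈ pl Z c (i, true), X c / (tk Z c : ℂ) =
        (tk Z c : ℂ) * (X c / (tk Z c : ℂ)) := by
      unfold tk
      push_cast
      rw [Finset.sum_mul]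
      refine Finset.sum_congr rfl fun i _ => ?_
      rw [Finset.sum_const, nsmul_eq_mul]
    rw [h6]
    split_ifs with ht
    · rw [ht, Nat.cast_zero, zero_mul]
    · rw [mul_div_cancel₀ _ (Nat.cast_ne_zero.2 ht)]
  rw [h3, Finset.sum_congr rfl fun c _ => h4 c, Finset.sum_comm]
  refine Finset.sum_congr rfl fun i _ => ?_
  rw [cf_ins Z W (i, true) (fun c _ => X c / (tk Z c : ℂ))]
  refine Finset.sum_congr rfl fun c hc => ?_
  rw [Finset.mul_sum]
  refine Finset.sum_congr rfl fun w hw => ?_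
  obtain ⟨hwZ, hwW, hcw⟩ := Finset.mem_filter.1 hw
  rw [tk_upd Z c w hwZ hcw i, hX]
  beta_reduce
  rw [om_upd Z _ c w hwZ hcw]
  have h5 : m2 a m w (i, true) = a w i - m w i := by
    unfold m2
    rw [if_pos rfl]
  rw [h5]
  push_cast
  ring

end H38.S3

end

end Clc_

section Gpx_

/-!
# H38-S3-GPX: sums over configurations of products of class functions (MP_b39724_nt, stage 3, chapter D, D4)

`φ` onto, unramified outside `S0` and `E`, `U j` bounded class functions. `gpx`: in the sum over the rich configurations of `∏ U (cf f v) (φ F_v)` the factors of the large primes can be replaced by their means,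
up to `Y (log Y) ^ (-A)`, uniformly in everything.
-/

set_option autoImplicit false

open scoped NumberField
open IsDedekindDomain
open scoped Classical

noncomputable section

namespace H38.S3

open H63.MA H38.BB H38.BG H57.PC H57.BRA H77.WD H77.WE H57.AN H35.CF H35.UB H93.UB H86.AP H55.E2

variable {K : Type} [Field K] [NumberField K] {Ω : Type} [Field Ω] [Algebra K Ω]
  {p : ℕ} {ζ : K} {N : ℕ}

/-- the mean -/
def mnf {G : Type} [Fintype G] (u : G → ℂ) : ℂ := (Fintype.card G : ℂ)⁻¹ * ∑ g, u g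

theorem mnf_le {G : Type} [Group G] [Fintype G] {u : G → ℂ} {b : ℝ} (h : ∀ g, ‖u g‖ ≤ b) :
    ‖mnf u‖ ≤ b := by
  unfold mnf
  have h0 : (0 : ℝ) < Fintype.card G := by exact_mod_cast Fintype.card_pos
  rw [norm_mul, norm_inv, Complex.norm_natCast, inv_mul_le_iff₀ h0]
  refine (norm_sum_le _ _).trans ((Finset.sum_le_sum fun g _ => h g).trans ?_)
  rw [Finset.sum_const, Finset.card_univ, nsmul_eq_mul]

/-- the weights with means at the large primes -/
def mw {D : RD0 K p ζ} {L : LDs D Ω} (Fr : FR L) {G : Type} [Group G] [Fintype G]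
    (φ : Gal(Ω/K) →* G) (U : Fin N → G → ℂ) (T : ℝ) (v : Pl K) (j : Fin N) : ℂ :=
  if T < (nm v : ℝ) then mnf (U j) else U j (φ (Fr.F v))

theorem cf_cardx {Λ : Type} [Fintype Λ] (Z m : Finset (Pl K)) :
    (((Cf Z Λ).filter fun f => sp Z f = m).card : ℝ) ≤ (Fintype.card Λ : ℝ) ^ m.card := by
  have h1 := cf_prod Z (fun s => if s = m then (1 : ℝ) else 0) (fun (_ : Pl K) (_ : Λ) => (1 : ℝ))
  have h2 : ∑ f ∈ Cf Z Λ, (if sp Z f = m then (1 : ℝ) else 0) * om Z (fun _ _ => (1 : ℝ)) f =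
      (((Cf Z Λ).filter fun f => sp Z f = m).card : ℝ) := by
    rw [Finset.card_filter]
    push_cast
    refine Finset.sum_congr rfl fun f _ => ?_
    rw [om_one, mul_one]
  rw [← h2, h1]
  by_cases hm : m ∈ Z.powerset
  · rw [Finset.sum_eq_single_of_mem m hm fun s _ hs => by rw [if_neg hs, zero_mul]]
    rw [if_pos rfl, one_mul, Finset.prod_const, Finset.sum_const, Finset.card_univ, nsmul_eq_mul,
      mul_one]
  · have h3 : ∀ s ∈ Z.powerset, (if s = m then (1 : ℝ) else 0) * ∏ v ∈ s, ∑ _x : Λ, (1 : ℝ) =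
        0 := by
      intro s hs
      have h4 : s ≠ m := by
        rintro rfl
        exact hm hs
      rw [if_neg h4, zero_mul]
    rw [Finset.sum_eq_zero h3]
    positivity

/-- bounded weights -/
theorem om_nrm {V Λ : Type} (Z : Finset V) (a : V → Λ → ℂ) (B : ℝ)
    (ha : ∀ v x, ‖a v x‖ ≤ B) (f : V → Option Λ) : ‖om Z a f‖ ≤ B ^ (sp Z f).card := by
  rw [om_sp, norm_prod, ← Finset.prod_const]
  refine Finset.prod_le_prod (fun _ _ => norm_nonneg _) fun v hv => ?_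
  rw [mem_sp] at hv
  cases h : f v with
  | none => exact absurd h hv.2
  | some x => exact ha v x

/-- the products in the form of H86/AP -/
theorem om_cfc [NeZero N] {V : Type} (Z : Finset V) (a : V → Fin N → ℂ) (f : V → Option (Fin N)) :
    om Z a f = ∏ v ∈ sp Z f, a v ((f v).getD 0) := by
  rw [om_sp]
  refine Finset.prod_congr rfl fun v hv => ?_
  rw [mem_sp] at hv
  cases h : f v with
  | none => exact absurd h hv.2
  | some x => rfl

section upd

variable {V Λ : Type}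

theorem sp_fst (Z : Finset V) (c : V → Option (Λ × Bool)) : sp Z (mp Prod.fst c) = sp Z c := by
  ext v
  rw [mem_sp, mem_sp]
  unfold mp
  rw [Ne, Ne, Option.map_eq_none_iff]

theorem sp_updx (Z : Finset V) (c : V → Option Λ) (w : V) (x : Λ) (hw : w ∈ Z) :
    sp Z (Function.update c w (some x)) = insert w (sp Z c) := by
  ext v
  rw [Finset.mem_insert, mem_sp, mem_sp]
  by_cases hv : v = w
  · subst hv
    rw [Function.update_self]
    exact ⟨fun _ => Or.inl rfl, fun _ => ⟨hw, Option.some_ne_none _⟩⟩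
  · rw [Function.update_of_ne hv]
    exact ⟨fun h => Or.inr h, fun h => h.resolve_left hv⟩

theorem nr_updx (Z : Finset (Pl K)) (c : Pl K → Option Λ) (w : Pl K) (x : Λ) (hw : w ∈ Z)
    (hc : c w = none) : nr (sp Z (Function.update c w (some x))) = nr (sp Z c) * (nm w : ℝ) := by
  rw [sp_updx Z c w x hw]
  unfold nr
  rw [Finset.prod_insert, mul_comm]
  intro h
  exact (mem_sp.1 h).2 hc

theorem rich_upd (M : ℕ) (T : ℝ) (Z : Finset (Pl K)) (c : Pl K → Option (Fin N × Bool))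
    (w : Pl K) (x : Fin N) (hw : w ∈ Z) (hT : T < (nm w : ℝ)) (hc : c w = none) :
    Rich M T Z (mp Prod.fst (Function.update c w (some (x, true)))) ↔
      ∀ j, M ≤ ((pl Z (mp Prod.fst c) j).filter fun v => T < (nm v : ℝ)).card +
        if j = x then 1 else 0 := by
  unfold Rich
  refine forall_congr' fun j => ?_
  have h1 : ((pl Z (mp Prod.fst (Function.update c w (some (x, true)))) j).filter
      fun v => T < (nm v : ℝ)).card = ((pl Z (mp Prod.fst c) j).filter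
      fun v => T < (nm v : ℝ)).card + if j = x then 1 else 0 := by
    have hw' : w ∉ (pl Z (mp Prod.fst c) j).filter fun v => T < (nm v : ℝ) := by
      rw [Finset.mem_filter, mem_pl]
      unfold mp
      rw [hc]
      simp
    by_cases hj : j = x
    · rw [if_pos hj, ← Finset.card_insert_of_notMem hw']
      congr 1
      ext v
      rw [Finset.mem_insert, Finset.mem_filter, Finset.mem_filter, mem_pl, mem_pl]
      unfold mp
      by_cases hv : v = w
      · subst hv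
        rw [Function.update_self, hj]
        exact ⟨fun _ => Or.inl rfl, fun _ => ⟨⟨hw, rfl⟩, hT⟩⟩
      · rw [Function.update_of_ne hv]
        exact ⟨fun h => Or.inr h, fun h => h.resolve_left hv⟩
    · rw [if_neg hj, add_zero]
      congr 1
      ext v
      rw [Finset.mem_filter, Finset.mem_filter, mem_pl, mem_pl]
      unfold mp
      by_cases hv : v = w
      · subst hv
        rw [Function.update_self, hc]
        constructor
        · rintro ⟨⟨_, h⟩, _⟩
          exact absurd (Option.some.inj h).symm hj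
        · rintro ⟨⟨_, h⟩, _⟩
          exact absurd h (by simp)
      · rw [Function.update_of_ne hv]
  rw [h1]

end upd

/-- the inner sums -/
theorem innx {D : RD0 K p ζ} {L : LDs D Ω} (Fr : FR L) {G : Type} [Group G] [Fintype G]
    (φ : Gal(Ω/K) →* G) (U : Fin N → G → ℂ) (M : ℕ) (T Y : ℝ) (E : Finset (Pl K))
    (c : Pl K → Option (Fin N × Bool)) (x : Fin N) :
    ‖∑ w ∈ (ZZ D Y \ E).filter (fun v => T < (nm v : ℝ) ∧ c v = none),
      (if Rich M T (ZZ D Y \ E) (mp Prod.fst (Function.update c w (some (x, true)))) ∧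
        nr (sp (ZZ D Y \ E) (mp Prod.fst (Function.update c w (some (x, true))))) ≤ Y then
        (1 : ℂ) else 0) * (U x (φ (Fr.F w)) - mw Fr φ U T w x)‖ ≤
    if nr (sp (ZZ D Y \ E) c) * T ≤ Y then
      |ing D T (Y / nr (sp (ZZ D Y \ E) c)) (sp (ZZ D Y \ E) c ∪ E)
        (cvg Fr φ fun g => (U x g).re)| +
      |ing D T (Y / nr (sp (ZZ D Y \ E) c)) (sp (ZZ D Y \ E) c ∪ E)
        (cvg Fr φ fun g => (U x g).im)| else 0 := by
  obtain ⟨Z, hZd⟩ : ∃ Z, Z = ZZ D Y \ E := ⟨_, rfl⟩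
  have hnr : 0 < nr (sp Z c) := lt_of_lt_of_le one_pos (one_le_nr _)
  rw [← hZd]
  have hsum : ∑ w ∈ Z.filter (fun v => T < (nm v : ℝ) ∧ c v = none),
      (if Rich M T Z (mp Prod.fst (Function.update c w (some (x, true)))) ∧
        nr (sp Z (mp Prod.fst (Function.update c w (some (x, true))))) ≤ Y then
        (1 : ℂ) else 0) * (U x (φ (Fr.F w)) - mw Fr φ U T w x) =
      if (∀ j, M ≤ ((pl Z (mp Prod.fst c) j).filter fun v => T < (nm v : ℝ)).card +
        if j = x then 1 else 0) then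
        ∑ w ∈ (Z.filter (fun v => T < (nm v : ℝ) ∧ c v = none)).filter
          (fun w => nr (sp Z c) * (nm w : ℝ) ≤ Y), (U x (φ (Fr.F w)) - mnf (U x)) else 0 := by
    have h1 : ∀ w ∈ Z.filter (fun v => T < (nm v : ℝ) ∧ c v = none),
        (if Rich M T Z (mp Prod.fst (Function.update c w (some (x, true)))) ∧
          nr (sp Z (mp Prod.fst (Function.update c w (some (x, true))))) ≤ Y then
          (1 : ℂ) else 0) * (U x (φ (Fr.F w)) - mw Fr φ U T w x) =
        if (∀ j, M ≤ ((pl Z (mp Prod.fst c) j).filter fun v => T < (nm v : ℝ)).card +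
          if j = x then 1 else 0) ∧ nr (sp Z c) * (nm w : ℝ) ≤ Y then
          (U x (φ (Fr.F w)) - mnf (U x)) else 0 := by
      intro w hw
      obtain ⟨hwZ, hwT, hfw⟩ := Finset.mem_filter.1 hw
      rw [rich_upd M T Z c w x hwZ hwT hfw, sp_fst, nr_updx Z c w _ hwZ hfw]
      have h2 : mw Fr φ U T w x = mnf (U x) := by
        unfold mw
        rw [if_pos hwT]
      rw [h2]
      split_ifs <;> simp
    rw [Finset.sum_congr rfl h1]
    split_ifs with h
    · rw [Finset.sum_filter (fun w => nr (sp Z c) * (nm w : ℝ) ≤ Y)]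
      refine Finset.sum_congr rfl fun w _ => ?_
      by_cases h3 : nr (sp Z c) * (nm w : ℝ) ≤ Y
      · rw [if_pos ⟨h, h3⟩, if_pos h3]
      · rw [if_neg (fun h' => h3 h'.2), if_neg h3]
    · refine Finset.sum_eq_zero fun w _ => ?_
      rw [if_neg (fun h' => h h'.1)]
  rw [hsum]
  have hpos : (0 : ℝ) ≤ if nr (sp Z c) * T ≤ Y then
      |ing D T (Y / nr (sp Z c)) (sp Z c ∪ E) (cvg Fr φ fun g => (U x g).re)| +
      |ing D T (Y / nr (sp Z c)) (sp Z c ∪ E) (cvg Fr φ fun g => (U x g).im)| else 0 := by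
    split_ifs
    · exact add_nonneg (abs_nonneg _) (abs_nonneg _)
    · exact le_rfl
  by_cases hcond : (∀ j, M ≤ ((pl Z (mp Prod.fst c) j).filter fun v => T < (nm v : ℝ)).card +
        if j = x then 1 else 0)
  · rw [if_pos hcond]
    by_cases hT : nr (sp Z c) * T ≤ Y
    · rw [if_pos hT]
      have hset : (Z.filter (fun v => T < (nm v : ℝ) ∧ c v = none)).filter
          (fun w => nr (sp Z c) * (nm w : ℝ) ≤ Y) =
          (gdY D (Y / nr (sp Z c))).filter (fun w => T < (nm w : ℝ) ∧ w ∉ sp Z c ∪ E) := by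
        ext w
        rw [Finset.mem_filter, Finset.mem_filter, Finset.mem_filter, chr_mem, le_div_iff₀ hnr,
          mul_comm (nm w : ℝ), hZd]
        constructor
        · rintro ⟨⟨h1, h2, h3⟩, h4⟩
          rw [Finset.mem_sdiff, mem_zz] at h1
          refine ⟨⟨h4, h1.1.2⟩, h2, ?_⟩
          rw [Finset.mem_union, not_or]
          exact ⟨fun h => (mem_sp.1 h).2 h3, h1.2⟩
        · rintro ⟨⟨h4, hG⟩, h2, h5⟩
          rw [Finset.mem_union, not_or] at h5
          have hnm : (nm w : ℝ) ≤ Y := by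
            refine le_trans ?_ h4
            exact le_mul_of_one_le_left (Nat.cast_nonneg _) (one_le_nr _)
          have h1 : w ∈ ZZ D Y \ E := by
            rw [Finset.mem_sdiff, mem_zz]
            exact ⟨⟨hnm, hG⟩, h5.2⟩
          refine ⟨⟨h1, h2, ?_⟩, h4⟩
          by_contra h6
          exact h5.1 (mem_sp.2 ⟨h1, h6⟩)
      rw [hset]
      refine (Complex.norm_le_abs_re_add_abs_im _).trans (le_of_eq ?_)
      unfold ing cvg
      rw [Complex.re_sum, Complex.im_sum]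
      congr 2
      · refine Finset.sum_congr rfl fun w _ => ?_
        unfold mnf
        have h1 : ((Fintype.card G : ℂ)⁻¹ * ∑ g, U x g) =
            (((Fintype.card G : ℝ)⁻¹ : ℝ) : ℂ) * ∑ g, U x g := by
          push_cast
          rfl
        rw [Complex.sub_re, h1, Complex.re_ofReal_mul, Complex.re_sum]
      · refine Finset.sum_congr rfl fun w _ => ?_
        unfold mnf
        have h1 : ((Fintype.card G : ℂ)⁻¹ * ∑ g, U x g) =
            (((Fintype.card G : ℝ)⁻¹ : ℝ) : ℂ) * ∑ g, U x g := by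
          push_cast
          rfl
        rw [Complex.sub_im, h1, Complex.im_ofReal_mul, Complex.im_sum]
    · rw [if_neg hT]
      have h1 : (Z.filter (fun v => T < (nm v : ℝ) ∧ c v = none)).filter
          (fun w => nr (sp Z c) * (nm w : ℝ) ≤ Y) = ∅ := by
        rw [Finset.filter_eq_empty_iff]
        intro w hw h2
        have h3 := (Finset.mem_filter.1 hw).2.1
        have h4 : nr (sp Z c) * T ≤ nr (sp Z c) * (nm w : ℝ) :=
          mul_le_mul_of_nonneg_left (le_of_lt h3) hnr.le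
        exact hT (h4.trans h2)
      rw [h1, Finset.sum_empty, norm_zero]
  · rw [if_neg hcond, norm_zero]
    exact hpos

/-- THE LARGE PRIMES CAN BE REPLACED BY MEANS -/
theorem gpx (D : RD0 K p ζ) (κ : ℕ) (hG : GPU D Ω κ) (N b A₁ A : ℕ) (ε : ℝ) (hε : 0 < ε)
    (hε1 : ε ≤ 1) :
    ∃ Y₀ : ℝ, ∀ Y : ℝ, Y₀ ≤ Y → ∀ (L : LDs D Ω) (Fr : FR L) (E : Finset (Pl K)),
      nr E ≤ Real.log Y ^ A₁ → ∀ (G : Type) [Group G] [Fintype G] (φ : Gal(Ω/K) →* G),
      Fintype.card G ≤ b → (∀ g : G, g ^ (p ^ κ) = 1) → Function.Surjective φ → Unz L E φ →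
      ∀ U : Fin N → G → ℂ, (∀ j g, ‖U j g‖ ≤ b) → (∀ j y z, U j (z * y * z⁻¹) = U j y) →
      ∀ M : ℕ,
      ‖∑ f ∈ RC D N M (Real.exp (Real.log Y ^ ε)) Y E,
          om (ZZ D Y \ E) (fun v j => U j (φ (Fr.F v))) f -
        ∑ f ∈ RC D N M (Real.exp (Real.log Y ^ ε)) Y E,
          om (ZZ D Y \ E) (mw Fr φ U (Real.exp (Real.log Y ^ ε))) f‖ ≤
        Y * Real.log Y ^ (-(A : ℝ)) := by
  obtain ⟨K₀, hK₀⟩ : ∃ K₀ : ℕ, K₀ = 2 * b + 2 * N + 1 := ⟨_, rfl⟩
  obtain ⟨Y₁, h₁⟩ := lgx D κ hG b K₀ A₁ (A + 1) (by omega) ε hε hε1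
  refine ⟨max Y₁ (Real.exp 2), fun Y hY L Fr E hE G _ _ φ hb hκ hs hU U hUb hUc M => ?_⟩
  have hY1 : Y₁ ≤ Y := (le_max_left _ _).trans hY
  have hY2 : Real.exp 2 ≤ Y := (le_max_right _ _).trans hY
  have hY0 : 0 < Y := (Real.exp_pos 2).trans_le hY2
  have hL2 : 2 ≤ Real.log Y := (Real.le_log_iff_exp_le hY0).2 hY2
  obtain ⟨T, hT⟩ : ∃ T : ℝ, T = Real.exp (Real.log Y ^ ε) := ⟨_, rfl⟩
  obtain ⟨Z, hZd⟩ : ∃ Z, Z = ZZ D Y \ E := ⟨_, rfl⟩
  rw [← hT, ← hZd]
  have hbb : (1 : ℝ) ≤ b := by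
    have h1 : 1 ≤ Fintype.card G := Fintype.card_pos
    exact_mod_cast h1.trans hb
  have hRC : ∀ a : Pl K → Fin N → ℂ, ∑ f ∈ RC D N M T Y E, om Z a f =
      ∑ f ∈ Cf Z (Fin N), (if Rich M T Z f ∧ nr (sp Z f) ≤ Y then (1 : ℂ) else 0) * om Z a f := by
    intro a
    unfold H86.AP.RC
    rw [← hZd, Finset.sum_filter]
    refine Finset.sum_congr rfl fun f _ => ?_
    split_ifs
    · rw [one_mul]
    · rw [zero_mul]
  rw [hRC, hRC, clc Z (fun v => T < (nm v : ℝ)) _ _ _ (fun v x hv => by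
    unfold mw
    rw [if_neg hv])]
  have hm2 : ∀ c : Pl K → Option (Fin N × Bool),
      ‖om Z (m2 (fun v j => U j (φ (Fr.F v))) (mw Fr φ U T)) c‖ ≤ (K₀ : ℝ) ^ (sp Z c).card := by
    intro c
    refine om_nrm Z _ _ (fun v x => ?_) c
    have h1 : ∀ j, ‖mw Fr φ U T v j‖ ≤ b := by
      intro j
      unfold mw
      split_ifs
      · exact mnf_le (hUb j)
      · exact hUb _ _
    have h2 : (2 : ℝ) * b ≤ K₀ := by
      rw [hK₀]
      push_cast
      have : (0 : ℝ) ≤ N := Nat.cast_nonneg _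
      linarith
    unfold m2
    split_ifs
    · refine (norm_sub_le _ _).trans ?_
      have := hUb x.1 (φ (Fr.F v))
      have := h1 x.1
      linarith
    · have := h1 x.1
      linarith
  let ι : Type := Fin N × (Pl K → Option (Fin N × Bool))
  let I : Finset ι := (Finset.univ ×ˢ Cf Z (Fin N × Bool)).filter fun t =>
    nr (sp Z t.2) * T ≤ Y
  have hmul : ∀ m, ((I.filter fun t => sp Z t.2 = m).card : ℝ) ≤ (K₀ : ℝ) ^ (m.card + 1) := by
    intro m
    have h1 : (I.filter fun t => sp Z t.2 = m) ⊆ Finset.univ ×ˢ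
        ((Cf Z (Fin N × Bool)).filter fun f => sp Z f = m) := by
      intro t ht
      have ht' := Finset.mem_filter.1 ht
      have ht'' := Finset.mem_product.1 (Finset.mem_filter.1 ht'.1).1
      rw [Finset.mem_product]
      exact ⟨Finset.mem_univ _, Finset.mem_filter.2 ⟨ht''.2, ht'.2⟩⟩
    have h2 : ((I.filter fun t => sp Z t.2 = m).card : ℝ) ≤
        (N : ℝ) * (N * 2 : ℝ) ^ m.card := by
      refine (Nat.cast_le.2 (Finset.card_le_card h1)).trans ?_
      rw [Finset.card_product, Finset.card_univ, Fintype.card_fin]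
      push_cast
      have h3 := cf_cardx (Λ := Fin N × Bool) Z m
      rw [Fintype.card_prod, Fintype.card_fin, Fintype.card_bool] at h3
      push_cast at h3
      exact mul_le_mul_of_nonneg_left h3 (Nat.cast_nonneg _)
    refine h2.trans ?_
    have h3 : (N : ℝ) ≤ K₀ := by
      have h4 : N ≤ K₀ := by omega
      exact_mod_cast h4
    have h4 : (N * 2 : ℝ) ≤ K₀ := by
      have h5 : N * 2 ≤ K₀ := by omega
      exact_mod_cast h5
    calc (N : ℝ) * (N * 2 : ℝ) ^ m.card ≤ (K₀ : ℝ) * (K₀ : ℝ) ^ m.card :=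
          mul_le_mul h3 (pow_le_pow_left₀ (by positivity) h4 _)
            (pow_nonneg (by positivity) _) (Nat.cast_nonneg _)
      _ = (K₀ : ℝ) ^ (m.card + 1) := by rw [pow_succ, mul_comm]
  have key : ∀ h : Fin N → G → ℝ, (∀ j g, |h j g| ≤ b) → (∀ j y z, h j (z * y * z⁻¹) = h j y) →
      ∑ t ∈ I, (K₀ : ℝ) ^ (sp Z t.2).card *
        |ing D T (Y / nr (sp Z t.2)) (sp Z t.2 ∪ E) (cvg Fr φ (h t.1))| ≤
        Y * Real.log Y ^ (-((A + 1 : ℕ) : ℝ)) := by
    intro h hb1 hc1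
    have h2 := h₁ Y hY1 L Fr E hE ι I (fun t => sp Z t.2) (fun t => Y / nr (sp Z t.2))
      (fun t => (K₀ : ℝ) ^ (sp Z t.2).card) ?_ ?_ hmul (fun _ => G) (fun _ => φ)
      (fun t => h t.1) ?_
    · rw [← hT] at h2
      exact h2
    · intro t ht
      have ht' := Finset.mem_filter.1 ht
      have hn0 : 0 < nr (sp Z t.2) := lt_of_lt_of_le one_pos (one_le_nr _)
      refine ⟨fun v hv => ?_, ?_, ?_, ?_⟩
      · have h1 := (mem_sp.1 hv).1
        rw [hZd, Finset.mem_sdiff, mem_zz] at h1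
        exact h1.1.2
      · rw [Finset.disjoint_left]
        intro v hv
        have h1 := (mem_sp.1 hv).1
        rw [hZd, Finset.mem_sdiff] at h1
        exact h1.2
      · rw [← hT, le_div_iff₀ hn0, mul_comm]
        exact ht'.2
      · rw [mul_div_cancel₀ _ hn0.ne']
        linarith
    · intro t _
      have hK1 : (1 : ℝ) ≤ K₀ := by
        have h4 : 1 ≤ K₀ := by omega
        exact_mod_cast h4
      exact ⟨by positivity, pow_le_pow_right₀ hK1 (Nat.le_succ _)⟩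
    · intro t _
      exact ⟨hs, hκ, hb, hb1 t.1, hc1 t.1, hU.1, fun v hv hvE =>
        ⟨by rw [hU.2 v hv hvE, one_pow], fun _ => hU.2 v hv hvE⟩⟩
  have hre := key (fun j g => (U j g).re) (fun j g => (Complex.abs_re_le_norm _).trans (hUb j g))
    (fun j y z => by beta_reduce; rw [hUc])
  have him := key (fun j g => (U j g).im) (fun j g => (Complex.abs_im_le_norm _).trans (hUb j g))
    (fun j y z => by beta_reduce; rw [hUc])
  have hone : ∀ x : Fin N, ∀ c : Pl K → Option (Fin N × Bool),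
      ‖om Z (m2 (fun v j => U j (φ (Fr.F v))) (mw Fr φ U T)) c / ((tk Z c : ℂ) + 1) *
        ∑ w ∈ Z.filter (fun v => T < (nm v : ℝ) ∧ c v = none),
          (if Rich M T Z (mp Prod.fst (Function.update c w (some (x, true)))) ∧
            nr (sp Z (mp Prod.fst (Function.update c w (some (x, true))))) ≤ Y then
            (1 : ℂ) else 0) * (U x (φ (Fr.F w)) - mw Fr φ U T w x)‖ ≤
      if nr (sp Z c) * T ≤ Y then (K₀ : ℝ) ^ (sp Z c).card *
        |ing D T (Y / nr (sp Z c)) (sp Z c ∪ E) (cvg Fr φ fun g => (U x g).re)| +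
        (K₀ : ℝ) ^ (sp Z c).card *
        |ing D T (Y / nr (sp Z c)) (sp Z c ∪ E) (cvg Fr φ fun g => (U x g).im)| else 0 := by
    intro x c
    have h1 := innx (D := D) Fr φ U M T Y E c x
    rw [← hZd] at h1
    have h2 : ‖om Z (m2 (fun v j => U j (φ (Fr.F v))) (mw Fr φ U T)) c / ((tk Z c : ℂ) + 1)‖ ≤
        (K₀ : ℝ) ^ (sp Z c).card := by
      rw [norm_div]
      refine (div_le_self (norm_nonneg _) ?_).trans (hm2 c)
      have h3 : ((tk Z c : ℂ) + 1) = ((tk Z c + 1 : ℕ) : ℂ) := by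
        push_cast
        rfl
      rw [h3, Complex.norm_natCast]
      exact_mod_cast Nat.le_add_left 1 _
    rw [norm_mul]
    refine (mul_le_mul h2 h1 (norm_nonneg _) (by positivity)).trans (le_of_eq ?_)
    split_ifs
    · rw [mul_add]
    · rw [mul_zero]
  refine (norm_sum_le _ _).trans ((Finset.sum_le_sum fun x _ =>
    (norm_sum_le _ _).trans (Finset.sum_le_sum fun c _ => hone x c)).trans ?_)
  have hsum : ∑ x : Fin N, ∑ c ∈ Cf Z (Fin N × Bool), (if nr (sp Z c) * T ≤ Y then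
      (K₀ : ℝ) ^ (sp Z c).card *
        |ing D T (Y / nr (sp Z c)) (sp Z c ∪ E) (cvg Fr φ fun g => (U x g).re)| +
        (K₀ : ℝ) ^ (sp Z c).card *
        |ing D T (Y / nr (sp Z c)) (sp Z c ∪ E) (cvg Fr φ fun g => (U x g).im)| else 0) =
      ∑ t ∈ I, (K₀ : ℝ) ^ (sp Z t.2).card *
        |ing D T (Y / nr (sp Z t.2)) (sp Z t.2 ∪ E) (cvg Fr φ fun g => (U t.1 g).re)| +
      ∑ t ∈ I, (K₀ : ℝ) ^ (sp Z t.2).card *
        |ing D T (Y / nr (sp Z t.2)) (sp Z t.2 ∪ E) (cvg Fr φ fun g => (U t.1 g).im)| := by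
    rw [← Finset.sum_add_distrib]
    show _ = ∑ t ∈ (Finset.univ ×ˢ Cf Z (Fin N × Bool)).filter _, _
    rw [Finset.sum_filter, Finset.sum_product]
  rw [hsum]
  refine (add_le_add hre him).trans ?_
  have hlog : Real.log Y ^ (-((A + 1 : ℕ) : ℝ)) = Real.log Y ^ (-(A : ℝ)) / Real.log Y := by
    rw [show -((A + 1 : ℕ) : ℝ) = -(A : ℝ) - 1 by push_cast; ring,
      Real.rpow_sub_one (by linarith)]
  have hp0 : 0 ≤ Real.log Y ^ (-(A : ℝ)) := Real.rpow_nonneg (by linarith) _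
  rw [hlog, ← two_mul]
  calc 2 * (Y * (Real.log Y ^ (-(A : ℝ)) / Real.log Y)) =
        Y * (Real.log Y ^ (-(A : ℝ)) * (2 / Real.log Y)) := by ring
    _ ≤ Y * (Real.log Y ^ (-(A : ℝ)) * 1) := by
        refine mul_le_mul_of_nonneg_left (mul_le_mul_of_nonneg_left ?_ hp0) hY0.le
        rw [div_le_one (by linarith)]
        exact hL2
    _ = Y * Real.log Y ^ (-(A : ℝ)) := by rw [mul_one]

end H38.S3

end

end Gpx_

section Mtw_

/-!
# H38-S3-MTW: the theorem of Mertens with weights, from both sides (MP_b39724_nt, stage 3, chapter D)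

`Mtw D E W m C`: the sum of `W v / nm v` over the good primes outside `E` of norm at most `x` is `m log log x` up to `C`. `mtw_one`: `W = 1`. `mtw_fx`: `W v = fx H (φ F_v)`, mean `1`, with a constant which
depends on `φ`, `H`, `E` and not on the places. `afw`: the sum over the sets of primes for weights with different bounds at the small and at the large primes.
-/

set_option autoImplicit false

open scoped NumberField Classical
open NumberField IsDedekindDomain H63.MA H38.BB H38.BG H57.PC H57.BRA H77.WD H77.WE H57.AN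
  H35.CF H86.AP H77.PT H55.E2 H36.QA H57.TLS H51.CUB Filter Topology

noncomputable section

namespace H38.S3

section mt

/-- Mertens from below, outside a finite set of primes, for the primes of prime norm -/
theorem mert_f (F : Type) [Field F] [NumberField F] (S : Finset (Pl F)) : ∃ C : ℝ, 0 < C ∧
    ∀ z : ℝ, 3 ≤ z → Real.log (Real.log z) - C ≤
      ∑ w ∈ (PB F z).filter (fun w => w ∉ S ∧ (nm w).Prime), 1 / (nm w : ℝ) := by
  obtain ⟨c, hc, z₀, hz₀⟩ := H38.TD.mert_lower (K := F) (S : Set (Pl F)) S.finite_toSet 0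
  have hdeg := deg_summable F (σ := 1) (by norm_num)
  obtain ⟨T, hT⟩ : ∃ T : ℝ, T = ∑' v : Pl F, Set.indicator {v : Pl F | ¬ (nm v).Prime}
      (fun v => (nm v : ℝ) ^ (-(1 : ℝ))) v := ⟨_, rfl⟩
  have hT0 : 0 ≤ T := by
    rw [hT]
    exact tsum_nonneg fun v => Set.indicator_nonneg (fun v _ => pzb_nonneg v _) v
  have key : ∀ z : ℝ, H38.TD.Lv (fun v : H38.TD.Po F (S : Set (Pl F)) => H38.TD.nv v.1)
      (H38.TD.Zs (S : Set (Pl F)) 0 z) ≤
      ∑ w ∈ (PB F z).filter (fun w => w ∉ S ∧ (nm w).Prime), 1 / (nm w : ℝ) + T := by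
    intro z
    unfold H38.TD.Lv
    have e1 : ∑ v ∈ H38.TD.Zs (S : Set (Pl F)) 0 z, 1 / ((H38.TD.nv v.1 : ℕ) : ℝ) =
        ∑ v ∈ (H38.TD.Zs (S : Set (Pl F)) 0 z).image Subtype.val, 1 / (nm v : ℝ) := by
      rw [Finset.sum_image (fun a _ b _ h => Subtype.ext h)]
      rfl
    rw [e1, ← Finset.sum_filter_add_sum_filter_not _ (fun v : Pl F => (nm v).Prime)]
    refine add_le_add ?_ ?_
    · refine Finset.sum_le_sum_of_subset_of_nonneg ?_ fun v _ _ => by positivity
      intro v hv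
      rw [Finset.mem_filter, Finset.mem_image] at hv
      obtain ⟨⟨u, hu, rfl⟩, hp⟩ := hv
      rw [H38.TD.mem_Zs] at hu
      rw [Finset.mem_filter, mem_PB]
      exact ⟨hu.1, fun h => u.2 (by exact_mod_cast h), hp⟩
    · rw [hT]
      refine le_trans (le_of_eq ?_) (hdeg.sum_le_tsum
        (((H38.TD.Zs (S : Set (Pl F)) 0 z).image Subtype.val).filter fun v => ¬ (nm v).Prime)
        fun v _ => Set.indicator_nonneg (fun v _ => pzb_nonneg v _) v)
      refine Finset.sum_congr rfl fun v hv => ?_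
      rw [Set.indicator_of_mem (show v ∈ {v : Pl F | ¬ (nm v).Prime} from
        (Finset.mem_filter.1 hv).2), Real.rpow_neg_one, one_div]
  refine ⟨|Real.log c| + T + |Real.log (Real.log (max z₀ 3))| + 1, by positivity,
    fun z hz => ?_⟩
  have h1 : 1 ≤ Real.log z := by
    rw [Real.le_log_iff_exp_le (by linarith)]
    linarith [Real.exp_one_lt_d9]
  have h0 : 0 < Real.log z := by linarith
  have hLi : 0 ≤ ∑ w ∈ (PB F z).filter (fun w => w ∉ S ∧ (nm w).Prime), 1 / (nm w : ℝ) :=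
    Finset.sum_nonneg fun v _ => by positivity
  have ha := abs_nonneg (Real.log c)
  have hb := abs_nonneg (Real.log (Real.log (max z₀ 3)))
  rcases le_or_gt z₀ z with hzz | hzz
  · have h2 := hz₀ z hzz
    have h3 : Real.log (c * Real.log z) ≤ _ :=
      (Real.log_le_iff_le_exp (by positivity)).2 h2
    rw [Real.log_mul hc.ne' h0.ne'] at h3
    have h4 := key z
    have h5 := neg_abs_le (Real.log c)
    linarith
  · have h2 : Real.log (Real.log z) ≤ Real.log (Real.log (max z₀ 3)) := by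
      refine Real.log_le_log h0 (Real.log_le_log (by linarith) ?_)
      exact hzz.le.trans (le_max_left _ _)
    have h3 := le_abs_self (Real.log (Real.log (max z₀ 3)))
    linarith

variable {K : Type} [Field K] [NumberField K] {p : ℕ} {ζ : K}

/-- the theorem of Mertens for the weights `W` of mean `m` -/
def Mtw (D : RD0 K p ζ) (E : Finset (Pl K)) (W : Pl K → ℝ) (m C : ℝ) : Prop :=
  ∀ x : ℝ, 3 ≤ x → |∑ v ∈ ZZ D x \ E, W v / nm v - m * Real.log (Real.log x)| ≤ C

theorem zz_gdy (D : RD0 K p ζ) (x : ℝ) : ZZ D x = gdY D x := by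
  ext v
  rw [mem_zz, chr_mem]

theorem Mtw.mono {D : RD0 K p ζ} {E : Finset (Pl K)} {W : Pl K → ℝ} {m C C' : ℝ}
    (h : Mtw D E W m C) (hC : C ≤ C') : Mtw D E W m C' := fun x hx => (h x hx).trans hC

theorem Mtw.congr {D : RD0 K p ζ} {E : Finset (Pl K)} {W W' : Pl K → ℝ} {m C : ℝ}
    (h : Mtw D E W m C) (hW : ∀ v, D.Gd v → v ∉ E → W v = W' v) : Mtw D E W' m C := by
  intro x hx
  have h1 := h x hx
  have h2 : ∑ v ∈ ZZ D x \ E, W v / nm v = ∑ v ∈ ZZ D x \ E, W' v / nm v := by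
    refine Finset.sum_congr rfl fun v hv => ?_
    rw [Finset.mem_sdiff, mem_zz] at hv
    rw [hW v hv.1.2 hv.2]
  rwa [h2] at h1

theorem Mtw.add {D : RD0 K p ζ} {E : Finset (Pl K)} {W W' : Pl K → ℝ} {m m' C C' : ℝ}
    (h : Mtw D E W m C) (h' : Mtw D E W' m' C') :
    Mtw D E (fun v => W v + W' v) (m + m') (C + C') := by
  intro x hx
  have h1 := h x hx
  have h2 := h' x hx
  have h3 : ∑ v ∈ ZZ D x \ E, (W v + W' v) / nm v - (m + m') * Real.log (Real.log x) =
      (∑ v ∈ ZZ D x \ E, W v / nm v - m * Real.log (Real.log x)) +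
      (∑ v ∈ ZZ D x \ E, W' v / nm v - m' * Real.log (Real.log x)) := by
    simp_rw [add_div]
    rw [Finset.sum_add_distrib]
    ring
  beta_reduce
  rw [h3]
  exact (abs_add_le _ _).trans (add_le_add h1 h2)

theorem Mtw.smul {D : RD0 K p ζ} {E : Finset (Pl K)} {W : Pl K → ℝ} {m C : ℝ}
    (h : Mtw D E W m C) (c : ℝ) : Mtw D E (fun v => c * W v) (c * m) (|c| * C) := by
  intro x hx
  have h1 := h x hx
  have h3 : ∑ v ∈ ZZ D x \ E, (c * W v) / nm v - c * m * Real.log (Real.log x) =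
      c * (∑ v ∈ ZZ D x \ E, W v / nm v - m * Real.log (Real.log x)) := by
    rw [mul_sub, Finset.mul_sum]
    congr 1
    · exact Finset.sum_congr rfl fun v _ => mul_div_assoc _ _ _
    · ring
  beta_reduce
  rw [h3, abs_mul]
  exact mul_le_mul_of_nonneg_left h1 (abs_nonneg _)

theorem Mtw.sum {ι : Type} (s : Finset ι) {D : RD0 K p ζ} {E : Finset (Pl K)}
    {W : ι → Pl K → ℝ} {m C : ι → ℝ} (h : ∀ i ∈ s, Mtw D E (W i) (m i) (C i)) :
    Mtw D E (fun v => ∑ i ∈ s, W i v) (∑ i ∈ s, m i) (∑ i ∈ s, C i) := by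
  induction s using Finset.induction_on with
  | empty =>
    intro x _
    simp
  | insert a s ha ih =>
    have h1 := (h a (Finset.mem_insert_self a s)).add
      (ih fun i hi => h i (Finset.mem_insert_of_mem hi))
    simp_rw [Finset.sum_insert ha]
    exact h1

theorem mtw_one (D : RD0 K p ζ) (E : Finset (Pl K)) : ∃ C : ℝ, Mtw D E (fun _ => 1) 1 C := by
  obtain ⟨C₁, hC₁, h1⟩ := mert_f K (D.S0 ∪ E)
  obtain ⟨C₂, hC₂, h2⟩ := H83.LW.lg_up D
  refine ⟨C₁ + C₂, fun x hx => ?_⟩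
  have h3 := h1 x hx
  have h4 := h2 x hx
  unfold H83.LW.Li at h4
  have h5 : ∑ w ∈ (PB K x).filter (fun w => w ∉ D.S0 ∪ E ∧ (nm w).Prime), 1 / (nm w : ℝ) ≤
      ∑ v ∈ ZZ D x \ E, 1 / (nm v : ℝ) := by
    refine Finset.sum_le_sum_of_subset_of_nonneg ?_ fun v _ _ => by positivity
    intro v hv
    rw [Finset.mem_filter, mem_PB, Finset.mem_union, not_or] at hv
    rw [Finset.mem_sdiff, mem_zz]
    exact ⟨⟨hv.1, hv.2.1.1, hv.2.2⟩, hv.2.1.2⟩
  have h6 : ∑ v ∈ ZZ D x \ E, 1 / (nm v : ℝ) ≤ ∑ v ∈ gdY D x, 1 / (nm v : ℝ) := by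
    rw [zz_gdy]
    exact Finset.sum_le_sum_of_subset_of_nonneg Finset.sdiff_subset fun v _ _ => by positivity
  rw [abs_le, one_mul]
  constructor <;> linarith

variable {Ω : Type} [Field Ω] [Algebra K Ω] [IsAlgClosure K Ω] {G : Type} [Group G]

/-- the number of the labels over the good primes outside `E` -/
theorem mtw_lab (D : RD0 K p ζ) (E : Finset (Pl K)) (F : Type) [Field F] [NumberField F]
    [Algebra K F] {n : ℕ} (hn : 0 < n) (hF : TC F n) :
    ∃ C : ℝ, Mtw D E (fun v => ((ubW K v : Finset (Pl F)).card : ℝ)) 1 C := by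
  have hfin : {w : Pl F | dn K w ∈ D.S0 ∪ E}.Finite := by
    have h1 : {w : Pl F | dn K w ∈ D.S0 ∪ E} ⊆
        ⋃ v ∈ ((D.S0 ∪ E : Finset (Pl K)) : Set (Pl K)), {w : Pl F | Over w v} := by
      intro w hw
      rw [Set.mem_iUnion₂]
      exact ⟨dn K w, hw, dn_over K w⟩
    refine Set.Finite.subset ?_ h1
    exact Set.Finite.biUnion (Finset.finite_toSet _) fun v _ => over_finite v
  obtain ⟨C₁, hC₁, h1⟩ := mert_f F hfin.toFinset
  obtain ⟨C₂, A, hC₂, h2⟩ := zt n hn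
  obtain ⟨C₃, hC₃⟩ : ∃ C₃ : ℝ, C₃ = A * Real.log (1 + Real.log (dd F)) + C₂ := ⟨_, rfl⟩
  refine ⟨C₁ + |C₃|, fun x hx => ?_⟩
  have h3 := h1 x hx
  have h4 := h2 F hF x hx
  have h5 := ub_P K F x
  have h6 : ∑ v ∈ ZZ D x \ E, ((ubW K v : Finset (Pl F)).card : ℝ) / nm v ≤
      ∑ v ∈ PB K x, ((ubW K v : Finset (Pl F)).card : ℝ) / nm v := by
    refine Finset.sum_le_sum_of_subset_of_nonneg ?_ fun v _ _ => by positivity
    exact Finset.sdiff_subset.trans (Finset.filter_subset _ _)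
  have h7 : ∑ w ∈ (PB F x).filter (fun w => w ∉ hfin.toFinset ∧ (nm w).Prime),
      1 / (nm w : ℝ) ≤ ∑ v ∈ ZZ D x \ E, ((ubW K v : Finset (Pl F)).card : ℝ) / nm v := by
    have e1 : ∀ v ∈ ZZ D x \ E, ((ubW K v : Finset (Pl F)).card : ℝ) / nm v =
        ∑ w ∈ (ubW K v : Finset (Pl F)), 1 / (nm w : ℝ) := by
      intro v _
      have e2 : ∀ w ∈ (ubW K v : Finset (Pl F)), 1 / (nm w : ℝ) = 1 / nm v := by
        intro w hw
        obtain ⟨h3, h4⟩ := (ub_mem K).1 hw
        rw [← nm_dn K h4, h3]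
      rw [Finset.sum_congr rfl e2, Finset.sum_const, nsmul_eq_mul, mul_one_div]
    rw [Finset.sum_congr rfl e1]
    have e3 : ∀ v ∈ ZZ D x \ E, ∀ v' ∈ ZZ D x \ E, v ≠ v' →
        Disjoint (ubW K v : Finset (Pl F)) (ubW K v') := by
      intro v _ v' _ hne
      rw [Finset.disjoint_left]
      intro w hw hw'
      exact hne (((ub_mem K).1 hw).1.symm.trans ((ub_mem K).1 hw').1)
    rw [← Finset.sum_biUnion e3]
    refine Finset.sum_le_sum_of_subset_of_nonneg ?_ fun v _ _ => by positivity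
    intro w hw
    rw [Finset.mem_filter, mem_PB, Set.Finite.mem_toFinset, Set.mem_setOf_eq,
      Finset.mem_union, not_or] at hw
    rw [Finset.mem_biUnion]
    refine ⟨dn K w, ?_, (ub_mem K).2 ⟨rfl, hw.2.2⟩⟩
    rw [Finset.mem_sdiff, mem_zz, nm_dn K hw.2.2]
    refine ⟨⟨hw.1, hw.2.1.1, ?_⟩, hw.2.1.2⟩
    rw [nm_dn K hw.2.2]
    exact hw.2.2
  have h8 := le_abs_self C₃
  have h9 := abs_nonneg C₃
  rw [abs_le, one_mul]
  beta_reduce
  constructor <;> linarith

/-- MERTENS FOR THE NUMBER OF THE FIXED POINTS -/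
theorem mtw_fx [Finite G] (hp : p.Prime) (hp2 : MOne p K) (hζ : IsPrimitiveRoot ζ p)
    (D : RD0 K p ζ) (hG : IsPGroup p G) (φ : Gal(Ω/K) →* G) (hφ : H38.ML.FT φ)
    (hs : Function.Surjective φ) (H : Subgroup G) (E : Finset (Pl K)) :
    ∃ C : ℝ, ∀ (L : LDs D Ω) (Fr : FR L), Unz L E φ →
      Mtw D E (fun v => fx H (φ (Fr.F v))) 1 C := by
  have hfd : FiniteDimensional K (MF φ H) := mf_fin φ hφ H
  have hnf : NumberField (MF φ H) := NumberField.of_module_finite K (MF φ H)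
  obtain ⟨C, hC⟩ := mtw_lab D E (MF φ H) (Nat.mul_pos
    (Nat.pos_of_ne_zero Subgroup.index_ne_zero_of_finite) Module.finrank_pos)
    (mf_tc hp hp2 hζ φ hφ hs H)
  refine ⟨C, fun L Fr hU => hC.congr fun v hv hvE => ?_⟩
  have hE := unz_inr hp hζ L hG φ E hU
  rw [fx_lab L Fr φ hφ hs H hv (hE v hv.1 hvE), ifa_ncard]
  rfl

end mt

end H38.S3

end

end Mtw_

section Lowz_

/-!
# H38-S3-LOWZ: nonnegative bounds (MP_b39724_nt, stage 3, chapter D, D4 and D5 (a))

`afw`: the sum over the sets of primes of a product of weights with different bounds at the small and at the large primes. `low4`: classes with weights `fx (S j) (φ F_v)` at the small primes, at most `1` at the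
large primes and at most `z` for the class `j₀`: at most `U Y (log Y)^(N-1) (log T/log Y)^(1-z)`. `d4`: THE SUM OVER THE RICH CONFIGURATIONS OF A PRODUCT OF CLASS FUNCTIONS `U j`, `|U j| ≤ fx (S j)`, one of which has
a mean of absolute value less than `1`, is `o(Y (log Y)^(N-1))`, uniformly in the places.
-/

set_option autoImplicit false

open scoped NumberField Classical
open NumberField IsDedekindDomain H63.MA H38.BB H38.BG H57.PC H57.BRA H77.WD H77.WE H57.AN
  H35.CF H86.AP H77.PT H55.E2 H35.UB Filter Topology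

noncomputable section

namespace H38.S3

section lo

variable {K : Type} [Field K] [NumberField K] {p : ℕ} {ζ : K}

/-- the sum over the sets of primes, weights bounded by `S` at the small and by `A` at the large primes -/
theorem afw (D : RD0 K p ζ) (E : Finset (Pl K)) (B n m C : ℝ) (hB : 0 ≤ B) : ∃ U : ℝ, 0 ≤ U ∧
    ∀ (W S A : Pl K → ℝ) (T Y : ℝ), (∀ v, 0 ≤ W v ∧ W v ≤ B) →
    (∀ v, ¬ (D.Gd v ∧ v ∉ E) → W v = 0) →
    (∀ v, D.Gd v → v ∉ E → (nm v : ℝ) ≤ T → W v ≤ S v) →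
    (∀ v, D.Gd v → v ∉ E → T < (nm v : ℝ) → W v ≤ A v) →
    Mtw D E S n C → Mtw D E A m C → 3 ≤ T → T ≤ Y →
    ∑ s ∈ AF K Y, ∏ v ∈ s, W v ≤
      U * (Y / Real.log Y * (Real.log T ^ n * (Real.log Y / Real.log T) ^ m)) := by
  obtain ⟨U, hU, hub⟩ := ub K B hB
  refine ⟨U * Real.exp (3 * C), by positivity, fun W S A T Y hW hW0 hS hA hmS hmA hT hTY => ?_⟩
  have hY : 3 ≤ Y := hT.trans hTY
  have hlT : 1 < Real.log T := by
    rw [Real.lt_log_iff_exp_lt (by linarith)]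
    linarith [Real.exp_one_lt_d9]
  have hlY : Real.log T ≤ Real.log Y := Real.log_le_log (by linarith) hTY
  have hnm : ∀ v : Pl K, (0 : ℝ) < nm v := fun v => by
    have := one_lt_nm v
    exact_mod_cast (by omega : 0 < nm v)
  have h1 := hub W hW Y (by linarith)
  have h2 : ∑ v ∈ PB K Y, W v / nm v ≤
      n * Real.log (Real.log T) + m * (Real.log (Real.log Y) - Real.log (Real.log T)) + 3 * C := by
    have e1 : ∑ v ∈ PB K Y, W v / nm v = ∑ v ∈ ZZ D Y \ E, W v / nm v := by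
      symm
      refine Finset.sum_subset (Finset.sdiff_subset.trans (Finset.filter_subset _ _)) ?_
      intro v hv hv'
      rw [hW0 v, zero_div]
      rintro ⟨h3, h4⟩
      exact hv' (Finset.mem_sdiff.2 ⟨mem_zz.2 ⟨mem_PB.1 hv, h3⟩, h4⟩)
    have e2 : ∀ F : Pl K → ℝ, ∑ v ∈ ZZ D Y \ E, F v =
        ∑ v ∈ ZZ D T \ E, F v + ∑ v ∈ (ZZ D Y \ E).filter (fun v => T < (nm v : ℝ)), F v := by
      intro F
      rw [← Finset.sum_filter_add_sum_filter_not (ZZ D Y \ E) (fun v => T < (nm v : ℝ)),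
        add_comm]
      congr 1
      refine Finset.sum_congr ?_ fun _ _ => rfl
      ext v
      rw [Finset.mem_filter, Finset.mem_sdiff, Finset.mem_sdiff, mem_zz, mem_zz, not_lt]
      constructor
      · rintro ⟨⟨⟨_, h3⟩, h4⟩, h5⟩
        exact ⟨⟨h5, h3⟩, h4⟩
      · rintro ⟨⟨h5, h3⟩, h4⟩
        exact ⟨⟨⟨h5.trans hTY, h3⟩, h4⟩, h5⟩
    have e3 : ∑ v ∈ ZZ D T \ E, W v / nm v ≤ ∑ v ∈ ZZ D T \ E, S v / nm v := by
      refine Finset.sum_le_sum fun v hv => ?_
      rw [Finset.mem_sdiff, mem_zz] at hv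
      exact div_le_div_of_nonneg_right (hS v hv.1.2 hv.2 hv.1.1) (hnm v).le
    have e4 : ∑ v ∈ (ZZ D Y \ E).filter (fun v => T < (nm v : ℝ)), W v / nm v ≤
        ∑ v ∈ (ZZ D Y \ E).filter (fun v => T < (nm v : ℝ)), A v / nm v := by
      refine Finset.sum_le_sum fun v hv => ?_
      rw [Finset.mem_filter, Finset.mem_sdiff, mem_zz] at hv
      exact div_le_div_of_nonneg_right (hA v hv.1.1.2 hv.1.2 hv.2) (hnm v).le
    have e5 := e2 fun v => A v / nm v
    have e6 := (abs_le.1 (hmS T hT)).2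
    have e7 := (abs_le.1 (hmA T hT)).1
    have e8 := (abs_le.1 (hmA Y hY)).2
    rw [e1, e2]
    linarith
  have h3 : Real.exp (∑ v ∈ PB K Y, W v / nm v) ≤
      Real.log T ^ n * (Real.log Y / Real.log T) ^ m * Real.exp (3 * C) := by
    refine (Real.exp_le_exp.2 h2).trans (le_of_eq ?_)
    have hl0 : 0 < Real.log T := by linarith
    have hl1 : 0 < Real.log Y := by linarith
    rw [← Real.log_div hl1.ne' hl0.ne', Real.exp_add, Real.exp_add, mul_comm n, mul_comm m,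
      Real.exp_mul, Real.exp_mul, Real.exp_log hl0, Real.exp_log (by positivity)]
  have hYL : 0 ≤ Y / Real.log Y := div_nonneg (by linarith) (by linarith)
  calc _ ≤ _ := h1
    _ ≤ U * (Y / Real.log Y) *
        (Real.log T ^ n * (Real.log Y / Real.log T) ^ m * Real.exp (3 * C)) :=
        mul_le_mul_of_nonneg_left h3 (by positivity)
    _ = _ := by ring

variable {Λ : Type} [Fintype Λ]

/-- the configurations outside `E` with norm at most `Y` -/
def Cy (D : RD0 K p ζ) (Λ : Type) [Fintype Λ] (Y : ℝ) (E : Finset (Pl K)) :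
    Finset (Pl K → Option Λ) :=
  (Cf (ZZ D Y \ E) Λ).filter fun f => nr (sp (ZZ D Y \ E) f) ≤ Y

theorem cy_af (D : RD0 K p ζ) (Y : ℝ) (E : Finset (Pl K)) (a : Pl K → Λ → ℝ) :
    ∑ f ∈ Cy D Λ Y E, om (ZZ D Y \ E) a f =
      ∑ s ∈ AF K Y, ∏ v ∈ s, if D.Gd v ∧ v ∉ E then ∑ x, a v x else 0 := by
  have h1 := cf_prod (ZZ D Y \ E) (fun s => if nr s ≤ Y then (1 : ℝ) else 0) a
  calc ∑ f ∈ Cy D Λ Y E, om (ZZ D Y \ E) a f
      = ∑ f ∈ Cf (ZZ D Y \ E) Λ, (if nr (sp (ZZ D Y \ E) f) ≤ Y then (1 : ℝ) else 0) *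
          om (ZZ D Y \ E) a f := by
        unfold Cy
        rw [Finset.sum_filter]
        refine Finset.sum_congr rfl fun f _ => ?_
        split_ifs
        · rw [one_mul]
        · rw [zero_mul]
    _ = ∑ s ∈ (ZZ D Y \ E).powerset, (if nr s ≤ Y then (1 : ℝ) else 0) *
          ∏ v ∈ s, ∑ x, a v x := h1
    _ = ∑ s ∈ (ZZ D Y \ E).powerset.filter (fun s => nr s ≤ Y),
          ∏ v ∈ s, (if D.Gd v ∧ v ∉ E then ∑ x, a v x else 0) := by
        rw [Finset.sum_filter]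
        refine Finset.sum_congr rfl fun s hs => ?_
        rw [Finset.mem_powerset] at hs
        split_ifs
        · rw [one_mul]
          refine Finset.prod_congr rfl fun v hv => ?_
          have h2 := Finset.mem_sdiff.1 (hs hv)
          rw [if_pos ⟨(mem_zz.1 h2.1).2, h2.2⟩]
        · rw [zero_mul]
    _ = _ := by
        refine Finset.sum_subset ?_ ?_
        · intro s hs
          rw [mem_AF]
          exact (Finset.mem_filter.1 hs).2
        · intro s hs hs'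
          rw [mem_AF] at hs
          have h2 : ∃ v ∈ s, ¬ (D.Gd v ∧ v ∉ E) := by
            by_contra h
            push Not at h
            apply hs'
            rw [Finset.mem_filter, Finset.mem_powerset]
            refine ⟨fun v hv => ?_, hs⟩
            rw [Finset.mem_sdiff, mem_zz]
            exact ⟨⟨(ub_nm_le hv).trans hs, (h v hv).1⟩, (h v hv).2⟩
          obtain ⟨v, hv, hv'⟩ := h2
          refine Finset.prod_eq_zero hv ?_
          rw [if_neg hv']

theorem om_nn (Z : Finset (Pl K)) (a : Pl K → Λ → ℝ) (ha : ∀ v x, 0 ≤ a v x)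
    (f : Pl K → Option Λ) : 0 ≤ om Z a f := by
  unfold om
  refine Finset.prod_nonneg fun v _ => ?_
  cases f v with
  | none => exact zero_le_one
  | some x => exact ha v x

theorem om_mono (Z : Finset (Pl K)) (a b : Pl K → Λ → ℝ) (ha : ∀ v x, 0 ≤ a v x)
    (hab : ∀ v ∈ Z, ∀ x, a v x ≤ b v x) (f : Pl K → Option Λ) : om Z a f ≤ om Z b f := by
  unfold om
  refine Finset.prod_le_prod (fun v _ => ?_) fun v hv => ?_
  · cases f v with
    | none => exact zero_le_one
    | some x => exact ha v x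
  · cases f v with
    | none => exact le_rfl
    | some x => exact hab v hv x

theorem om_norm (Z : Finset (Pl K)) (a : Pl K → Λ → ℂ) (f : Pl K → Option Λ) :
    ‖om Z a f‖ = om Z (fun v x => ‖a v x‖) f := by
  unfold om
  rw [norm_prod]
  refine Finset.prod_congr rfl fun v _ => ?_
  cases f v with
  | none => exact norm_one
  | some x => rfl

end lo

section fxm

variable {R : Type} [Group R] [Fintype R]

/-- the mean of `fx` is `1` -/
theorem fx_sum (H : Subgroup R) : ∑ r : R, fx H r = Fintype.card R := by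
  have hf : Fintype (R ⧸ H) := Fintype.ofFinite _
  have h1 := MulAction.sum_card_fixedBy_eq_card_orbits_mul_card_group R (R ⧸ H)
  have h2 : Fintype.card (Quotient (MulAction.orbitRel R (R ⧸ H))) = 1 := by
    rw [Fintype.card_eq_one_iff]
    refine ⟨Quotient.mk'' ((1 : R) : R ⧸ H), fun y => ?_⟩
    induction y using Quotient.inductionOn' with
    | h y =>
      rw [Quotient.eq'']
      exact MulAction.exists_smul_eq R _ _
  rw [h2, one_mul] at h1
  rw [← h1]
  push_cast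
  refine Finset.sum_congr rfl fun r _ => ?_
  unfold fx
  rw [Nat.card_eq_fintype_card]
  congr 1

theorem sum_π {G : Type} [Group G] [Fintype G] (π : G →* R) (hπ : Function.Surjective π)
    (F : R → ℝ) : Fintype.card R * ∑ g : G, F (π g) = Fintype.card G * ∑ r : R, F r := by
  obtain ⟨c, hc⟩ : ∃ c : ℕ, c = (Finset.univ.filter fun g : G => π g = 1).card := ⟨_, rfl⟩
  have h1 : ∀ r : R, (Finset.univ.filter fun g : G => π g = r).card = c := by
    intro r
    rw [hc]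
    exact MonoidHom.card_fiber_eq_of_mem_range π (hπ r) (hπ 1)
  have h2 : ∀ F : R → ℝ, ∑ g : G, F (π g) = c * ∑ r : R, F r := by
    intro F
    rw [← Finset.sum_fiberwise Finset.univ π, Finset.mul_sum]
    refine Finset.sum_congr rfl fun r _ => ?_
    rw [← h1 r, ← nsmul_eq_mul, ← Finset.sum_const]
    refine Finset.sum_congr rfl fun g hg => ?_
    rw [(Finset.mem_filter.1 hg).2]
  have h3 := h2 fun _ => 1
  rw [Finset.sum_const, Finset.sum_const, Finset.card_univ, Finset.card_univ, nsmul_eq_mul,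
    nsmul_eq_mul, mul_one, mul_one] at h3
  rw [h2 F, h3]
  ring

theorem fx_sumπ {G : Type} [Group G] [Fintype G] (π : G →* R) (hπ : Function.Surjective π)
    (H : Subgroup R) : ∑ g : G, fx H (π g) = Fintype.card G := by
  have h1 := sum_π π hπ (fx H)
  rw [fx_sum] at h1
  have h2 : (Fintype.card R : ℝ) ≠ 0 := Nat.cast_ne_zero.2 Fintype.card_ne_zero
  rw [mul_comm (Fintype.card G : ℝ)] at h1
  exact mul_left_cancel₀ h2 h1

end fxm

section d4

variable {K : Type} [Field K] [NumberField K] {p : ℕ} {ζ : K} {Ω : Type} [Field Ω] [Algebra K Ω]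
  [IsAlgClosure K Ω] {N : ℕ}

/-- small primes: the numbers of the fixed points; large primes: at most `1`, and at most `z` for one class -/
theorem low4 (hp : p.Prime) (hp2 : MOne p K) (hζ : IsPrimitiveRoot ζ p) (D : RD0 K p ζ)
    {R : Type} [Group R] [Finite R] (hR : IsPGroup p R) (φ : Gal(Ω/K) →* R)
    (hφ : H38.ML.FT φ) (hs : Function.Surjective φ) (S : Fin N → Subgroup R)
    (E : Finset (Pl K)) (j₀ : Fin N) (z : ℝ) (hz0 : 0 ≤ z) (hz1 : z ≤ 1) :
    ∃ U : ℝ, 0 ≤ U ∧ ∀ (L : LDs D Ω) (Fr : FR L), Unz L E φ →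
      ∀ (V : Pl K → Fin N → ℝ) (T Y : ℝ), (∀ v j, 0 ≤ V v j) →
      (∀ v, D.Gd v → v ∉ E → (nm v : ℝ) ≤ T → ∀ j, V v j ≤ fx (S j) (φ (Fr.F v))) →
      (∀ v, D.Gd v → v ∉ E → T < (nm v : ℝ) → (∀ j, V v j ≤ 1) ∧ V v j₀ ≤ z) →
      3 ≤ T → T ≤ Y →
      ∑ f ∈ Cy D (Fin N) Y E, om (ZZ D Y \ E) V f ≤
        U * (Y * Real.log Y ^ (N - 1) * (Real.log T / Real.log Y) ^ (1 - z)) := by
  choose Cf hCf using fun j => mtw_fx hp hp2 hζ D hR φ hφ hs (S j) E
  obtain ⟨C₁, hC₁⟩ := mtw_one D E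
  obtain ⟨C, hC⟩ : ∃ C : ℝ, C = |∑ j, Cf j| + |(N : ℝ) - 1 + z| * C₁ := ⟨_, rfl⟩
  have hC₁0 : 0 ≤ C₁ := (abs_nonneg _).trans (hC₁ 3 le_rfl)
  have hN1 : 1 ≤ N := Fin.pos_iff_nonempty.2 ⟨j₀⟩
  have hN : (1 : ℝ) ≤ N := by exact_mod_cast hN1
  have hc1 : (1 : ℝ) ≤ Nat.card R := by
    have h1 : 1 ≤ Nat.card R := Nat.card_pos
    exact_mod_cast h1
  obtain ⟨U, hU, h⟩ := afw D E (N * Nat.card R) N ((N : ℝ) - 1 + z) C (by positivity)
  refine ⟨U, hU, fun L Fr hE V T Y hV0 hV1 hV2 hT hTY => ?_⟩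
  rw [cy_af]
  refine (h (fun v => if D.Gd v ∧ v ∉ E then ∑ x, V v x else 0)
    (fun v => ∑ j, fx (S j) (φ (Fr.F v))) (fun v => (N : ℝ) - 1 + z) T Y ?_ ?_ ?_ ?_ ?_ ?_ hT
    hTY).trans (le_of_eq ?_)
  · intro v
    split_ifs with hv
    · refine ⟨Finset.sum_nonneg fun j _ => hV0 v j, ?_⟩
      have h1 : ∀ j ∈ (Finset.univ : Finset (Fin N)), V v j ≤ Nat.card R := by
        intro j _
        rcases le_or_gt (nm v : ℝ) T with h2 | h2
        · exact (hV1 v hv.1 hv.2 h2 j).trans (fx_le _ _)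
        · exact ((hV2 v hv.1 hv.2 h2).1 j).trans hc1
      refine (Finset.sum_le_sum h1).trans (le_of_eq ?_)
      rw [Finset.sum_const, Finset.card_univ, Fintype.card_fin, nsmul_eq_mul]
    · exact ⟨le_rfl, by positivity⟩
  · intro v hv
    beta_reduce
    rw [if_neg hv]
  · intro v hv hvE hvT
    beta_reduce
    rw [if_pos ⟨hv, hvE⟩]
    exact Finset.sum_le_sum fun j _ => hV1 v hv hvE hvT j
  · intro v hv hvE hvT
    beta_reduce
    rw [if_pos ⟨hv, hvE⟩, ← Finset.add_sum_erase _ _ (Finset.mem_univ j₀)]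
    have h1 := hV2 v hv hvE hvT
    have h2 : ∑ j ∈ Finset.univ.erase j₀, V v j ≤ (N : ℝ) - 1 := by
      refine (Finset.sum_le_sum fun j _ => h1.1 j).trans (le_of_eq ?_)
      rw [Finset.sum_const, Finset.card_erase_of_mem (Finset.mem_univ j₀), Finset.card_univ,
        Fintype.card_fin, nsmul_eq_mul, Nat.cast_sub hN1, Nat.cast_one, mul_one]
    linarith [h1.2]
  · have h1 := Mtw.sum (Finset.univ : Finset (Fin N)) fun j _ => hCf j L Fr hE
    rw [Finset.sum_const, Finset.card_univ, Fintype.card_fin, nsmul_eq_mul, mul_one] at h1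
    refine h1.mono ?_
    rw [hC]
    have h2 := le_abs_self (∑ j, Cf j)
    have h3 : 0 ≤ |(N : ℝ) - 1 + z| * C₁ := by positivity
    linarith
  · have h1 := (hC₁.smul ((N : ℝ) - 1 + z)).congr (W' := fun _ => (N : ℝ) - 1 + z)
      fun v _ _ => mul_one _
    rw [mul_one] at h1
    refine h1.mono ?_
    rw [hC]
    have h2 := abs_nonneg (∑ j, Cf j)
    linarith
  · have hlT : 0 < Real.log T := Real.log_pos (by linarith)
    have hlY : 0 < Real.log Y := Real.log_pos (by linarith)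
    congr 1
    rw [Real.div_rpow hlY.le hlT.le, Real.div_rpow hlT.le hlY.le, ← Real.rpow_natCast _ (N - 1),
      Nat.cast_sub hN1, Nat.cast_one]
    have e1 : Real.log T ^ (N : ℝ) = Real.log T ^ (1 - z) * Real.log T ^ ((N : ℝ) - 1 + z) := by
      rw [← Real.rpow_add hlT]
      congr 1
      ring
    have e2 : Real.log Y ^ ((N : ℝ) - 1 + z) =
        Real.log Y ^ ((N : ℝ) - 1) * (Real.log Y / Real.log Y ^ (1 - z)) := by
      rw [eq_comm, ← mul_div_assoc, div_eq_iff (Real.rpow_pos_of_pos hlY _).ne',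
        ← Real.rpow_add_one hlY.ne', ← Real.rpow_add hlY]
      congr 1
      ring
    have h1 : 0 < Real.log Y ^ (1 - z) := Real.rpow_pos_of_pos hlY _
    have h2 : 0 < Real.log T ^ ((N : ℝ) - 1 + z) := Real.rpow_pos_of_pos hlT _
    rw [e1, e2]
    field_simp

theorem mnf_fx {G R : Type} [Group G] [Fintype G] [Group R] [Finite R] (π : G →* R)
    (hπ : Function.Surjective π) (H : Subgroup R) (u : G → ℂ) (hu : ∀ g, ‖u g‖ ≤ fx H (π g)) :
    ‖mnf u‖ ≤ 1 := by
  have hR : Fintype R := Fintype.ofFinite _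
  have h0 : (0 : ℝ) < Fintype.card G := Nat.cast_pos.2 Fintype.card_pos
  unfold mnf
  rw [norm_mul, norm_inv, Complex.norm_natCast, inv_mul_le_iff₀ h0, mul_one, ← fx_sumπ π hπ H]
  exact (norm_sum_le _ _).trans (Finset.sum_le_sum fun g _ => hu g)

/-- THE SUM OVER THE RICH CONFIGURATIONS OF A PRODUCT OF CLASS FUNCTIONS, ONE OF WHICH HAS A SMALL MEAN -/
theorem d4 (hp : p.Prime) (hp2 : MOne p K) (hζ : IsPrimitiveRoot ζ p) (D : RD0 K p ζ) (κ : ℕ)
    (hG : GPU D Ω κ) {G R : Type} [Group G] [Fintype G] [Group R] [Finite R]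
    (hR : IsPGroup p R) (φ : Gal(Ω/K) →* G) (hφ : H38.ML.FT φ) (hs : Function.Surjective φ)
    (hκ : ∀ g : G, g ^ (p ^ κ) = 1) (π : G →* R) (hπ : Function.Surjective π)
    (S : Fin N → Subgroup R) (E : Finset (Pl K)) (U : Fin N → G → ℂ)
    (hU : ∀ j g, ‖U j g‖ ≤ fx (S j) (π g)) (hUc : ∀ j y z, U j (z * y * z⁻¹) = U j y)
    (hm : ∃ j, ‖mnf (U j)‖ < 1) (ε : ℝ) (hε : 0 < ε) (hε1 : ε < 1) (δ : ℝ) (hδ : 0 < δ) :
    ∃ Y₀ : ℝ, ∀ Y : ℝ, Y₀ ≤ Y → ∀ (L : LDs D Ω) (Fr : FR L), Unz L E φ → ∀ M : ℕ,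
      ‖∑ f ∈ RC D N M (Real.exp (Real.log Y ^ ε)) Y E,
          om (ZZ D Y \ E) (fun v j => U j (φ (Fr.F v))) f‖ ≤
        δ * (Y * Real.log Y ^ (N - 1)) := by
  obtain ⟨j₀, hj₀⟩ := hm
  obtain ⟨z, hz⟩ : ∃ z : ℝ, z = ‖mnf (U j₀)‖ := ⟨_, rfl⟩
  rw [← hz] at hj₀
  have hz0 : 0 ≤ z := by rw [hz]; exact norm_nonneg _
  obtain ⟨b, hb⟩ : ∃ b : ℕ, b = max (Nat.card R) (Fintype.card G) := ⟨_, rfl⟩
  have hs' : Function.Surjective (π.comp φ) := hπ.comp hs
  obtain ⟨Y₁, h₁⟩ := gpx (Ω := Ω) D κ hG N b 1 1 ε hε hε1.le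
  obtain ⟨U₀, hU₀, h₂⟩ := low4 (Ω := Ω) hp hp2 hζ D hR (π.comp φ) (H77.WD.ft_comp π hφ) hs' S E
    j₀ z hz0 hj₀.le
  have hL : Tendsto (fun Y : ℝ => Real.log Y) atTop atTop := Real.tendsto_log_atTop
  have hLε : Tendsto (fun Y : ℝ => Real.log Y ^ ε) atTop atTop :=
    (tendsto_rpow_atTop hε).comp Real.tendsto_log_atTop
  have hze : Tendsto (fun Y : ℝ => U₀ * Real.log Y ^ (-((1 - ε) * (1 - z)))) atTop (𝓝 0) := by
    have h1 : 0 < (1 - ε) * (1 - z) := mul_pos (by linarith) (by linarith)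
    have := ((tendsto_rpow_neg_atTop h1).comp Real.tendsto_log_atTop).const_mul U₀
    simpa using this
  obtain ⟨Y₀, hY₀⟩ := eventually_atTop.1 (((eventually_ge_atTop Y₁).and
    (eventually_ge_atTop (3 : ℝ))).and (((hL.eventually_ge_atTop (nr E)).and
    (hL.eventually_ge_atTop (2 / δ))).and ((hLε.eventually_ge_atTop 2).and
    (hze.eventually_le_const (show (0 : ℝ) < δ / 2 by linarith)))))
  refine ⟨Y₀, fun Y hY L Fr hE M => ?_⟩
  obtain ⟨⟨g1, g2⟩, ⟨g3, g4⟩, g5, g6⟩ := hY₀ Y hY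
  obtain ⟨T, hT⟩ : ∃ T : ℝ, T = Real.exp (Real.log Y ^ ε) := ⟨_, rfl⟩
  have hY0 : 0 < Y := by linarith
  have hL1 : 1 < Real.log Y := by
    rw [Real.lt_log_iff_exp_lt hY0]
    linarith [Real.exp_one_lt_d9]
  have hT3 : 3 ≤ T := by
    rw [hT]
    have h1 := Real.add_one_le_exp (Real.log Y ^ ε)
    linarith
  have hTY : T ≤ Y := by
    rw [hT, ← Real.exp_log hY0, Real.exp_le_exp, Real.log_exp]
    calc Real.log Y ^ ε ≤ Real.log Y ^ (1 : ℝ) :=
          Real.rpow_le_rpow_of_exponent_le hL1.le hε1.le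
      _ = Real.log Y := Real.rpow_one _
  have hlT : Real.log T = Real.log Y ^ ε := by rw [hT, Real.log_exp]
  have hN1 : (1 : ℝ) ≤ Real.log Y ^ (N - 1) := one_le_pow₀ hL1.le
  have hb1 : Fintype.card G ≤ b := by rw [hb]; exact le_max_right _ _
  have hUb : ∀ j g, ‖U j g‖ ≤ b := by
    intro j g
    have h1 : (Nat.card R : ℝ) ≤ b := by
      rw [hb]
      exact_mod_cast le_max_left _ _
    exact ((hU j g).trans (fx_le _ _)).trans h1
  have e1 := h₁ Y g1 L Fr E (by rw [pow_one]; exact g3) G φ hb1 hκ hs hE U hUb hUc M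
  rw [← hT] at e1 ⊢
  have e2 : ‖∑ f ∈ RC D N M T Y E, om (ZZ D Y \ E) (mw Fr φ U T) f‖ ≤
      U₀ * (Y * Real.log Y ^ (N - 1) * (Real.log T / Real.log Y) ^ (1 - z)) := by
    refine le_trans ?_ (h₂ L Fr (hE.comp π) (fun v j => ‖mw Fr φ U T v j‖) T Y
      (fun v j => norm_nonneg _) ?_ ?_ hT3 hTY)
    · refine (norm_sum_le _ _).trans ?_
      simp_rw [om_norm]
      refine Finset.sum_le_sum_of_subset_of_nonneg ?_ fun f _ _ =>
        om_nn _ _ (fun v j => norm_nonneg _) _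
      intro f hf
      rw [H86.AP.RC, Finset.mem_filter] at hf
      rw [Cy, Finset.mem_filter]
      exact ⟨hf.1, hf.2.2⟩
    · intro v _ _ hvT j
      unfold mw
      rw [if_neg (not_lt.2 hvT)]
      exact hU j _
    · intro v _ _ hvT
      have h3 : ∀ j, mw Fr φ U T v j = mnf (U j) := by
        intro j
        unfold mw
        rw [if_pos hvT]
      simp_rw [h3]
      exact ⟨fun j => mnf_fx π hπ (S j) (U j) (hU j), hz.ge⟩
  have e3 : (Real.log T / Real.log Y) ^ (1 - z) = Real.log Y ^ (-((1 - ε) * (1 - z))) := by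
    have h1 : Real.log T / Real.log Y = Real.log Y ^ (-(1 - ε)) := by
      rw [hlT, div_eq_iff (by linarith), ← Real.rpow_add_one (by linarith)]
      congr 1
      ring
    rw [h1, ← Real.rpow_mul (by linarith)]
    congr 1
    ring
  rw [e3] at e2
  have e4 : Y * Real.log Y ^ (-((1 : ℕ) : ℝ)) ≤ δ / 2 * (Y * Real.log Y ^ (N - 1)) := by
    have h1 : Real.log Y ^ (-((1 : ℕ) : ℝ)) ≤ δ / 2 := by
      rw [Nat.cast_one, Real.rpow_neg_one, inv_le_comm₀ (by linarith) (by linarith)]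
      rw [inv_div]
      exact g4
    calc Y * Real.log Y ^ (-((1 : ℕ) : ℝ)) ≤ Y * (δ / 2) :=
          mul_le_mul_of_nonneg_left h1 hY0.le
      _ = δ / 2 * (Y * 1) := by ring
      _ ≤ _ := mul_le_mul_of_nonneg_left (mul_le_mul_of_nonneg_left hN1 hY0.le) (by linarith)
  have e5 : U₀ * (Y * Real.log Y ^ (N - 1) * Real.log Y ^ (-((1 - ε) * (1 - z)))) ≤
      δ / 2 * (Y * Real.log Y ^ (N - 1)) := by
    calc U₀ * (Y * Real.log Y ^ (N - 1) * Real.log Y ^ (-((1 - ε) * (1 - z)))) =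
          U₀ * Real.log Y ^ (-((1 - ε) * (1 - z))) * (Y * Real.log Y ^ (N - 1)) := by ring
      _ ≤ _ := mul_le_mul_of_nonneg_right g6 (by positivity)
  have e6 := norm_le_norm_add_norm_sub' (∑ f ∈ RC D N M T Y E,
    om (ZZ D Y \ E) (fun v j => U j (φ (Fr.F v))) f)
    (∑ f ∈ RC D N M T Y E, om (ZZ D Y \ E) (mw Fr φ U T) f)
  calc _ ≤ _ := e6
    _ ≤ δ / 2 * (Y * Real.log Y ^ (N - 1)) + δ / 2 * (Y * Real.log Y ^ (N - 1)) :=
        add_le_add (e2.trans e5) (e1.trans e4)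
    _ = _ := by ring

end d4

section d5

variable {K : Type} [Field K] [NumberField K] {p : ℕ} {ζ : K} {Ω : Type} [Field Ω] [Algebra K Ω]
  [IsAlgClosure K Ω] {N : ℕ}

theorem fx_bot {G : Type} [Group G] [Fintype G] (g : G) :
    fx (⊥ : Subgroup G) g = if g = 1 then (Fintype.card G : ℝ) else 0 := by
  unfold fx
  split_ifs with h
  · subst h
    have e : {x : G ⧸ (⊥ : Subgroup G) // (1 : G) • x = x} ≃ G := by
      refine (Equiv.subtypeUnivEquiv fun x => one_smul _ x).trans ?_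
      exact (QuotientGroup.quotientBot (G := G)).toEquiv
    rw [Nat.card_congr e, Nat.card_eq_fintype_card]
  · have h1 : IsEmpty {x : G ⧸ (⊥ : Subgroup G) // g • x = x} := by
      refine ⟨fun x => h ?_⟩
      obtain ⟨x, hx⟩ := x
      obtain ⟨y, rfl⟩ := QuotientGroup.mk_surjective x
      rw [MulAction.Quotient.smul_coe, QuotientGroup.eq, Subgroup.mem_bot, smul_eq_mul,
        inv_mul_eq_one] at hx
      exact mul_eq_right.1 hx
    rw [Nat.card_of_isEmpty, Nat.cast_zero]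

/-- the weights with `1/2` at the large split primes with label `s` -/
def wh {Λ G : Type} [Group G] (w : Λ → G → ℝ) (s : Λ) (T : ℝ) (F : Pl K → G) (v : Pl K) (x : Λ) :
    ℝ := w x (F v) * if x = s ∧ T < (nm v : ℝ) ∧ F v = 1 then 1 / 2 else 1

theorem wh_om {Λ G : Type} [Group G] (w : Λ → G → ℝ) (hw : ∀ x g, 0 ≤ w x g) (s : Λ) (T : ℝ)
    (F : Pl K → G) (Z : Finset (Pl K)) (M : ℕ) (f : Pl K → Option Λ)
    (hf : ((pl Z f s).filter fun v => T < (nm v : ℝ) ∧ F v = 1).card ≤ M) :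
    om Z (fun v x => w x (F v)) f ≤ 2 ^ M * om Z (wh w s T F) f := by
  have h0 : 0 ≤ om Z (fun v x => w x (F v)) f := by
    unfold om
    refine Finset.prod_nonneg fun v _ => ?_
    cases f v with
    | none => exact zero_le_one
    | some x => exact hw x _
  have h1 : om Z (wh w s T F) f = om Z (fun v x => w x (F v)) f *
      (1 / 2) ^ ((pl Z f s).filter fun v => T < (nm v : ℝ) ∧ F v = 1).card := by
    unfold om
    have h2 : ((1 : ℝ) / 2) ^ ((pl Z f s).filter fun v => T < (nm v : ℝ) ∧ F v = 1).card =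
        ∏ v ∈ Z, if f v = some s ∧ T < (nm v : ℝ) ∧ F v = 1 then (1 / 2 : ℝ) else 1 := by
      rw [← Finset.prod_filter, Finset.prod_const]
      congr 2
      ext v
      rw [Finset.mem_filter, Finset.mem_filter, mem_pl]
      tauto
    rw [h2, ← Finset.prod_mul_distrib]
    refine Finset.prod_congr rfl fun v _ => ?_
    cases h3 : f v with
    | none =>
      rw [if_neg (by simp), mul_one]
      rfl
    | some x =>
      show wh w s T F v x = w x (F v) * _
      unfold wh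
      simp only [Option.some.injEq]
  rw [h1]
  have h3 : ((1 : ℝ) / 2) ^ M ≤
      (1 / 2) ^ ((pl Z f s).filter fun v => T < (nm v : ℝ) ∧ F v = 1).card :=
    pow_le_pow_of_le_one (by norm_num) (by norm_num) hf
  have h4 : (2 : ℝ) ^ M * (1 / 2) ^ M = 1 := by
    rw [← mul_pow]
    norm_num
  calc om Z (fun v x => w x (F v)) f = om Z (fun v x => w x (F v)) f *
        (2 ^ M * (1 / 2) ^ M) := by rw [h4, mul_one]
    _ = 2 ^ M * (om Z (fun v x => w x (F v)) f * (1 / 2) ^ M) := by ring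
    _ ≤ _ := mul_le_mul_of_nonneg_left (mul_le_mul_of_nonneg_left h3 h0) (by positivity)

theorem low5 (hp : p.Prime) (hp2 : MOne p K) (hζ : IsPrimitiveRoot ζ p) (D : RD0 K p ζ)
    {G R : Type} [Group G] [Fintype G] [Group R] [Finite R] (hG : IsPGroup p G)
    (hR : IsPGroup p R) (φ : Gal(Ω/K) →* G) (hφ : H38.ML.FT φ) (hs : Function.Surjective φ)
    (π : G →* R) (hπ : Function.Surjective π) (S : Fin N → Subgroup R) (E : Finset (Pl K))
    {Λ : Type} [Fintype Λ] (w : Λ → G → ℝ) (hw0 : ∀ x g, 0 ≤ w x g)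
    (hw : ∀ g, ∑ x, w x g ≤ ∑ j, fx (S j) (π g)) (s : Λ) (M : ℕ) :
    ∃ U : ℝ, 0 ≤ U ∧ ∀ (L : LDs D Ω) (Fr : FR L), Unz L E φ → ∀ T Y : ℝ, 3 ≤ T → T ≤ Y →
      ∑ f ∈ (Cy D Λ Y E).filter (fun f => ((pl (ZZ D Y \ E) f s).filter
          fun v => T < (nm v : ℝ) ∧ φ (Fr.F v) = 1).card ≤ M),
        om (ZZ D Y \ E) (fun v x => w x (φ (Fr.F v))) f ≤
        U * (Y * Real.log Y ^ ((N : ℝ) - 1) *
          (Real.log T / Real.log Y) ^ (w s 1 / (2 * Fintype.card G))) := by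
  choose Cf hCf using fun j => mtw_fx (Ω := Ω) hp hp2 hζ D hR (π.comp φ)
    (H77.WD.ft_comp π hφ) (hπ.comp hs) (S j) E
  obtain ⟨C₁, hC₁⟩ := mtw_fx (Ω := Ω) hp hp2 hζ D hG φ hφ hs ⊥ E
  obtain ⟨k, hk⟩ : ∃ k : ℝ, k = w s 1 / (2 * Fintype.card G) := ⟨_, rfl⟩
  have hcG : (0 : ℝ) < Fintype.card G := Nat.cast_pos.2 Fintype.card_pos
  have hk0 : 0 ≤ k := by
    rw [hk]
    exact div_nonneg (hw0 _ _) (by positivity)
  obtain ⟨C, hC⟩ : ∃ C : ℝ, C = |∑ j, Cf j| + k * |C₁| := ⟨_, rfl⟩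
  obtain ⟨U, hU, h⟩ := afw D E (N * Nat.card R) N ((N : ℝ) - k) C (by positivity)
  refine ⟨2 ^ M * U, by positivity, fun L Fr hE T Y hT hTY => ?_⟩
  have hwh0 : ∀ v x, 0 ≤ wh w s T (fun v => φ (Fr.F v)) v x := by
    intro v x
    unfold wh
    refine mul_nonneg (hw0 _ _) ?_
    split_ifs <;> norm_num
  have hwhs : ∀ v : Pl K, ∑ x, wh w s T (fun v => φ (Fr.F v)) v x =
      ∑ x, w x (φ (Fr.F v)) - if T < (nm v : ℝ) ∧ φ (Fr.F v) = 1 then w s 1 / 2 else 0 := by
    intro v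
    unfold wh
    rw [eq_sub_iff_add_eq]
    have h1 : (if T < (nm v : ℝ) ∧ φ (Fr.F v) = 1 then w s 1 / 2 else 0) =
        ∑ x, if x = s then (if T < (nm v : ℝ) ∧ φ (Fr.F v) = 1 then w s 1 / 2 else 0) else 0 := by
      rw [Finset.sum_ite_eq', if_pos (Finset.mem_univ _)]
    rw [h1, ← Finset.sum_add_distrib]
    refine Finset.sum_congr rfl fun x _ => ?_
    beta_reduce
    by_cases h2 : x = s
    · subst h2
      by_cases h3 : T < (nm v : ℝ) ∧ φ (Fr.F v) = 1
      · rw [if_pos ⟨rfl, h3⟩, if_pos rfl, if_pos h3, h3.2]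
        ring
      · rw [if_neg fun h => h3 h.2, if_pos rfl, if_neg h3]
        ring
    · rw [if_neg fun h => h2 h.1, if_neg h2]
      ring
  have h1 : ∑ f ∈ (Cy D Λ Y E).filter (fun f => ((pl (ZZ D Y \ E) f s).filter
          fun v => T < (nm v : ℝ) ∧ φ (Fr.F v) = 1).card ≤ M),
        om (ZZ D Y \ E) (fun v x => w x (φ (Fr.F v))) f ≤
      2 ^ M * ∑ f ∈ Cy D Λ Y E, om (ZZ D Y \ E) (wh w s T fun v => φ (Fr.F v)) f := by
    rw [Finset.mul_sum]
    refine le_trans (Finset.sum_le_sum fun f hf => ?_) (Finset.sum_le_sum_of_subset_of_nonneg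
      (Finset.filter_subset _ _) fun f _ _ => mul_nonneg (by positivity) (om_nn _ _ hwh0 _))
    exact wh_om w hw0 s T (fun v => φ (Fr.F v)) _ M f (Finset.mem_filter.1 hf).2
  refine h1.trans ?_
  rw [cy_af, mul_assoc]
  refine mul_le_mul_of_nonneg_left ?_ (by positivity)
  refine (h (fun v => if D.Gd v ∧ v ∉ E then ∑ x, wh w s T (fun v => φ (Fr.F v)) v x else 0)
    (fun v => ∑ j, fx (S j) (π (φ (Fr.F v))))
    (fun v => ∑ j, fx (S j) (π (φ (Fr.F v))) + (-k) * fx ⊥ (φ (Fr.F v)))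
    T Y ?_ ?_ ?_ ?_ ?_ ?_ hT hTY).trans (le_of_eq ?_)
  · intro v
    beta_reduce
    split_ifs with hv
    · refine ⟨Finset.sum_nonneg fun x _ => hwh0 v x, ?_⟩
      rw [hwhs]
      have h2 : (0 : ℝ) ≤ if T < (nm v : ℝ) ∧ φ (Fr.F v) = 1 then w s 1 / 2 else 0 := by
        split_ifs
        · exact div_nonneg (hw0 _ _) (by norm_num)
        · exact le_rfl
      have h3 := hw (φ (Fr.F v))
      have h4 : ∑ j, fx (S j) (π (φ (Fr.F v))) ≤ N * Nat.card R := by
        refine (Finset.sum_le_sum fun j _ => fx_le (S j) _).trans (le_of_eq ?_)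
        rw [Finset.sum_const, Finset.card_univ, Fintype.card_fin, nsmul_eq_mul]
      linarith
    · exact ⟨le_rfl, by positivity⟩
  · intro v hv
    beta_reduce
    rw [if_neg hv]
  · intro v hv hvE hvT
    beta_reduce
    rw [if_pos ⟨hv, hvE⟩, hwhs, if_neg fun h => not_lt.2 hvT h.1, sub_zero]
    exact hw _
  · intro v hv hvE hvT
    beta_reduce
    rw [if_pos ⟨hv, hvE⟩, hwhs, fx_bot]
    have h3 := hw (φ (Fr.F v))
    by_cases h2 : φ (Fr.F v) = 1
    · rw [if_pos ⟨hvT, h2⟩, if_pos h2]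
      have h4 : k * Fintype.card G = w s 1 / 2 := by
        rw [hk]
        field_simp
      linarith
    · rw [if_neg fun h => h2 h.2, if_neg h2]
      linarith
  · have h2 := Mtw.sum (Finset.univ : Finset (Fin N)) fun j _ => hCf j L Fr (hE.comp π)
    rw [Finset.sum_const, Finset.card_univ, Fintype.card_fin, nsmul_eq_mul, mul_one] at h2
    refine Mtw.mono (h2.congr fun v _ _ => rfl) ?_
    rw [hC]
    have h3 := le_abs_self (∑ j, Cf j)
    have h4 : 0 ≤ k * |C₁| := by positivity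
    linarith
  · have h2 := Mtw.sum (Finset.univ : Finset (Fin N)) fun j _ => hCf j L Fr (hE.comp π)
    rw [Finset.sum_const, Finset.card_univ, Fintype.card_fin, nsmul_eq_mul, mul_one] at h2
    have h3 := h2.add ((hC₁ L Fr hE).smul (-k))
    rw [mul_one, abs_neg, abs_of_nonneg hk0, ← sub_eq_add_neg] at h3
    refine Mtw.mono (h3.congr fun v _ _ => rfl) ?_
    rw [hC]
    have h4 := le_abs_self (∑ j, Cf j)
    have h5 := mul_le_mul_of_nonneg_left (le_abs_self C₁) hk0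
    linarith
  · have hlT : 0 < Real.log T := Real.log_pos (by linarith)
    have hlY : 0 < Real.log Y := Real.log_pos (by linarith)
    congr 1
    rw [← hk, Real.div_rpow hlY.le hlT.le, Real.div_rpow hlT.le hlY.le]
    have e1 : Real.log T ^ (N : ℝ) = Real.log T ^ k * Real.log T ^ ((N : ℝ) - k) := by
      rw [← Real.rpow_add hlT]
      congr 1
      ring
    have e2 : Real.log Y ^ ((N : ℝ) - k) =
        Real.log Y ^ ((N : ℝ) - 1) * (Real.log Y / Real.log Y ^ k) := by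
      rw [eq_comm, ← mul_div_assoc, div_eq_iff (Real.rpow_pos_of_pos hlY _).ne',
        ← Real.rpow_add_one hlY.ne', ← Real.rpow_add hlY]
      congr 1
      ring
    have h1 : 0 < Real.log Y ^ k := Real.rpow_pos_of_pos hlY _
    have h2 : 0 < Real.log T ^ ((N : ℝ) - k) := Real.rpow_pos_of_pos hlT _
    rw [e1, e2]
    field_simp

/-- THE CONFIGURATIONS WITH FEW LARGE SPLIT PRIMES WITH THE LABEL `s` ARE NEGLIGIBLE -/
theorem d5 (hp : p.Prime) (hp2 : MOne p K) (hζ : IsPrimitiveRoot ζ p) (D : RD0 K p ζ)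
    {G R : Type} [Group G] [Fintype G] [Group R] [Finite R] (hG : IsPGroup p G)
    (hR : IsPGroup p R) (φ : Gal(Ω/K) →* G) (hφ : H38.ML.FT φ) (hs : Function.Surjective φ)
    (π : G →* R) (hπ : Function.Surjective π) (S : Fin N → Subgroup R) (E : Finset (Pl K))
    {Λ : Type} [Fintype Λ] (w : Λ → G → ℝ) (hw0 : ∀ x g, 0 ≤ w x g)
    (hw : ∀ g, ∑ x, w x g ≤ ∑ j, fx (S j) (π g)) (s : Λ) (hws : 0 < w s 1) (M : ℕ)
    (ε : ℝ) (hε : 0 < ε) (hε1 : ε < 1) (δ : ℝ) (hδ : 0 < δ) :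
    ∃ Y₀ : ℝ, ∀ Y : ℝ, Y₀ ≤ Y → ∀ (L : LDs D Ω) (Fr : FR L), Unz L E φ →
      ∑ f ∈ (Cy D Λ Y E).filter (fun f => ((pl (ZZ D Y \ E) f s).filter
          fun v => Real.exp (Real.log Y ^ ε) < (nm v : ℝ) ∧ φ (Fr.F v) = 1).card ≤ M),
        om (ZZ D Y \ E) (fun v x => w x (φ (Fr.F v))) f ≤
        δ * (Y * Real.log Y ^ (N - 1)) := by
  obtain ⟨U₀, hU₀, h₂⟩ := low5 (Ω := Ω) hp hp2 hζ D hG hR φ hφ hs π hπ S E w hw0 hw s M
  obtain ⟨k, hk⟩ : ∃ k : ℝ, k = w s 1 / (2 * Fintype.card G) := ⟨_, rfl⟩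
  have hcG : (0 : ℝ) < Fintype.card G := Nat.cast_pos.2 Fintype.card_pos
  have hk0 : 0 < k := by
    rw [hk]
    positivity
  rw [← hk] at h₂
  have hN1 : 1 ≤ N := by
    by_contra hN
    have hN0 : N = 0 := by omega
    subst hN0
    have h1 : ∑ x, w x 1 ≤ 0 := (hw 1).trans (le_of_eq (by simp))
    have h2 := Finset.single_le_sum (f := fun x => w x 1) (fun x _ => hw0 x 1)
      (Finset.mem_univ s)
    linarith
  have hL : Tendsto (fun Y : ℝ => Real.log Y) atTop atTop := Real.tendsto_log_atTop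
  have hLε : Tendsto (fun Y : ℝ => Real.log Y ^ ε) atTop atTop :=
    (tendsto_rpow_atTop hε).comp Real.tendsto_log_atTop
  have hze : Tendsto (fun Y : ℝ => U₀ * Real.log Y ^ (-((1 - ε) * k))) atTop (𝓝 0) := by
    have h1 : 0 < (1 - ε) * k := mul_pos (by linarith) hk0
    have := ((tendsto_rpow_neg_atTop h1).comp Real.tendsto_log_atTop).const_mul U₀
    simpa using this
  obtain ⟨Y₀, hY₀⟩ := eventually_atTop.1 ((eventually_ge_atTop (3 : ℝ)).and
    ((hLε.eventually_ge_atTop 2).and (hze.eventually_le_const hδ)))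
  refine ⟨Y₀, fun Y hY L Fr hE => ?_⟩
  obtain ⟨g2, g5, g6⟩ := hY₀ Y hY
  obtain ⟨T, hT⟩ : ∃ T : ℝ, T = Real.exp (Real.log Y ^ ε) := ⟨_, rfl⟩
  have hY0 : 0 < Y := by linarith
  have hL1 : 1 < Real.log Y := by
    rw [Real.lt_log_iff_exp_lt hY0]
    linarith [Real.exp_one_lt_d9]
  have hT3 : 3 ≤ T := by
    rw [hT]
    have h1 := Real.add_one_le_exp (Real.log Y ^ ε)
    linarith
  have hTY : T ≤ Y := by
    rw [hT, ← Real.exp_log hY0, Real.exp_le_exp, Real.log_exp]
    calc Real.log Y ^ ε ≤ Real.log Y ^ (1 : ℝ) :=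
          Real.rpow_le_rpow_of_exponent_le hL1.le hε1.le
      _ = Real.log Y := Real.rpow_one _
  have hlT : Real.log T = Real.log Y ^ ε := by rw [hT, Real.log_exp]
  have e2 := h₂ L Fr hE T Y hT3 hTY
  have e3 : (Real.log T / Real.log Y) ^ k = Real.log Y ^ (-((1 - ε) * k)) := by
    have h1 : Real.log T / Real.log Y = Real.log Y ^ (-(1 - ε)) := by
      rw [hlT, div_eq_iff (by linarith), ← Real.rpow_add_one (by linarith)]
      congr 1
      ring
    rw [h1, ← Real.rpow_mul (by linarith)]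
    congr 1
    ring
  have e4 : Real.log Y ^ ((N : ℝ) - 1) = Real.log Y ^ (N - 1) := by
    rw [← Real.rpow_natCast _ (N - 1), Nat.cast_sub hN1, Nat.cast_one]
  rw [e3, e4] at e2
  rw [← hT]
  refine e2.trans ?_
  calc U₀ * (Y * Real.log Y ^ (N - 1) * Real.log Y ^ (-((1 - ε) * k))) =
        U₀ * Real.log Y ^ (-((1 - ε) * k)) * (Y * Real.log Y ^ (N - 1)) := by ring
    _ ≤ _ := mul_le_mul_of_nonneg_right g6 (by positivity)

end d5

end H38.S3

end

end Lowz_
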