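import Pool.Agent.H62.BL.Sma
import Pool.Agent.H62.BL.Gb
import Pool.Agent.H12.S3.Defs
import Pool.Agent.H1.UX.Lim
import Pool.Agent.H1.UX.Ubu
import Pool.Agent.H1.UX.Hfx
import Pool.Agent.H38.S3.Lowz

/-!
# H38-S3-DSX (with GPY, ALT, LOWY, SBX): MP_b39724_nt, stage 3, chapter D
-/

section Gpy_

/-!
# H38-S3-GPY: sums over configurations of products of arbitrary functions at good places (MP_b39724_nt, stage 3, chapter D, D4)

As `gpx` for arbitrary functions `u j` (not class functions) at places with `GLp` (the conclusion of `glU`): in the sum over the rich configurations of `∏ u (cf f v) (φ F_v)` the factors of the large primes can be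
replaced by the means, up to `Y (log Y) ^ (-A)`.
-/

set_option autoImplicit false

open scoped NumberField
open IsDedekindDomain
open scoped Classical

noncomputable section

namespace H38.S3

open H63.MA H38.BB H38.BG H57.PC H57.BRA H77.WD H77.WE H77.GL H57.AN H35.CF H35.UB H93.UB H86.AP
  H55.E2 H62.BL

variable {K : Type} [Field K] [NumberField K] {Ω : Type} [Field Ω] [Algebra K Ω]
  {p : ℕ} {ζ : K} {N : ℕ}

section avs

variable {Γ G : Type} [Group Γ] [Group G] [Fintype G]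

theorem av_onto (φ : Γ →* G) (hs : Function.Surjective φ) (h : G → ℂ) (y : G) :
    av φ h y = (Fintype.card G : ℂ)⁻¹ * ∑ g : G, h (g * y * g⁻¹) :=
  av_fac φ φ hs (MonoidHom.id G) rfl h y

theorem mnf_av (φ : Γ →* G) (hs : Function.Surjective φ) (h : G → ℂ) : mnf (av φ h) = mnf h := by
  unfold mnf
  congr 1
  simp_rw [av_onto φ hs]
  rw [← Finset.mul_sum, Finset.sum_comm]
  have h1 : ∀ g : G, ∑ y : G, h (g * y * g⁻¹) = ∑ y : G, h y := by
    intro g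
    exact Fintype.sum_equiv (MulAut.conj g).toEquiv _ _ fun y => rfl
  rw [Finset.sum_congr rfl fun g _ => h1 g, Finset.sum_const, Finset.card_univ, nsmul_eq_mul,
    ← mul_assoc, inv_mul_cancel₀ (Nat.cast_ne_zero.2 Fintype.card_ne_zero), one_mul]

theorem av_leb (φ : Γ →* G) (hs : Function.Surjective φ) (h : G → ℂ) (b : ℝ)
    (hb : ∀ g, ‖h g‖ ≤ b) (y : G) : ‖av φ h y‖ ≤ b := by
  rw [av_onto φ hs]
  exact mnf_le fun g => hb _

theorem av_cl (φ : Γ →* G) (hs : Function.Surjective φ) (h : G → ℂ) (y z : G) :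
    av φ h (z * y * z⁻¹) = av φ h y := by
  obtain ⟨σ, rfl⟩ := hs z
  exact av_conj φ h y σ

end avs

/-- one inner sum -/
theorem gls {D : RD0 K p ζ} {L : LDs D Ω} (Fr : FR L) {G : Type} [Group G] [Fintype G]
    (hG : IsPGroup p G) (φ : Gal(Ω/K) →* G) (hs : Function.Surjective φ) (u : G → ℂ) (b : ℕ)
    (hb : 1 ≤ b) (hu : ∀ g, ‖u g‖ ≤ b) (M₁ C C' : ℕ) (T X Y : ℝ) (m : Finset (Pl K))
    (hgl : GLp p Fr M₁ C C' Y) (hM : Fintype.card G ≤ M₁) (hU : Unz L m φ)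
    (hm : nr m ≤ Y ^ C) (hX0 : 0 ≤ X) (hX : X ≤ Y ^ C) :
    ‖∑ w ∈ (gdY D X).filter (fun w => T < (nm w : ℝ) ∧ w ∉ m), (u (φ (Fr.F w)) - mnf u)‖ ≤
      b * (C' * X ^ (3 / 4 : ℝ) + Real.log Y ^ C') +
      (|ing D T X m (cvg Fr φ fun g => (av φ u g).re)| +
        |ing D T X m (cvg Fr φ fun g => (av φ u g).im)|) := by
  have hb0 : (0 : ℝ) < b := by exact_mod_cast hb
  have hset : (gdY D X).filter (fun w => T < (nm w : ℝ) ∧ w ∉ m) =
      (PI K T X true).filter (fun w => w ∉ D.S0 ∧ w ∉ m) := by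
    ext w
    rw [Finset.mem_filter, Finset.mem_filter, PI, Finset.mem_filter, chr_mem, mem_PB]
    constructor
    · rintro ⟨⟨h1, h2, h3⟩, h4, h5⟩
      exact ⟨⟨h1, h4, fun _ => h3⟩, h2, h5⟩
    · rintro ⟨⟨h1, h4, h3⟩, h2, h5⟩
      exact ⟨⟨h1, h2, h3 rfl⟩, h4, h5⟩
  have h1 : ∑ w ∈ (gdY D X).filter (fun w => T < (nm w : ℝ) ∧ w ∉ m), (u (φ (Fr.F w)) - mnf u) =
      ∑ w ∈ (gdY D X).filter (fun w => T < (nm w : ℝ) ∧ w ∉ m),
        (u (φ (Fr.F w)) - av φ u (φ (Fr.F w))) +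
      ∑ w ∈ (gdY D X).filter (fun w => T < (nm w : ℝ) ∧ w ∉ m),
        (av φ u (φ (Fr.F w)) - mnf (av φ u)) := by
    rw [← Finset.sum_add_distrib]
    refine Finset.sum_congr rfl fun w _ => ?_
    rw [mnf_av φ hs]
    ring
  rw [h1]
  refine (norm_add_le _ _).trans (add_le_add ?_ ?_)
  · rw [hset]
    have h2 := hgl G hG (by rw [Nat.card_eq_fintype_card]; exact hM) φ m hU hm
      (fun g => (b : ℂ)⁻¹ * u g) (fun g => by
        rw [norm_mul, norm_inv, Complex.norm_natCast, inv_mul_le_iff₀ hb0, mul_one]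
        exact hu g) T X true hX0 hX
    have h3 : ∑ w ∈ (PI K T X true).filter (fun w => w ∉ D.S0 ∧ w ∉ m),
        (u (φ (Fr.F w)) - av φ u (φ (Fr.F w))) = (b : ℂ) *
        ∑ w ∈ (PI K T X true).filter (fun w => w ∉ D.S0 ∧ w ∉ m),
        ((b : ℂ)⁻¹ * u (φ (Fr.F w)) - av φ (fun g => (b : ℂ)⁻¹ * u g) (φ (Fr.F w))) := by
      rw [Finset.mul_sum]
      refine Finset.sum_congr rfl fun w _ => ?_
      have h4 : av φ (fun g => (b : ℂ)⁻¹ * u g) (φ (Fr.F w)) =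
          (b : ℂ)⁻¹ * av φ u (φ (Fr.F w)) := by
        unfold av
        rw [← Finset.mul_sum]
        ring
      rw [h4, ← mul_sub, ← mul_assoc, mul_inv_cancel₀ (by exact_mod_cast hb0.ne'), one_mul]
    rw [h3, norm_mul, Complex.norm_natCast]
    exact mul_le_mul_of_nonneg_left h2 hb0.le
  · refine (Complex.norm_le_abs_re_add_abs_im _).trans (le_of_eq ?_)
    unfold ing cvg
    rw [Complex.re_sum, Complex.im_sum]
    congr 2
    · refine Finset.sum_congr rfl fun w _ => ?_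
      unfold mnf
      have h1 : ((Fintype.card G : ℂ)⁻¹ * ∑ g, av φ u g) =
          (((Fintype.card G : ℝ)⁻¹ : ℝ) : ℂ) * ∑ g, av φ u g := by
        push_cast
        rfl
      rw [Complex.sub_re, h1, Complex.re_ofReal_mul, Complex.re_sum]
    · refine Finset.sum_congr rfl fun w _ => ?_
      unfold mnf
      have h1 : ((Fintype.card G : ℂ)⁻¹ * ∑ g, av φ u g) =
          (((Fintype.card G : ℝ)⁻¹ : ℝ) : ℂ) * ∑ g, av φ u g := by
        push_cast
        rfl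
      rw [Complex.sub_im, h1, Complex.im_ofReal_mul, Complex.im_sum]

/-- the inner sums of `clc` -/
theorem inne {D : RD0 K p ζ} {L : LDs D Ω} (Fr : FR L) {G : Type} [Group G] [Fintype G]
    (φ : Gal(Ω/K) →* G) (U : Fin N → G → ℂ) (M : ℕ) (T Y : ℝ) (E : Finset (Pl K))
    (c : Pl K → Option (Fin N × Bool)) (x : Fin N) :
    ‖∑ w ∈ (ZZ D Y \ E).filter (fun v => T < (nm v : ℝ) ∧ c v = none),
      (if Rich M T (ZZ D Y \ E) (mp Prod.fst (Function.update c w (some (x, true)))) ∧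
        nr (sp (ZZ D Y \ E) (mp Prod.fst (Function.update c w (some (x, true))))) ≤ Y then
        (1 : ℂ) else 0) * (U x (φ (Fr.F w)) - mw Fr φ U T w x)‖ ≤
    if nr (sp (ZZ D Y \ E) c) * T ≤ Y then
      ‖∑ w ∈ (gdY D (Y / nr (sp (ZZ D Y \ E) c))).filter
        (fun w => T < (nm w : ℝ) ∧ w ∉ sp (ZZ D Y \ E) c ∪ E), (U x (φ (Fr.F w)) - mnf (U x))‖
      else 0 := by
  obtain ⟨Z, hZd⟩ : ∃ Z, Z = ZZ D Y \ E := ⟨_, rfl⟩
  have hnr : 0 < nr (sp Z c) := lt_of_lt_of_le one_pos (one_le_nr _)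
  rw [← hZd]
  have hsum : ∑ w ∈ Z.filter (fun v => T < (nm v : ℝ) ∧ c v = none),
      (if Rich M T Z (mp Prod.fst (Function.update c w (some (x, true)))) ∧
        nr (sp Z (mp Prod.fst (Function.update c w (some (x, true))))) ≤ Y then
        (1 : ℂ) else 0) * (U x (φ (Fr.F w)) - mw Fr φ U T w x) =
      if (∀ j, M ≤ ((pl Z (mp Prod.fst c) j).filter fun v => T < (nm v : ℝ)).card +
        if j = x then 1 else 0) then
        ∑ w ∈ (Z.filter (fun v => T < (nm v : ℝ) ∧ c v = none)).filter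
          (fun w => nr (sp Z c) * (nm w : ℝ) ≤ Y), (U x (φ (Fr.F w)) - mnf (U x)) else 0 := by
    have h1 : ∀ w ∈ Z.filter (fun v => T < (nm v : ℝ) ∧ c v = none),
        (if Rich M T Z (mp Prod.fst (Function.update c w (some (x, true)))) ∧
          nr (sp Z (mp Prod.fst (Function.update c w (some (x, true))))) ≤ Y then
          (1 : ℂ) else 0) * (U x (φ (Fr.F w)) - mw Fr φ U T w x) =
        if (∀ j, M ≤ ((pl Z (mp Prod.fst c) j).filter fun v => T < (nm v : ℝ)).card +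
          if j = x then 1 else 0) ∧ nr (sp Z c) * (nm w : ℝ) ≤ Y then
          (U x (φ (Fr.F w)) - mnf (U x)) else 0 := by
      intro w hw
      obtain ⟨hwZ, hwT, hfw⟩ := Finset.mem_filter.1 hw
      rw [rich_upd M T Z c w x hwZ hwT hfw, sp_fst, nr_updx Z c w _ hwZ hfw]
      have h2 : mw Fr φ U T w x = mnf (U x) := by
        unfold mw
        rw [if_pos hwT]
      rw [h2]
      split_ifs <;> simp
    rw [Finset.sum_congr rfl h1]
    split_ifs with h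
    · rw [Finset.sum_filter (fun w => nr (sp Z c) * (nm w : ℝ) ≤ Y)]
      refine Finset.sum_congr rfl fun w _ => ?_
      by_cases h3 : nr (sp Z c) * (nm w : ℝ) ≤ Y
      · rw [if_pos ⟨h, h3⟩, if_pos h3]
      · rw [if_neg (fun h' => h3 h'.2), if_neg h3]
    · refine Finset.sum_eq_zero fun w _ => ?_
      rw [if_neg (fun h' => h h'.1)]
  rw [hsum]
  have hpos : (0 : ℝ) ≤ if nr (sp Z c) * T ≤ Y then
      ‖∑ w ∈ (gdY D (Y / nr (sp Z c))).filter
        (fun w => T < (nm w : ℝ) ∧ w ∉ sp Z c ∪ E), (U x (φ (Fr.F w)) - mnf (U x))‖ else 0 := by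
    split_ifs
    · exact norm_nonneg _
    · exact le_rfl
  by_cases hcond : (∀ j, M ≤ ((pl Z (mp Prod.fst c) j).filter fun v => T < (nm v : ℝ)).card +
        if j = x then 1 else 0)
  · rw [if_pos hcond]
    by_cases hT : nr (sp Z c) * T ≤ Y
    · rw [if_pos hT]
      have hset : (Z.filter (fun v => T < (nm v : ℝ) ∧ c v = none)).filter
          (fun w => nr (sp Z c) * (nm w : ℝ) ≤ Y) =
          (gdY D (Y / nr (sp Z c))).filter (fun w => T < (nm w : ℝ) ∧ w ∉ sp Z c ∪ E) := by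
        ext w
        rw [Finset.mem_filter, Finset.mem_filter, Finset.mem_filter, chr_mem, le_div_iff₀ hnr,
          mul_comm (nm w : ℝ), hZd]
        constructor
        · rintro ⟨⟨h1, h2, h3⟩, h4⟩
          rw [Finset.mem_sdiff, mem_zz] at h1
          refine ⟨⟨h4, h1.1.2⟩, h2, ?_⟩
          rw [Finset.mem_union, not_or]
          exact ⟨fun h => (mem_sp.1 h).2 h3, h1.2⟩
        · rintro ⟨⟨h4, hG⟩, h2, h5⟩
          rw [Finset.mem_union, not_or] at h5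
          have hnm : (nm w : ℝ) ≤ Y := by
            refine le_trans ?_ h4
            exact le_mul_of_one_le_left (Nat.cast_nonneg _) (one_le_nr _)
          have h1 : w ∈ ZZ D Y \ E := by
            rw [Finset.mem_sdiff, mem_zz]
            exact ⟨⟨hnm, hG⟩, h5.2⟩
          refine ⟨⟨h1, h2, ?_⟩, h4⟩
          by_contra h6
          exact h5.1 (mem_sp.2 ⟨h1, h6⟩)
      rw [hset]
    · rw [if_neg hT]
      have h1 : (Z.filter (fun v => T < (nm v : ℝ) ∧ c v = none)).filter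
          (fun w => nr (sp Z c) * (nm w : ℝ) ≤ Y) = ∅ := by
        rw [Finset.filter_eq_empty_iff]
        intro w hw h2
        have h3 := (Finset.mem_filter.1 hw).2.1
        have h4 : nr (sp Z c) * T ≤ nr (sp Z c) * (nm w : ℝ) :=
          mul_le_mul_of_nonneg_left (le_of_lt h3) hnr.le
        exact hT (h4.trans h2)
      rw [h1, Finset.sum_empty, norm_zero]
  · rw [if_neg hcond, norm_zero]
    exact hpos

/-- the sum of the errors of `GLp` -/
theorem gly (D : RD0 K p ζ) (N b K₀ C' A : ℕ) (ε : ℝ) (hε : 0 < ε) : ∃ Y₀ : ℝ, ∀ Y : ℝ,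
    Y₀ ≤ Y → ∀ E : Finset (Pl K),
    ∑ _x : Fin N, ∑ c ∈ Cf (ZZ D Y \ E) (Fin N × Bool),
      (if nr (sp (ZZ D Y \ E) c) * Real.exp (Real.log Y ^ ε) ≤ Y then
        (K₀ : ℝ) ^ (sp (ZZ D Y \ E) c).card *
        (b * (C' * (Y / nr (sp (ZZ D Y \ E) c)) ^ (3 / 4 : ℝ) + Real.log Y ^ C')) else 0) ≤
      Y * Real.log Y ^ (-(A : ℝ)) := by
  obtain ⟨k, hk⟩ : ∃ k : ℕ, k = 2 * N * K₀ := ⟨_, rfl⟩
  obtain ⟨C₁, hC₁, hr⟩ := rkn K k
  obtain ⟨Y₀, hY₀⟩ := Filter.eventually_atTop.1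
    (((ev_exp (N * b * (C' + 1) * C₁) ((C' + k + A : ℕ) : ℝ) ε (1 / 4) hε (by norm_num))).and
      (Filter.eventually_ge_atTop (3 : ℝ)))
  refine ⟨Y₀, fun Y hY E => ?_⟩
  obtain ⟨f1, hY3⟩ := hY₀ Y hY
  obtain ⟨T, hT⟩ : ∃ T : ℝ, T = Real.exp (Real.log Y ^ ε) := ⟨_, rfl⟩
  obtain ⟨Z, hZd⟩ : ∃ Z, Z = ZZ D Y \ E := ⟨_, rfl⟩
  obtain ⟨l, hl⟩ : ∃ l : ℝ, l = Real.log Y := ⟨_, rfl⟩
  have hY0 : 0 < Y := by linarith
  rw [← hT, ← hZd, ← hl]
  rw [← hl] at f1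
  have hl1 : 1 ≤ l := by
    rw [hl, Real.le_log_iff_exp_le hY0]
    linarith [Real.exp_one_lt_d9]
  have hl0 : 0 < l := by linarith
  have hT1 : 1 ≤ T := by
    rw [hT, ← hl]
    exact Real.one_le_exp (Real.rpow_nonneg hl0.le _)
  have hT0 : 0 < T := by linarith
  have hTq : 0 < T ^ (-(1 / 4) : ℝ) := Real.rpow_pos_of_pos hT0 _
  have hnr0 : ∀ m : Finset (Pl K), 0 < nr m := fun m => lt_of_lt_of_le one_pos (one_le_nr m)
  have hone : ∀ c ∈ Cf Z (Fin N × Bool), (if nr (sp Z c) * T ≤ Y then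
        (K₀ : ℝ) ^ (sp Z c).card *
        (b * (C' * (Y / nr (sp Z c)) ^ (3 / 4 : ℝ) + l ^ C')) else 0) ≤
      b * (C' + 1) * l ^ C' * T ^ (-(1 / 4) : ℝ) * Y *
        ((1 / nr (sp Z c)) * om Z (fun _ _ => (K₀ : ℝ)) c) := by
    intro c _
    have e0 : om Z (fun _ _ => (K₀ : ℝ)) c = (K₀ : ℝ) ^ (sp Z c).card := by
      rw [om_sp, ← Finset.prod_const]
      refine Finset.prod_congr rfl fun v hv => ?_
      rw [mem_sp] at hv
      cases h : c v with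
      | none => exact absurd h hv.2
      | some x => rfl
    rw [e0]
    split_ifs with h
    · obtain ⟨X, hX⟩ : ∃ X : ℝ, X = Y / nr (sp Z c) := ⟨_, rfl⟩
      have hXT : T ≤ X := by
        rw [hX, le_div_iff₀ (hnr0 _), mul_comm]
        exact h
      have hX0 : 0 < X := by linarith
      have e1 : X ^ (3 / 4 : ℝ) ≤ X * T ^ (-(1 / 4) : ℝ) := by
        have e2 : X ^ (3 / 4 : ℝ) = X * X ^ (-(1 / 4) : ℝ) := by
          rw [show (3 / 4 : ℝ) = -(1 / 4) + 1 by norm_num, Real.rpow_add_one hX0.ne', mul_comm]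
        rw [e2]
        exact mul_le_mul_of_nonneg_left
          (Real.rpow_le_rpow_of_nonpos hT0 hXT (by norm_num)) hX0.le
      have e3 : 1 ≤ X * T ^ (-(1 / 4) : ℝ) := by
        have e4 : 1 ≤ X ^ (3 / 4 : ℝ) := Real.one_le_rpow (by linarith) (by norm_num)
        linarith
      have e5 : 1 ≤ l ^ C' := one_le_pow₀ hl1
      have e6 : C' * X ^ (3 / 4 : ℝ) + l ^ C' ≤
          (C' + 1) * l ^ C' * (X * T ^ (-(1 / 4) : ℝ)) := by
        have e7 : (C' : ℝ) * X ^ (3 / 4 : ℝ) ≤ C' * (l ^ C' * (X * T ^ (-(1 / 4) : ℝ))) := by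
          refine mul_le_mul_of_nonneg_left (e1.trans ?_) (Nat.cast_nonneg _)
          exact le_mul_of_one_le_left (by linarith) e5
        have e8 : l ^ C' ≤ l ^ C' * (X * T ^ (-(1 / 4) : ℝ)) :=
          le_mul_of_one_le_right (by positivity) e3
        linarith
      rw [← hX]
      calc (K₀ : ℝ) ^ (sp Z c).card * (b * (C' * X ^ (3 / 4 : ℝ) + l ^ C')) ≤
            (K₀ : ℝ) ^ (sp Z c).card * (b * ((C' + 1) * l ^ C' * (X * T ^ (-(1 / 4) : ℝ)))) :=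
            mul_le_mul_of_nonneg_left (mul_le_mul_of_nonneg_left e6 (Nat.cast_nonneg _))
              (by positivity)
        _ = _ := by
          rw [hX]
          ring
    · have := (hnr0 (sp Z c)).le
      positivity
  have hsum : ∑ c ∈ Cf Z (Fin N × Bool), (1 / nr (sp Z c)) * om Z (fun _ _ => (K₀ : ℝ)) c ≤
      C₁ * l ^ k := by
    rw [cf_prod Z (fun s => 1 / nr s) (fun _ _ => (K₀ : ℝ)), hl]
    refine le_trans ?_ (hr p ζ D Y hY3)
    have h1 : ∀ s ∈ Z.powerset, 1 / nr s * ∏ _v ∈ s, ∑ _x : Fin N × Bool, (K₀ : ℝ) =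
        (k : ℝ) ^ s.card / nr s := by
      intro s _
      rw [Finset.prod_const, Finset.sum_const, Finset.card_univ, Fintype.card_prod,
        Fintype.card_fin, Fintype.card_bool, nsmul_eq_mul, hk]
      push_cast
      ring
    rw [Finset.sum_congr rfl h1]
    refine Finset.sum_le_sum_of_subset_of_nonneg ?_ fun s _ _ => by
      have := (hnr0 s).le
      positivity
    rw [Finset.powerset_mono, hZd]
    intro v hv
    rw [Finset.mem_sdiff, mem_zz] at hv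
    rw [chr_mem]
    exact hv.1
  rw [Finset.sum_const, Finset.card_univ, Fintype.card_fin, nsmul_eq_mul]
  have h2 := Finset.sum_le_sum hone
  rw [← Finset.mul_sum] at h2
  have h3 : (N : ℝ) * b * (C' + 1) * C₁ * l ^ ((C' + k + A : ℕ) : ℝ) ≤ T ^ (1 / 4 : ℝ) := by
    rw [hT, ← Real.exp_mul, mul_comm (Real.log Y ^ ε), ← hl]
    exact f1
  calc (N : ℝ) * _ ≤ N * (b * (C' + 1) * l ^ C' * T ^ (-(1 / 4) : ℝ) * Y * (C₁ * l ^ k)) := by
        refine mul_le_mul_of_nonneg_left (h2.trans ?_) (Nat.cast_nonneg _)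
        exact mul_le_mul_of_nonneg_left hsum (by positivity)
    _ = Y * (((N : ℝ) * b * (C' + 1) * C₁ * l ^ ((C' + k + A : ℕ) : ℝ)) *
        T ^ (-(1 / 4) : ℝ) * l ^ (-(A : ℝ))) := by
        have h4 : l ^ ((C' + k + A : ℕ) : ℝ) = l ^ C' * l ^ k * l ^ A := by
          rw [Real.rpow_natCast, pow_add, pow_add]
        have h5 : l ^ A * l ^ (-(A : ℝ)) = 1 := by
          rw [← Real.rpow_natCast l A, ← Real.rpow_add hl0, add_neg_cancel, Real.rpow_zero]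
        rw [h4]
        calc _ = Y * (N * b * (C' + 1) * C₁ * (l ^ C' * l ^ k) * T ^ (-(1 / 4) : ℝ)) * 1 := by
              ring
          _ = Y * (N * b * (C' + 1) * C₁ * (l ^ C' * l ^ k) * T ^ (-(1 / 4) : ℝ)) *
              (l ^ A * l ^ (-(A : ℝ))) := by rw [h5]
          _ = _ := by ring
    _ ≤ Y * (T ^ (1 / 4 : ℝ) * T ^ (-(1 / 4) : ℝ) * l ^ (-(A : ℝ))) := by
        have h6 : 0 ≤ l ^ (-(A : ℝ)) := Real.rpow_nonneg hl0.le _
        exact mul_le_mul_of_nonneg_left (mul_le_mul_of_nonneg_right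
          (mul_le_mul_of_nonneg_right h3 hTq.le) h6) hY0.le
    _ = Y * l ^ (-(A : ℝ)) := by
        rw [← Real.rpow_add hT0, add_neg_cancel, Real.rpow_zero, one_mul]

/-- THE LARGE PRIMES CAN BE REPLACED BY MEANS, arbitrary functions, good places -/
theorem gpy (D : RD0 K p ζ) (κ : ℕ) (hG : GPU D Ω κ) (N b A₁ A M₁ C C' : ℕ) (hC : 1 ≤ C)
    (hM₁ : b ≤ M₁) (ε : ℝ) (hε : 0 < ε) (hε1 : ε ≤ 1) :
    ∃ Y₀ : ℝ, ∀ Y : ℝ, Y₀ ≤ Y → ∀ (L : LDs D Ω) (Fr : FR L), GLp p Fr M₁ C C' Y →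
      ∀ E : Finset (Pl K), nr E ≤ Real.log Y ^ A₁ →
      ∀ (G : Type) [Group G] [Fintype G] (φ : Gal(Ω/K) →* G),
      Fintype.card G ≤ b → (∀ g : G, g ^ (p ^ κ) = 1) → Function.Surjective φ → Unz L E φ →
      ∀ U : Fin N → G → ℂ, (∀ j g, ‖U j g‖ ≤ b) → ∀ M : ℕ,
      ‖∑ f ∈ RC D N M (Real.exp (Real.log Y ^ ε)) Y E,
          om (ZZ D Y \ E) (fun v j => U j (φ (Fr.F v))) f -
        ∑ f ∈ RC D N M (Real.exp (Real.log Y ^ ε)) Y E,
          om (ZZ D Y \ E) (mw Fr φ U (Real.exp (Real.log Y ^ ε))) f‖ ≤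
        Y * Real.log Y ^ (-(A : ℝ)) := by
  obtain ⟨K₀, hK₀⟩ : ∃ K₀ : ℕ, K₀ = 2 * b + 2 * N + 1 := ⟨_, rfl⟩
  obtain ⟨Y₁, h₁⟩ := lgx D κ hG b K₀ A₁ (A + 1) (by omega) ε hε hε1
  obtain ⟨Y₂, h₂⟩ := gly D N b K₀ C' (A + 1) ε hε
  obtain ⟨Y₃, h₃⟩ := Filter.eventually_atTop.1 (ev_exp 1 A₁ ε 1 hε one_pos)
  refine ⟨max (max Y₁ Y₂) (max Y₃ (Real.exp 3)),
    fun Y hY L Fr hgl E hE G _ _ φ hb hκ hs hU U hUb M => ?_⟩
  have hY1 : Y₁ ≤ Y := ((le_max_left _ _).trans (le_max_left _ _)).trans hY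
  have hY2' : Y₂ ≤ Y := ((le_max_right _ _).trans (le_max_left _ _)).trans hY
  have hY3' : Y₃ ≤ Y := ((le_max_left _ _).trans (le_max_right _ _)).trans hY
  have hY2 : Real.exp 3 ≤ Y := ((le_max_right _ _).trans (le_max_right _ _)).trans hY
  have hY0 : 0 < Y := (Real.exp_pos 3).trans_le hY2
  have hL2 : 3 ≤ Real.log Y := (Real.le_log_iff_exp_le hY0).2 hY2
  have hYone : 1 ≤ Y := by
    have h1 := Real.add_one_le_exp (3 : ℝ)
    linarith
  have hG' : IsPGroup p G := fun g => ⟨κ, hκ g⟩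
  have f4 := h₃ Y hY3'
  obtain ⟨T, hT⟩ : ∃ T : ℝ, T = Real.exp (Real.log Y ^ ε) := ⟨_, rfl⟩
  obtain ⟨Z, hZd⟩ : ∃ Z, Z = ZZ D Y \ E := ⟨_, rfl⟩
  have hLT : Real.log Y ^ A₁ ≤ T := by
    rw [one_mul, Real.rpow_natCast, one_mul, ← hT] at f4
    exact f4
  have hT0 : 0 < T := by
    rw [hT]
    exact Real.exp_pos _
  have hgl2 := h₂ Y hY2' E
  rw [← hT, ← hZd] at hgl2
  rw [← hT, ← hZd]
  have hbb : (1 : ℝ) ≤ b := by
    have h1 : 1 ≤ Fintype.card G := Fintype.card_pos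
    exact_mod_cast h1.trans hb
  have hbb' : 1 ≤ b := by exact_mod_cast hbb
  have hRC : ∀ a : Pl K → Fin N → ℂ, ∑ f ∈ RC D N M T Y E, om Z a f =
      ∑ f ∈ Cf Z (Fin N), (if Rich M T Z f ∧ nr (sp Z f) ≤ Y then (1 : ℂ) else 0) * om Z a f := by
    intro a
    unfold H86.AP.RC
    rw [← hZd, Finset.sum_filter]
    refine Finset.sum_congr rfl fun f _ => ?_
    split_ifs
    · rw [one_mul]
    · rw [zero_mul]
  rw [hRC, hRC, clc Z (fun v => T < (nm v : ℝ)) _ _ _ (fun v x hv => by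
    unfold mw
    rw [if_neg hv])]
  have hm2 : ∀ c : Pl K → Option (Fin N × Bool),
      ‖om Z (m2 (fun v j => U j (φ (Fr.F v))) (mw Fr φ U T)) c‖ ≤ (K₀ : ℝ) ^ (sp Z c).card := by
    intro c
    refine om_nrm Z _ _ (fun v x => ?_) c
    have h1 : ∀ j, ‖mw Fr φ U T v j‖ ≤ b := by
      intro j
      unfold mw
      split_ifs
      · exact mnf_le (hUb j)
      · exact hUb _ _
    have h2 : (2 : ℝ) * b ≤ K₀ := by
      rw [hK₀]
      push_cast
      have : (0 : ℝ) ≤ N := Nat.cast_nonneg _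
      linarith
    unfold m2
    split_ifs
    · refine (norm_sub_le _ _).trans ?_
      have := hUb x.1 (φ (Fr.F v))
      have := h1 x.1
      linarith
    · have := h1 x.1
      linarith
  let ι : Type := Fin N × (Pl K → Option (Fin N × Bool))
  let I : Finset ι := (Finset.univ ×ˢ Cf Z (Fin N × Bool)).filter fun t =>
    nr (sp Z t.2) * T ≤ Y
  have hmul : ∀ m, ((I.filter fun t => sp Z t.2 = m).card : ℝ) ≤ (K₀ : ℝ) ^ (m.card + 1) := by
    intro m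
    have h1 : (I.filter fun t => sp Z t.2 = m) ⊆ Finset.univ ×ˢ
        ((Cf Z (Fin N × Bool)).filter fun f => sp Z f = m) := by
      intro t ht
      have ht' := Finset.mem_filter.1 ht
      have ht'' := Finset.mem_product.1 (Finset.mem_filter.1 ht'.1).1
      rw [Finset.mem_product]
      exact ⟨Finset.mem_univ _, Finset.mem_filter.2 ⟨ht''.2, ht'.2⟩⟩
    have h2 : ((I.filter fun t => sp Z t.2 = m).card : ℝ) ≤
        (N : ℝ) * (N * 2 : ℝ) ^ m.card := by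
      refine (Nat.cast_le.2 (Finset.card_le_card h1)).trans ?_
      rw [Finset.card_product, Finset.card_univ, Fintype.card_fin]
      push_cast
      have h3 := cf_cardx (Λ := Fin N × Bool) Z m
      rw [Fintype.card_prod, Fintype.card_fin, Fintype.card_bool] at h3
      push_cast at h3
      exact mul_le_mul_of_nonneg_left h3 (Nat.cast_nonneg _)
    refine h2.trans ?_
    have h3 : (N : ℝ) ≤ K₀ := by
      have h4 : N ≤ K₀ := by omega
      exact_mod_cast h4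
    have h4 : (N * 2 : ℝ) ≤ K₀ := by
      have h5 : N * 2 ≤ K₀ := by omega
      exact_mod_cast h5
    calc (N : ℝ) * (N * 2 : ℝ) ^ m.card ≤ (K₀ : ℝ) * (K₀ : ℝ) ^ m.card :=
          mul_le_mul h3 (pow_le_pow_left₀ (by positivity) h4 _)
            (pow_nonneg (by positivity) _) (Nat.cast_nonneg _)
      _ = (K₀ : ℝ) ^ (m.card + 1) := by rw [pow_succ, mul_comm]
  have key : ∀ h : Fin N → G → ℝ, (∀ j g, |h j g| ≤ b) → (∀ j y z, h j (z * y * z⁻¹) = h j y) →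
      ∑ t ∈ I, (K₀ : ℝ) ^ (sp Z t.2).card *
        |ing D T (Y / nr (sp Z t.2)) (sp Z t.2 ∪ E) (cvg Fr φ (h t.1))| ≤
        Y * Real.log Y ^ (-((A + 1 : ℕ) : ℝ)) := by
    intro h hb1 hc1
    have h2 := h₁ Y hY1 L Fr E hE ι I (fun t => sp Z t.2) (fun t => Y / nr (sp Z t.2))
      (fun t => (K₀ : ℝ) ^ (sp Z t.2).card) ?_ ?_ hmul (fun _ => G) (fun _ => φ)
      (fun t => h t.1) ?_
    · rw [← hT] at h2
      exact h2
    · intro t ht
      have ht' := Finset.mem_filter.1 ht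
      have hn0 : 0 < nr (sp Z t.2) := lt_of_lt_of_le one_pos (one_le_nr _)
      refine ⟨fun v hv => ?_, ?_, ?_, ?_⟩
      · have h1 := (mem_sp.1 hv).1
        rw [hZd, Finset.mem_sdiff, mem_zz] at h1
        exact h1.1.2
      · rw [Finset.disjoint_left]
        intro v hv
        have h1 := (mem_sp.1 hv).1
        rw [hZd, Finset.mem_sdiff] at h1
        exact h1.2
      · rw [← hT, le_div_iff₀ hn0, mul_comm]
        exact ht'.2
      · rw [mul_div_cancel₀ _ hn0.ne']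
        linarith
    · intro t _
      have hK1 : (1 : ℝ) ≤ K₀ := by
        have h4 : 1 ≤ K₀ := by omega
        exact_mod_cast h4
      exact ⟨by positivity, pow_le_pow_right₀ hK1 (Nat.le_succ _)⟩
    · intro t _
      exact ⟨hs, hκ, hb, hb1 t.1, hc1 t.1, hU.1, fun v hv hvE =>
        ⟨by rw [hU.2 v hv hvE, one_pow], fun _ => hU.2 v hv hvE⟩⟩
  have hre := key (fun j g => (av φ (U j) g).re)
    (fun j g => (Complex.abs_re_le_norm _).trans (av_leb φ hs (U j) b (hUb j) g))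
    (fun j y z => by beta_reduce; rw [av_cl φ hs])
  have him := key (fun j g => (av φ (U j) g).im)
    (fun j g => (Complex.abs_im_le_norm _).trans (av_leb φ hs (U j) b (hUb j) g))
    (fun j y z => by beta_reduce; rw [av_cl φ hs])
  have hone : ∀ x : Fin N, ∀ c ∈ Cf Z (Fin N × Bool),
      ‖om Z (m2 (fun v j => U j (φ (Fr.F v))) (mw Fr φ U T)) c / ((tk Z c : ℂ) + 1) *
        ∑ w ∈ Z.filter (fun v => T < (nm v : ℝ) ∧ c v = none),
          (if Rich M T Z (mp Prod.fst (Function.update c w (some (x, true)))) ∧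
            nr (sp Z (mp Prod.fst (Function.update c w (some (x, true))))) ≤ Y then
            (1 : ℂ) else 0) * (U x (φ (Fr.F w)) - mw Fr φ U T w x)‖ ≤
      (if nr (sp Z c) * T ≤ Y then (K₀ : ℝ) ^ (sp Z c).card *
        (b * (C' * (Y / nr (sp Z c)) ^ (3 / 4 : ℝ) + Real.log Y ^ C')) else 0) +
      (if nr (sp Z c) * T ≤ Y then (K₀ : ℝ) ^ (sp Z c).card *
        |ing D T (Y / nr (sp Z c)) (sp Z c ∪ E) (cvg Fr φ fun g => (av φ (U x) g).re)| +
        (K₀ : ℝ) ^ (sp Z c).card *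
        |ing D T (Y / nr (sp Z c)) (sp Z c ∪ E) (cvg Fr φ fun g => (av φ (U x) g).im)| else 0) := by
    intro x c _
    have h1 := inne (D := D) Fr φ U M T Y E c x
    rw [← hZd] at h1
    have h2 : ‖om Z (m2 (fun v j => U j (φ (Fr.F v))) (mw Fr φ U T)) c / ((tk Z c : ℂ) + 1)‖ ≤
        (K₀ : ℝ) ^ (sp Z c).card := by
      rw [norm_div]
      refine (div_le_self (norm_nonneg _) ?_).trans (hm2 c)
      have h3 : ((tk Z c : ℂ) + 1) = ((tk Z c + 1 : ℕ) : ℂ) := by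
        push_cast
        rfl
      rw [h3, Complex.norm_natCast]
      exact_mod_cast Nat.le_add_left 1 _
    rw [norm_mul]
    refine (mul_le_mul h2 h1 (norm_nonneg _) (by positivity)).trans ?_
    split_ifs with h
    · have hn0 : 0 < nr (sp Z c) := lt_of_lt_of_le one_pos (one_le_nr _)
      have hdis : Disjoint (sp Z c) E := by
        rw [Finset.disjoint_left]
        intro v hv
        have h1 := (mem_sp.1 hv).1
        rw [hZd, Finset.mem_sdiff] at h1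
        exact h1.2
      have hYC : Y ≤ Y ^ C := by
        calc Y = Y ^ 1 := (pow_one Y).symm
          _ ≤ Y ^ C := pow_le_pow_right₀ hYone hC
      have h3 := gls Fr hG' φ hs (U x) b hbb' (hUb x) M₁ C C' T (Y / nr (sp Z c)) Y
        (sp Z c ∪ E) hgl (hb.trans hM₁)
        ⟨hU.1, fun v hv hvE => hU.2 v hv fun h => hvE (Finset.mem_union_right _ h)⟩
        (by
          rw [nr_disjg hdis]
          refine le_trans ?_ hYC
          refine le_trans ?_ h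
          exact mul_le_mul_of_nonneg_left (hE.trans hLT) hn0.le)
        (by positivity) (le_trans (div_le_self hY0.le (one_le_nr _)) hYC)
      refine (mul_le_mul_of_nonneg_left h3 (by positivity)).trans (le_of_eq ?_)
      ring
    · rw [mul_zero, add_zero]
  refine (norm_sum_le _ _).trans ((Finset.sum_le_sum fun x _ =>
    (norm_sum_le _ _).trans (Finset.sum_le_sum fun c hc => hone x c hc)).trans ?_)
  have hsum : ∑ x : Fin N, ∑ c ∈ Cf Z (Fin N × Bool), (if nr (sp Z c) * T ≤ Y then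
      (K₀ : ℝ) ^ (sp Z c).card *
        |ing D T (Y / nr (sp Z c)) (sp Z c ∪ E) (cvg Fr φ fun g => (av φ (U x) g).re)| +
        (K₀ : ℝ) ^ (sp Z c).card *
        |ing D T (Y / nr (sp Z c)) (sp Z c ∪ E) (cvg Fr φ fun g => (av φ (U x) g).im)| else 0) =
      ∑ t ∈ I, (K₀ : ℝ) ^ (sp Z t.2).card *
        |ing D T (Y / nr (sp Z t.2)) (sp Z t.2 ∪ E) (cvg Fr φ fun g => (av φ (U t.1) g).re)| +
      ∑ t ∈ I, (K₀ : ℝ) ^ (sp Z t.2).card *
        |ing D T (Y / nr (sp Z t.2)) (sp Z t.2 ∪ E)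
          (cvg Fr φ fun g => (av φ (U t.1) g).im)| := by
    rw [← Finset.sum_add_distrib]
    show _ = ∑ t ∈ (Finset.univ ×ˢ Cf Z (Fin N × Bool)).filter _, _
    rw [Finset.sum_filter, Finset.sum_product]
  rw [Finset.sum_congr rfl fun x _ => Finset.sum_add_distrib, Finset.sum_add_distrib, hsum]
  refine (add_le_add hgl2 (add_le_add hre him)).trans ?_
  have hlog : Real.log Y ^ (-((A + 1 : ℕ) : ℝ)) = Real.log Y ^ (-(A : ℝ)) / Real.log Y := by
    rw [show -((A + 1 : ℕ) : ℝ) = -(A : ℝ) - 1 by push_cast; ring,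
      Real.rpow_sub_one (by linarith)]
  have hp0 : 0 ≤ Real.log Y ^ (-(A : ℝ)) := Real.rpow_nonneg (by linarith) _
  rw [hlog]
  calc Y * (Real.log Y ^ (-(A : ℝ)) / Real.log Y) +
        (Y * (Real.log Y ^ (-(A : ℝ)) / Real.log Y) +
          Y * (Real.log Y ^ (-(A : ℝ)) / Real.log Y)) =
        Y * (Real.log Y ^ (-(A : ℝ)) * (3 / Real.log Y)) := by ring
    _ ≤ Y * (Real.log Y ^ (-(A : ℝ)) * 1) := by
        refine mul_le_mul_of_nonneg_left (mul_le_mul_of_nonneg_left ?_ hp0) hY0.le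
        rw [div_le_one (by linarith)]
        exact hL2
    _ = Y * Real.log Y ^ (-(A : ℝ)) := by rw [mul_one]

end H38.S3

end

end Gpy_

section Alt_

/-!
# H38-S3-ALT: weighted means of phases (MP_b39724_nt, stage 3, chapter D, D3)

`alt_norm`: a sum of complex numbers of absolute value `1` with nonnegative weights, two of which with positive weights are different, has absolute value less than the sum of the weights. (`alt_mean` in Lowy.lean: the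
alternative of D3 for the functions of the classes.)
-/

set_option autoImplicit false

open scoped Classical

noncomputable section

namespace H38.S3

theorem alt_norm {I : Type} (s : Finset I) (a : I → ℝ) (e : I → ℂ) (ha : ∀ i ∈ s, 0 ≤ a i)
    (he : ∀ i ∈ s, ‖e i‖ = 1) (i₀ i₁ : I) (h0 : i₀ ∈ s) (h1 : i₁ ∈ s) (ha0 : 0 < a i₀)
    (ha1 : 0 < a i₁) (hne : e i₀ ≠ e i₁) : ‖∑ i ∈ s, (a i : ℂ) * e i‖ < ∑ i ∈ s, a i := by
  have hi : i₀ ≠ i₁ := fun h => hne (by rw [h])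
  have h1' : i₁ ∈ s.erase i₀ := Finset.mem_erase.2 ⟨hi.symm, h1⟩
  rw [← Finset.add_sum_erase s _ h0, ← Finset.add_sum_erase s (fun i => a i) h0,
    ← Finset.add_sum_erase (s.erase i₀) _ h1', ← Finset.add_sum_erase (s.erase i₀) (fun i => a i) h1',
    ← add_assoc, ← add_assoc]
  have h2 : ‖∑ i ∈ (s.erase i₀).erase i₁, (a i : ℂ) * e i‖ ≤ ∑ i ∈ (s.erase i₀).erase i₁, a i := by
    refine (norm_sum_le _ _).trans (Finset.sum_le_sum fun i hi => ?_)
    have h3 := Finset.mem_of_mem_erase (Finset.mem_of_mem_erase hi)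
    rw [norm_mul, he i h3, mul_one, Complex.norm_real, Real.norm_eq_abs, abs_of_nonneg (ha i h3)]
  have h3 : ‖(a i₀ : ℂ) * e i₀ + (a i₁ : ℂ) * e i₁‖ < a i₀ + a i₁ := by
    have h4 : ¬ SameRay ℝ ((a i₀ : ℂ) * e i₀) ((a i₁ : ℂ) * e i₁) := by
      intro h
      rw [← Complex.real_smul, ← Complex.real_smul] at h
      have h6 : SameRay ℝ (e i₀) (e i₁) := by
        have h7 := h.pos_smul_left (inv_pos.2 ha0)
        rw [smul_smul, inv_mul_cancel₀ ha0.ne', one_smul] at h7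
        have h8 := h7.pos_smul_right (inv_pos.2 ha1)
        rwa [smul_smul, inv_mul_cancel₀ ha1.ne', one_smul] at h8
      exact hne ((sameRay_iff_of_norm_eq (by rw [he _ h0, he _ h1])).1 h6)
    have h5 := norm_add_lt_of_not_sameRay h4
    rwa [norm_mul, norm_mul, he _ h0, he _ h1, mul_one, mul_one, Complex.norm_real,
      Complex.norm_real, Real.norm_eq_abs, Real.norm_eq_abs, abs_of_pos ha0, abs_of_pos ha1] at h5
  calc _ ≤ _ := norm_add_le _ _
    _ < _ := add_lt_add_of_lt_of_le h3 h2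

end H38.S3

end

end Alt_

section Lowy_

/-!
# H38-S3-LOWY: the sums over the configurations with labels (MP_b39724_nt, stage 3, chapter D, D3-D6)

`Λ` the labels, `cl : Λ → Fin N` the classes. `d4y`: `d4` for arbitrary functions at good places. `cy_cl`: labels to classes. `RL`: the configurations in which every label has at least `M` large primes with the
property `Q`. `dpoor`: the others are negligible. `alt_mean`: the alternative. `dz0`, `dz1`: THE SUM OVER `RL` OF A PRODUCT OF THE WEIGHTED MEANS OF PHASES `p x g = ∑ i, a x g i * e x g i`: negligible if one phase is not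
`1` (`dz0`), otherwise the sum of the numbers of the fixed points (`dz1`).
-/

set_option autoImplicit false

open scoped NumberField Classical
open NumberField IsDedekindDomain H63.MA H38.BB H38.BG H57.PC H57.BRA H77.WD H77.WE H57.AN
  H35.CF H86.AP H77.PT H55.E2 H35.UB H62.BL Filter Topology

noncomputable section

namespace H38.S3

section alt

variable {G Λ X : Type} [Group G] [Fintype G] [Fintype Λ] [Fintype X] {N : ℕ}

/-- the function of a class -/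
def ucl (cl : Λ → Fin N) (P : Λ → G → ℂ) (j : Fin N) (g : G) : ℂ :=
  ∑ x ∈ Finset.univ.filter (fun x => cl x = j), P x g

/-- the weighted means of phases -/
def pws (a : Λ → G → X → ℝ) (e : Λ → G → X → ℂ) (x : Λ) (g : G) : ℂ :=
  ∑ i, (a x g i : ℂ) * e x g i

theorem alt_mean (cl : Λ → Fin N) (a : Λ → G → X → ℝ) (ha : ∀ x g i, 0 ≤ a x g i)
    (e : Λ → G → X → ℂ) (he : ∀ x g i, ‖e x g i‖ = 1)
    (hone : ∀ j, ∑ g, ∑ x ∈ Finset.univ.filter (fun x => cl x = j), ∑ i, a x g i =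
      Fintype.card G) (h1 : ∀ x, ∃ i, 0 < a x 1 i ∧ e x 1 i = 1)
    (h : ∃ x g i, 0 < a x g i ∧ e x g i ≠ 1) : ∃ j, ‖mnf (ucl cl (pws a e) j)‖ < 1 := by
  obtain ⟨x, g, i, hai, hei⟩ := h
  obtain ⟨i', hai', hei'⟩ := h1 x
  have h0 : (0 : ℝ) < Fintype.card G := Nat.cast_pos.2 Fintype.card_pos
  refine ⟨cl x, ?_⟩
  obtain ⟨s, hs⟩ : ∃ s : Finset (G × Λ × X), s = Finset.univ.filter fun t => cl t.2.1 = cl x :=
    ⟨_, rfl⟩
  have hsum : ∀ {R : Type} [AddCommMonoid R] (F : Λ → G → X → R),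
      ∑ g, ∑ x' ∈ Finset.univ.filter (fun x' => cl x' = cl x), ∑ i, F x' g i =
      ∑ t ∈ s, F t.2.1 t.1 t.2.2 := by
    intro R _ F
    have e1 : s = Finset.univ ×ˢ ((Finset.univ.filter (fun x' => cl x' = cl x)) ×ˢ Finset.univ) := by
      rw [hs]
      ext ⟨g, x', i⟩
      simp
    rw [e1, Finset.sum_product]
    refine Finset.sum_congr rfl fun g _ => ?_
    rw [Finset.sum_product]
  unfold mnf ucl pws
  rw [norm_mul, norm_inv, Complex.norm_natCast, inv_mul_lt_iff₀ h0, mul_one, ← hone (cl x),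
    hsum fun x g i => (a x g i : ℂ) * e x g i, hsum fun x g i => a x g i]
  refine alt_norm s (fun t => a t.2.1 t.1 t.2.2) (fun t => e t.2.1 t.1 t.2.2)
    (fun t _ => ha _ _ _) (fun t _ => he _ _ _) (1, x, i') (g, x, i) ?_ ?_ hai' hai ?_
  · rw [hs]
    simp
  · rw [hs]
    simp
  · show e x 1 i' ≠ e x g i
    rw [hei']
    exact hei.symm

end alt

section cy

variable {K : Type} [Field K] [NumberField K] {p : ℕ} {ζ : K} {N : ℕ} {Λ : Type} [Fintype Λ]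

theorem rc_zero (D : RD0 K p ζ) (T Y : ℝ) (E : Finset (Pl K)) :
    RC D N 0 T Y E = Cy D (Fin N) Y E := by
  ext f
  rw [H86.AP.RC, Cy, Finset.mem_filter, Finset.mem_filter]
  unfold Rich
  constructor
  · rintro ⟨h1, -, h2⟩
    exact ⟨h1, h2⟩
  · rintro ⟨h1, h2⟩
    exact ⟨h1, fun _ => Nat.zero_le _, h2⟩

theorem cy_pow {R : Type} [CommSemiring R] (D : RD0 K p ζ) (Y : ℝ) (E : Finset (Pl K))
    (a : Pl K → Λ → R) : ∑ f ∈ Cy D Λ Y E, om (ZZ D Y \ E) a f =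
      ∑ s ∈ (ZZ D Y \ E).powerset, (if nr s ≤ Y then (1 : R) else 0) * ∏ v ∈ s, ∑ x, a v x := by
  rw [← cf_prod]
  unfold Cy
  rw [Finset.sum_filter]
  refine Finset.sum_congr rfl fun f _ => ?_
  split_ifs
  · rw [one_mul]
  · rw [zero_mul]

/-- labels to classes -/
theorem cy_cl {R : Type} [CommSemiring R] (D : RD0 K p ζ) (Y : ℝ) (E : Finset (Pl K))
    (cl : Λ → Fin N) (a : Pl K → Λ → R) : ∑ f ∈ Cy D Λ Y E, om (ZZ D Y \ E) a f =
      ∑ f ∈ Cy D (Fin N) Y E, om (ZZ D Y \ E)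
        (fun v j => ∑ x ∈ Finset.univ.filter (fun x => cl x = j), a v x) f := by
  rw [cy_pow, cy_pow]
  refine Finset.sum_congr rfl fun s _ => ?_
  congr 1
  refine Finset.prod_congr rfl fun v _ => ?_
  exact (Finset.sum_fiberwise Finset.univ cl (a v)).symm

/-- the configurations in which every label has at least `M` large primes with the property `Q` -/
def RL (D : RD0 K p ζ) (Λ : Type) [Fintype Λ] (M : ℕ) (T Y : ℝ) (E : Finset (Pl K))
    (Q : Pl K → Prop) : Finset (Pl K → Option Λ) :=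
  (Cy D Λ Y E).filter fun f => ∀ x, M ≤ ((pl (ZZ D Y \ E) f x).filter
    fun v => T < (nm v : ℝ) ∧ Q v).card

end cy

section main

variable {K : Type} [Field K] [NumberField K] {p : ℕ} {ζ : K} {Ω : Type} [Field Ω] [Algebra K Ω]
  [IsAlgClosure K Ω] {N : ℕ}

/-- `d4` for arbitrary functions at good places -/
theorem d4y (hp : p.Prime) (hp2 : MOne p K) (hζ : IsPrimitiveRoot ζ p) (D : RD0 K p ζ) (κ : ℕ)
    (hG : GPU D Ω κ) {G R : Type} [Group G] [Fintype G] [Group R] [Finite R]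
    (hR : IsPGroup p R) (φ : Gal(Ω/K) →* G) (hφ : H38.ML.FT φ) (hs : Function.Surjective φ)
    (hκ : ∀ g : G, g ^ (p ^ κ) = 1) (π : G →* R) (hπ : Function.Surjective π)
    (S : Fin N → Subgroup R) (E : Finset (Pl K)) (U : Fin N → G → ℂ)
    (hU : ∀ j g, ‖U j g‖ ≤ fx (S j) (π g)) (hm : ∃ j, ‖mnf (U j)‖ < 1) (M₁ C C' : ℕ)
    (hC : 1 ≤ C) (hM₁ : Fintype.card G ≤ M₁) (ε : ℝ) (hε : 0 < ε) (hε1 : ε < 1) (δ : ℝ)
    (hδ : 0 < δ) :
    ∃ Y₀ : ℝ, ∀ Y : ℝ, Y₀ ≤ Y → ∀ (L : LDs D Ω) (Fr : FR L), GLp p Fr M₁ C C' Y → Unz L E φ →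
      ∀ M : ℕ, ‖∑ f ∈ RC D N M (Real.exp (Real.log Y ^ ε)) Y E,
          om (ZZ D Y \ E) (fun v j => U j (φ (Fr.F v))) f‖ ≤
        δ * (Y * Real.log Y ^ (N - 1)) := by
  obtain ⟨j₀, hj₀⟩ := hm
  obtain ⟨z, hz⟩ : ∃ z : ℝ, z = ‖mnf (U j₀)‖ := ⟨_, rfl⟩
  rw [← hz] at hj₀
  have hz0 : 0 ≤ z := by rw [hz]; exact norm_nonneg _
  have hs' : Function.Surjective (π.comp φ) := hπ.comp hs
  obtain ⟨Y₁, h₁⟩ := gpy (Ω := Ω) D κ hG N (Fintype.card G) 1 1 M₁ C C' hC hM₁ ε hε hε1.le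
  obtain ⟨U₀, hU₀, h₂⟩ := low4 (Ω := Ω) hp hp2 hζ D hR (π.comp φ) (H77.WD.ft_comp π hφ) hs' S E
    j₀ z hz0 hj₀.le
  have hL : Tendsto (fun Y : ℝ => Real.log Y) atTop atTop := Real.tendsto_log_atTop
  have hLε : Tendsto (fun Y : ℝ => Real.log Y ^ ε) atTop atTop :=
    (tendsto_rpow_atTop hε).comp Real.tendsto_log_atTop
  have hze : Tendsto (fun Y : ℝ => U₀ * Real.log Y ^ (-((1 - ε) * (1 - z)))) atTop (𝓝 0) := by
    have h1 : 0 < (1 - ε) * (1 - z) := mul_pos (by linarith) (by linarith)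
    have := ((tendsto_rpow_neg_atTop h1).comp Real.tendsto_log_atTop).const_mul U₀
    simpa using this
  obtain ⟨Y₀, hY₀⟩ := eventually_atTop.1 (((eventually_ge_atTop Y₁).and
    (eventually_ge_atTop (3 : ℝ))).and (((hL.eventually_ge_atTop (nr E)).and
    (hL.eventually_ge_atTop (2 / δ))).and ((hLε.eventually_ge_atTop 2).and
    (hze.eventually_le_const (show (0 : ℝ) < δ / 2 by linarith)))))
  refine ⟨Y₀, fun Y hY L Fr hgl hE M => ?_⟩
  obtain ⟨⟨g1, g2⟩, ⟨g3, g4⟩, g5, g6⟩ := hY₀ Y hY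
  obtain ⟨T, hT⟩ : ∃ T : ℝ, T = Real.exp (Real.log Y ^ ε) := ⟨_, rfl⟩
  have hY0 : 0 < Y := by linarith
  have hL1 : 1 < Real.log Y := by
    rw [Real.lt_log_iff_exp_lt hY0]
    linarith [Real.exp_one_lt_d9]
  have hT3 : 3 ≤ T := by
    rw [hT]
    have h1 := Real.add_one_le_exp (Real.log Y ^ ε)
    linarith
  have hTY : T ≤ Y := by
    rw [hT, ← Real.exp_log hY0, Real.exp_le_exp, Real.log_exp]
    calc Real.log Y ^ ε ≤ Real.log Y ^ (1 : ℝ) :=
          Real.rpow_le_rpow_of_exponent_le hL1.le hε1.le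
      _ = Real.log Y := Real.rpow_one _
  have hlT : Real.log T = Real.log Y ^ ε := by rw [hT, Real.log_exp]
  have hN1 : (1 : ℝ) ≤ Real.log Y ^ (N - 1) := one_le_pow₀ hL1.le
  have hcard : Nat.card R ≤ Fintype.card G := by
    rw [← Nat.card_eq_fintype_card]
    exact Nat.card_le_card_of_surjective π hπ
  have hUb : ∀ j g, ‖U j g‖ ≤ Fintype.card G := by
    intro j g
    have h1 : (Nat.card R : ℝ) ≤ Fintype.card G := by exact_mod_cast hcard
    exact ((hU j g).trans (fx_le _ _)).trans h1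
  have e1 := h₁ Y g1 L Fr hgl E (by rw [pow_one]; exact g3) G φ le_rfl hκ hs hE U hUb M
  rw [← hT] at e1 ⊢
  have e2 : ‖∑ f ∈ RC D N M T Y E, om (ZZ D Y \ E) (mw Fr φ U T) f‖ ≤
      U₀ * (Y * Real.log Y ^ (N - 1) * (Real.log T / Real.log Y) ^ (1 - z)) := by
    refine le_trans ?_ (h₂ L Fr (hE.comp π) (fun v j => ‖mw Fr φ U T v j‖) T Y
      (fun v j => norm_nonneg _) ?_ ?_ hT3 hTY)
    · refine (norm_sum_le _ _).trans ?_
      simp_rw [om_norm]
      refine Finset.sum_le_sum_of_subset_of_nonneg ?_ fun f _ _ =>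
        om_nn _ _ (fun v j => norm_nonneg _) _
      intro f hf
      rw [H86.AP.RC, Finset.mem_filter] at hf
      rw [Cy, Finset.mem_filter]
      exact ⟨hf.1, hf.2.2⟩
    · intro v _ _ hvT j
      unfold mw
      rw [if_neg (not_lt.2 hvT)]
      exact hU j _
    · intro v _ _ hvT
      have h3 : ∀ j, mw Fr φ U T v j = mnf (U j) := by
        intro j
        unfold mw
        rw [if_pos hvT]
      simp_rw [h3]
      exact ⟨fun j => mnf_fx π hπ (S j) (U j) (hU j), hz.ge⟩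
  have e3 : (Real.log T / Real.log Y) ^ (1 - z) = Real.log Y ^ (-((1 - ε) * (1 - z))) := by
    have h1 : Real.log T / Real.log Y = Real.log Y ^ (-(1 - ε)) := by
      rw [hlT, div_eq_iff (by linarith), ← Real.rpow_add_one (by linarith)]
      congr 1
      ring
    rw [h1, ← Real.rpow_mul (by linarith)]
    congr 1
    ring
  rw [e3] at e2
  have e4 : Y * Real.log Y ^ (-((1 : ℕ) : ℝ)) ≤ δ / 2 * (Y * Real.log Y ^ (N - 1)) := by
    have h1 : Real.log Y ^ (-((1 : ℕ) : ℝ)) ≤ δ / 2 := by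
      rw [Nat.cast_one, Real.rpow_neg_one, inv_le_comm₀ (by linarith) (by linarith)]
      rw [inv_div]
      exact g4
    calc Y * Real.log Y ^ (-((1 : ℕ) : ℝ)) ≤ Y * (δ / 2) :=
          mul_le_mul_of_nonneg_left h1 hY0.le
      _ = δ / 2 * (Y * 1) := by ring
      _ ≤ _ := mul_le_mul_of_nonneg_left (mul_le_mul_of_nonneg_left hN1 hY0.le) (by linarith)
  have e5 : U₀ * (Y * Real.log Y ^ (N - 1) * Real.log Y ^ (-((1 - ε) * (1 - z)))) ≤
      δ / 2 * (Y * Real.log Y ^ (N - 1)) := by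
    calc U₀ * (Y * Real.log Y ^ (N - 1) * Real.log Y ^ (-((1 - ε) * (1 - z)))) =
          U₀ * Real.log Y ^ (-((1 - ε) * (1 - z))) * (Y * Real.log Y ^ (N - 1)) := by ring
      _ ≤ _ := mul_le_mul_of_nonneg_right g6 (by positivity)
  have e6 := norm_le_norm_add_norm_sub' (∑ f ∈ RC D N M T Y E,
    om (ZZ D Y \ E) (fun v j => U j (φ (Fr.F v))) f)
    (∑ f ∈ RC D N M T Y E, om (ZZ D Y \ E) (mw Fr φ U T) f)
  calc _ ≤ _ := e6
    _ ≤ δ / 2 * (Y * Real.log Y ^ (N - 1)) + δ / 2 * (Y * Real.log Y ^ (N - 1)) :=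
        add_le_add (e2.trans e5) (e1.trans e4)
    _ = _ := by ring

/-- the poor configurations are negligible -/
theorem dpoor (hp : p.Prime) (hp2 : MOne p K) (hζ : IsPrimitiveRoot ζ p) (D : RD0 K p ζ)
    {G R : Type} [Group G] [Fintype G] [Group R] [Finite R] (hG : IsPGroup p G)
    (hR : IsPGroup p R) (φ : Gal(Ω/K) →* G) (hφ : H38.ML.FT φ) (hs : Function.Surjective φ)
    (π : G →* R) (hπ : Function.Surjective π) (S : Fin N → Subgroup R) (E : Finset (Pl K))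
    {Λ : Type} [Fintype Λ] (w : Λ → G → ℝ) (hw0 : ∀ x g, 0 ≤ w x g)
    (hw : ∀ g, ∑ x, w x g ≤ ∑ j, fx (S j) (π g)) (hw1 : ∀ x, 0 < w x 1) (P : Λ → G → ℂ)
    (hP : ∀ x g, ‖P x g‖ ≤ w x g) (M : ℕ) (ε : ℝ) (hε : 0 < ε) (hε1 : ε < 1) (δ : ℝ)
    (hδ : 0 < δ) :
    ∃ Y₀ : ℝ, ∀ Y : ℝ, Y₀ ≤ Y → ∀ (L : LDs D Ω) (Fr : FR L), Unz L E φ →
      ∀ Q : Pl K → Prop, (∀ v, φ (Fr.F v) = 1 → Q v) →
      ‖∑ f ∈ RL D Λ M (Real.exp (Real.log Y ^ ε)) Y E Q,
          om (ZZ D Y \ E) (fun v x => P x (φ (Fr.F v))) f -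
        ∑ f ∈ Cy D Λ Y E, om (ZZ D Y \ E) (fun v x => P x (φ (Fr.F v))) f‖ ≤
        δ * (Y * Real.log Y ^ (N - 1)) := by
  obtain ⟨d, hd⟩ : ∃ d : ℝ, d = δ / (Fintype.card Λ + 1) := ⟨_, rfl⟩
  have hd0 : 0 < d := by
    rw [hd]
    positivity
  choose Yf hYf using fun s => d5 (Ω := Ω) hp hp2 hζ D hG hR φ hφ hs π hπ S E w hw0 hw s (hw1 s) M
    ε hε hε1 d hd0
  refine ⟨max 1 (∑ s, |Yf s|), fun Y hY L Fr hE Q hQ => ?_⟩
  have hYs : ∀ s, Yf s ≤ Y := fun s => (le_abs_self _).trans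
    ((Finset.single_le_sum (f := fun s => |Yf s|) (fun _ _ => abs_nonneg _)
      (Finset.mem_univ s)).trans ((le_max_right _ _).trans hY))
  have hY1 : 1 ≤ Y := (le_max_left _ _).trans hY
  obtain ⟨T, hT⟩ : ∃ T : ℝ, T = Real.exp (Real.log Y ^ ε) := ⟨_, rfl⟩
  obtain ⟨Z, hZd⟩ : ∃ Z, Z = ZZ D Y \ E := ⟨_, rfl⟩
  rw [← hT, ← hZd]
  have h1 : ∑ f ∈ Cy D Λ Y E, om Z (fun v x => P x (φ (Fr.F v))) f =
      ∑ f ∈ RL D Λ M T Y E Q, om Z (fun v x => P x (φ (Fr.F v))) f +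
      ∑ f ∈ (Cy D Λ Y E).filter (fun f => ¬ ∀ x, M ≤ ((pl (ZZ D Y \ E) f x).filter
        fun v => T < (nm v : ℝ) ∧ Q v).card), om Z (fun v x => P x (φ (Fr.F v))) f :=
    (Finset.sum_filter_add_sum_filter_not _ _ _).symm
  rw [h1, sub_add_cancel_left, norm_neg]
  have hom : ∀ f, 0 ≤ om Z (fun v x => w x (φ (Fr.F v))) f := fun f =>
    om_nn _ _ (fun v x => hw0 _ _) f
  have h2 : (Cy D Λ Y E).filter (fun f => ¬ ∀ x, M ≤ ((pl (ZZ D Y \ E) f x).filter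
        fun v => T < (nm v : ℝ) ∧ Q v).card) ⊆ Finset.univ.biUnion fun s : Λ =>
      (Cy D Λ Y E).filter (fun f => ((pl (ZZ D Y \ E) f s).filter
          fun v => T < (nm v : ℝ) ∧ φ (Fr.F v) = 1).card ≤ M) := by
    intro f hf
    rw [Finset.mem_filter] at hf
    obtain ⟨hf1, hf2⟩ := hf
    push Not at hf2
    obtain ⟨s, hs⟩ := hf2
    rw [Finset.mem_biUnion]
    refine ⟨s, Finset.mem_univ _, Finset.mem_filter.2 ⟨hf1, le_trans (Finset.card_le_card ?_)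
      hs.le⟩⟩
    intro v hv
    rw [Finset.mem_filter] at hv ⊢
    exact ⟨hv.1, hv.2.1, hQ v hv.2.2⟩
  calc ‖∑ f ∈ (Cy D Λ Y E).filter (fun f => ¬ ∀ x, M ≤ ((pl (ZZ D Y \ E) f x).filter
        fun v => T < (nm v : ℝ) ∧ Q v).card), om Z (fun v x => P x (φ (Fr.F v))) f‖
      ≤ ∑ f ∈ (Cy D Λ Y E).filter (fun f => ¬ ∀ x, M ≤ ((pl (ZZ D Y \ E) f x).filter
        fun v => T < (nm v : ℝ) ∧ Q v).card), om Z (fun v x => w x (φ (Fr.F v))) f := by
        refine (norm_sum_le _ _).trans (Finset.sum_le_sum fun f _ => ?_)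
        rw [om_norm]
        exact om_mono _ _ _ (fun v x => norm_nonneg _) (fun v _ x => hP _ _) f
    _ ≤ ∑ f ∈ Finset.univ.biUnion fun s : Λ =>
        (Cy D Λ Y E).filter (fun f => ((pl (ZZ D Y \ E) f s).filter
          fun v => T < (nm v : ℝ) ∧ φ (Fr.F v) = 1).card ≤ M),
        om Z (fun v x => w x (φ (Fr.F v))) f :=
        Finset.sum_le_sum_of_subset_of_nonneg h2 fun f _ _ => hom f
    _ ≤ ∑ s : Λ, ∑ f ∈ (Cy D Λ Y E).filter (fun f => ((pl (ZZ D Y \ E) f s).filter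
          fun v => T < (nm v : ℝ) ∧ φ (Fr.F v) = 1).card ≤ M),
        om Z (fun v x => w x (φ (Fr.F v))) f := bi_le _ _ hom
    _ ≤ ∑ _s : Λ, d * (Y * Real.log Y ^ (N - 1)) := by
        refine Finset.sum_le_sum fun s _ => ?_
        have h3 := hYf s Y (hYs s) L Fr hE
        rw [← hT] at h3
        rw [hZd]
        exact h3
    _ ≤ δ * (Y * Real.log Y ^ (N - 1)) := by
        rw [Finset.sum_const, Finset.card_univ, nsmul_eq_mul, ← mul_assoc]
        have h4 : 0 ≤ Real.log Y := Real.log_nonneg hY1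
        refine mul_le_mul_of_nonneg_right ?_ (by positivity)
        rw [hd, mul_div_assoc', div_le_iff₀ (by positivity)]
        nlinarith

section aux

variable {G R Λ X : Type} [Group G] [Fintype G] [Group R] [Finite R] [Fintype Λ] [Fintype X]

omit [Fintype Λ] [Group G] [Fintype G] in
theorem pws_le (a : Λ → G → X → ℝ) (ha : ∀ x g i, 0 ≤ a x g i) (e : Λ → G → X → ℂ)
    (he : ∀ x g i, ‖e x g i‖ = 1) (x : Λ) (g : G) : ‖pws a e x g‖ ≤ ∑ i, a x g i := by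
  unfold pws
  refine (norm_sum_le _ _).trans (Finset.sum_le_sum fun i _ => ?_)
  rw [norm_mul, he, mul_one, Complex.norm_real, Real.norm_eq_abs, abs_of_nonneg (ha x g i)]

omit [Finite R] [Fintype G] in
theorem haw_sum (π : G →* R) (S : Fin N → Subgroup R) (cl : Λ → Fin N) (a : Λ → G → X → ℝ)
    (haw : ∀ j g, ∑ x ∈ Finset.univ.filter (fun x => cl x = j), ∑ i, a x g i = fx (S j) (π g))
    (g : G) : ∑ x, ∑ i, a x g i = ∑ j, fx (S j) (π g) := by
  rw [← Finset.sum_fiberwise Finset.univ cl]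
  exact Finset.sum_congr rfl fun j _ => haw j g

omit [Fintype G] [Fintype Λ] in
theorem haw_pos (a : Λ → G → X → ℝ) (ha : ∀ x g i, 0 ≤ a x g i) (h1 : ∀ x, ∃ i, 0 < a x 1 i)
    (x : Λ) : 0 < ∑ i, a x 1 i := by
  obtain ⟨i, hi⟩ := h1 x
  exact hi.trans_le (Finset.single_le_sum (f := fun i => a x 1 i) (fun i _ => ha x 1 i)
    (Finset.mem_univ i))

end aux

/-- ONE PHASE IS NOT `1` -/
theorem dz0 (hp : p.Prime) (hp2 : MOne p K) (hζ : IsPrimitiveRoot ζ p) (D : RD0 K p ζ) (κ : ℕ)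
    (hG : GPU D Ω κ) {G R : Type} [Group G] [Fintype G] [Group R] [Finite R]
    (hR : IsPGroup p R) (φ : Gal(Ω/K) →* G) (hφ : H38.ML.FT φ) (hs : Function.Surjective φ)
    (hκ : ∀ g : G, g ^ (p ^ κ) = 1) (π : G →* R) (hπ : Function.Surjective π)
    (S : Fin N → Subgroup R) (E : Finset (Pl K)) {Λ X : Type} [Fintype Λ] [Fintype X]
    (cl : Λ → Fin N) (a : Λ → G → X → ℝ) (ha : ∀ x g i, 0 ≤ a x g i)
    (haw : ∀ j g, ∑ x ∈ Finset.univ.filter (fun x => cl x = j), ∑ i, a x g i = fx (S j) (π g))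
    (e : Λ → G → X → ℂ) (he : ∀ x g i, ‖e x g i‖ = 1) (h1 : ∀ x, ∃ i, 0 < a x 1 i ∧ e x 1 i = 1)
    (hz : ∃ x g i, 0 < a x g i ∧ e x g i ≠ 1) (M₁ C C' : ℕ)
    (hC : 1 ≤ C) (hM₁ : Fintype.card G ≤ M₁) (M : ℕ) (ε : ℝ) (hε : 0 < ε) (hε1 : ε < 1) (δ : ℝ)
    (hδ : 0 < δ) :
    ∃ Y₀ : ℝ, ∀ Y : ℝ, Y₀ ≤ Y → ∀ (L : LDs D Ω) (Fr : FR L), GLp p Fr M₁ C C' Y → Unz L E φ →
      ∀ Q : Pl K → Prop, (∀ v, φ (Fr.F v) = 1 → Q v) →
      ‖∑ f ∈ RL D Λ M (Real.exp (Real.log Y ^ ε)) Y E Q,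
          om (ZZ D Y \ E) (fun v x => pws a e x (φ (Fr.F v))) f‖ ≤
        δ * (Y * Real.log Y ^ (N - 1)) := by
  have hRf : Fintype R := Fintype.ofFinite _
  have hpG : IsPGroup p G := fun g => ⟨κ, hκ g⟩
  obtain ⟨Y₁, h₁⟩ := dpoor (Ω := Ω) hp hp2 hζ D hpG hR φ hφ hs π hπ S E
    (fun x g => ∑ i, a x g i) (fun x g => Finset.sum_nonneg fun i _ => ha x g i)
    (fun g => (haw_sum π S cl a haw g).le)
    (fun x => haw_pos a ha (fun x => by
      obtain ⟨i, hi, _⟩ := h1 x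
      exact ⟨i, hi⟩) x) (pws a e) (pws_le a ha e he) M ε hε hε1 (δ / 2) (by linarith)
  obtain ⟨Y₂, h₂⟩ := d4y (Ω := Ω) hp hp2 hζ D κ hG hR φ hφ hs hκ π hπ S E (ucl cl (pws a e))
    (fun j g => by
      rw [← haw j g]
      unfold ucl
      exact (norm_sum_le _ _).trans (Finset.sum_le_sum fun x _ => pws_le a ha e he x g))
    (alt_mean cl a ha e he (fun j => by
      rw [Finset.sum_congr rfl fun g _ => haw j g, fx_sumπ π hπ (S j)]) h1 hz)
    M₁ C C' hC hM₁ ε hε hε1 (δ / 2) (by linarith)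
  refine ⟨max Y₁ Y₂, fun Y hY L Fr hgl hE Q hQ => ?_⟩
  have e1 := h₁ Y ((le_max_left _ _).trans hY) L Fr hE Q hQ
  have e2 := h₂ Y ((le_max_right _ _).trans hY) L Fr hgl hE 0
  rw [rc_zero] at e2
  rw [cy_cl D Y E cl] at e1
  have e3 := norm_le_norm_add_norm_sub' (∑ f ∈ RL D Λ M (Real.exp (Real.log Y ^ ε)) Y E Q,
    om (ZZ D Y \ E) (fun v x => pws a e x (φ (Fr.F v))) f)
    (∑ f ∈ Cy D (Fin N) Y E, om (ZZ D Y \ E) (fun v j => ucl cl (pws a e) j (φ (Fr.F v))) f)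
  calc _ ≤ _ := e3
    _ ≤ δ / 2 * (Y * Real.log Y ^ (N - 1)) + δ / 2 * (Y * Real.log Y ^ (N - 1)) :=
        add_le_add e2 e1
    _ = _ := by ring

/-- ALL PHASES ARE `1` -/
theorem dz1 (hp : p.Prime) (hp2 : MOne p K) (hζ : IsPrimitiveRoot ζ p) (D : RD0 K p ζ)
    {G R : Type} [Group G] [Fintype G] [Group R] [Finite R] (hpG : IsPGroup p G)
    (hR : IsPGroup p R) (φ : Gal(Ω/K) →* G) (hφ : H38.ML.FT φ) (hs : Function.Surjective φ)
    (π : G →* R) (hπ : Function.Surjective π)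
    (S : Fin N → Subgroup R) (E : Finset (Pl K)) {Λ X : Type} [Fintype Λ] [Fintype X]
    (cl : Λ → Fin N) (a : Λ → G → X → ℝ) (ha : ∀ x g i, 0 ≤ a x g i)
    (haw : ∀ j g, ∑ x ∈ Finset.univ.filter (fun x => cl x = j), ∑ i, a x g i = fx (S j) (π g))
    (e : Λ → G → X → ℂ) (h1 : ∀ x, ∃ i, 0 < a x 1 i)
    (hz : ∀ x g i, 0 < a x g i → e x g i = 1) (M : ℕ) (ε : ℝ) (hε : 0 < ε) (hε1 : ε < 1)
    (δ : ℝ) (hδ : 0 < δ) :
    ∃ Y₀ : ℝ, ∀ Y : ℝ, Y₀ ≤ Y → ∀ (L : LDs D Ω) (Fr : FR L), Unz L E φ →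
      ∀ Q : Pl K → Prop, (∀ v, φ (Fr.F v) = 1 → Q v) →
      ‖∑ f ∈ RL D Λ M (Real.exp (Real.log Y ^ ε)) Y E Q,
          om (ZZ D Y \ E) (fun v x => pws a e x (φ (Fr.F v))) f -
        ((∑ f ∈ Cy D (Fin N) Y E,
          om (ZZ D Y \ E) (fun v j => fx (S j) (π (φ (Fr.F v)))) f : ℝ) : ℂ)‖ ≤
        δ * (Y * Real.log Y ^ (N - 1)) := by
  have hpw : ∀ x g, pws a e x g = ((∑ i, a x g i : ℝ) : ℂ) := by
    intro x g
    unfold pws
    push_cast
    refine Finset.sum_congr rfl fun i _ => ?_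
    rcases (ha x g i).eq_or_lt with h | h
    · rw [← h, Complex.ofReal_zero, zero_mul]
    · rw [hz x g i h, mul_one]
  obtain ⟨Y₁, h₁⟩ := dpoor (Ω := Ω) hp hp2 hζ D hpG hR φ hφ hs π hπ S E
    (fun x g => ∑ i, a x g i) (fun x g => Finset.sum_nonneg fun i _ => ha x g i)
    (fun g => (haw_sum π S cl a haw g).le)
    (fun x => haw_pos a ha h1 x) (pws a e) (fun x g => by
      rw [hpw, Complex.norm_real, Real.norm_eq_abs,
        abs_of_nonneg (Finset.sum_nonneg fun i _ => ha x g i)]) M ε hε hε1 δ hδ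
  refine ⟨Y₁, fun Y hY L Fr hE Q hQ => ?_⟩
  have e1 := h₁ Y hY L Fr hE Q hQ
  rw [cy_cl D Y E cl] at e1
  convert e1 using 3
  push_cast
  refine Finset.sum_congr rfl fun f _ => ?_
  unfold om
  push_cast
  refine Finset.prod_congr rfl fun v _ => ?_
  cases f v with
  | none => rfl
  | some j =>
    show ((fx (S j) (π (φ (Fr.F v))) : ℝ) : ℂ) = _
    rw [← haw j]
    push_cast
    exact Finset.sum_congr rfl fun x _ => (by rw [hpw]; push_cast; rfl)

end main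

end H38.S3

end

end Lowy_

section Sbx_

/-!
# H38-S3-SBX: the limit for one fibre and type (MP_b39724_nt, stage 3, chapter D, D6)

`Z` a finite commutative group, `e z` multiplicative in `z`, `χ y` characters of `Z`. `CCz`: the subgroup of the `z` all of whose phases are `1`. `sub_sum`: `∑_(z ∈ CC) ∑_y χ y z = #CC * #{y : χ y = 1 on CC}`.
`dfin`: the main term of (EQ') is `l (Y (log Y)^(N-1))`, `l = l₀ #CC #{y : χ y = 1 on CC}`, up to `o`, uniformly in the good places. `dlim`: the limit for the number of the homomorphisms.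
-/

set_option autoImplicit false

open scoped NumberField Classical
open NumberField IsDedekindDomain H63.MA H38.BB H38.BG H57.PC H57.BRA H77.WD H77.WE H57.AN
  H35.CF H86.AP H77.PT H55.E2 H35.UB H62.BL Filter Topology

noncomputable section

namespace H38.S3

section alg

variable {Z : Type} [CommGroup Z] [Fintype Z] {I : Type} [Fintype I]

theorem sub_one (CC : Subgroup Z) (χ : Z →* ℂ) : ∑ z ∈ Finset.univ.filter (fun z => z ∈ CC), χ z =
    if ∀ z ∈ CC, χ z = 1 then (Nat.card CC : ℂ) else 0 := by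
  have hcard : ((Finset.univ.filter (fun z => z ∈ CC)).card : ℂ) = (Nat.card CC : ℂ) := by
    rw [Nat.card_eq_fintype_card, Fintype.card_subtype]
  split_ifs with h
  · rw [Finset.sum_congr rfl fun z hz => h z (Finset.mem_filter.1 hz).2, Finset.sum_const,
      nsmul_eq_mul, mul_one, hcard]
  · push Not at h
    obtain ⟨z₀, hz₀, hne⟩ := h
    have h1 : χ z₀ * ∑ z ∈ Finset.univ.filter (fun z => z ∈ CC), χ z =
        ∑ z ∈ Finset.univ.filter (fun z => z ∈ CC), χ z := by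
      rw [Finset.mul_sum]
      refine Finset.sum_bij' (fun z _ => z₀ * z) (fun z _ => z₀⁻¹ * z) ?_ ?_ ?_ ?_ ?_
      · intro z hz
        rw [Finset.mem_filter] at hz ⊢
        exact ⟨Finset.mem_univ _, CC.mul_mem hz₀ hz.2⟩
      · intro z hz
        rw [Finset.mem_filter] at hz ⊢
        exact ⟨Finset.mem_univ _, CC.mul_mem (CC.inv_mem hz₀) hz.2⟩
      · intro z _
        rw [inv_mul_cancel_left]
      · intro z _
        rw [mul_inv_cancel_left]
      · intro z _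
        rw [map_mul]
    have h2 : (χ z₀ - 1) * ∑ z ∈ Finset.univ.filter (fun z => z ∈ CC), χ z = 0 := by
      rw [sub_mul, one_mul, h1, sub_self]
    exact (mul_eq_zero.1 h2).resolve_left (sub_ne_zero.2 hne)

theorem sub_sum (CC : Subgroup Z) (χ : I → Z →* ℂ) :
    ∑ z ∈ Finset.univ.filter (fun z => z ∈ CC), ∑ y, χ y z =
      (Nat.card CC : ℂ) * ((Finset.univ.filter fun y => ∀ z ∈ CC, χ y z = 1).card : ℂ) := by
  rw [Finset.sum_comm, Finset.sum_congr rfl fun y _ => sub_one CC (χ y), ← Finset.sum_filter,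
    Finset.sum_const, nsmul_eq_mul, mul_comm]

variable {G Λ X : Type}

/-- the subgroup of the `z` all of whose phases are `1` -/
def CCz (a : Λ → G → X → ℝ) (e : Z → Λ → G → X → ℂ)
    (hem : ∀ z z' x g i, e (z * z') x g i = e z x g i * e z' x g i)
    (he : ∀ z x g i, ‖e z x g i‖ = 1) : Subgroup Z where
  carrier := {z | ∀ x g i, 0 < a x g i → e z x g i = 1}
  mul_mem' := by
    intro z z' h h' x g i hi
    rw [hem, h x g i hi, h' x g i hi, one_mul]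
  one_mem' := by
    intro x g i _
    have h1 := hem 1 1 x g i
    rw [mul_one] at h1
    have h2 : e 1 x g i ≠ 0 := by
      intro h
      have h3 := he 1 x g i
      rw [h, norm_zero] at h3
      exact zero_ne_one h3
    exact (mul_eq_left₀ h2).1 h1.symm
  inv_mem' := by
    intro z h x g i hi
    have h1 := hem 1 1 x g i
    rw [mul_one] at h1
    have h2 : e 1 x g i ≠ 0 := by
      intro h
      have h3 := he 1 x g i
      rw [h, norm_zero] at h3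
      exact zero_ne_one h3
    have h4 := (mul_eq_left₀ h2).1 h1.symm
    have h5 := hem z⁻¹ z x g i
    rw [inv_mul_cancel, h4, h x g i hi, mul_one] at h5
    exact h5.symm

theorem mem_ccz {a : Λ → G → X → ℝ} {e : Z → Λ → G → X → ℂ}
    {hem : ∀ z z' x g i, e (z * z') x g i = e z x g i * e z' x g i}
    {he : ∀ z x g i, ‖e z x g i‖ = 1} {z : Z} :
    z ∈ CCz a e hem he ↔ ∀ x g i, 0 < a x g i → e z x g i = 1 := Iff.rfl

end alg

section main

variable {K : Type} [Field K] [NumberField K] {p : ℕ} {ζ : K} {Ω : Type} [Field Ω] [Algebra K Ω]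
  [IsAlgClosure K Ω] {N : ℕ}

/-- THE MAIN TERM -/
theorem dfin (hp : p.Prime) (hp2 : MOne p K) (hζ : IsPrimitiveRoot ζ p) (D : RD0 K p ζ) (κ : ℕ)
    (hG : GPU D Ω κ) {G R : Type} [Group G] [Fintype G] [Group R] [Finite R]
    (hR : IsPGroup p R) (φ : Gal(Ω/K) →* G) (hφ : H38.ML.FT φ) (hs : Function.Surjective φ)
    (hκ : ∀ g : G, g ^ (p ^ κ) = 1) (π : G →* R) (hπ : Function.Surjective π)
    (S : Fin N → Subgroup R) (E : Finset (Pl K)) {Λ X Z I : Type} [Fintype Λ] [Fintype X]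
    [CommGroup Z] [Fintype Z] [Fintype I]
    (cl : Λ → Fin N) (a : Λ → G → X → ℝ) (ha : ∀ x g i, 0 ≤ a x g i)
    (haw : ∀ j g, ∑ x ∈ Finset.univ.filter (fun x => cl x = j), ∑ i, a x g i = fx (S j) (π g))
    (e : Z → Λ → G → X → ℂ) (hem : ∀ z z' x g i, e (z * z') x g i = e z x g i * e z' x g i)
    (he : ∀ z x g i, ‖e z x g i‖ = 1)
    (h1 : ∀ x, ∃ i, 0 < a x 1 i ∧ ∀ z, e z x 1 i = 1) (χ : I → Z →* ℂ)
    (l₀ : ℝ) (hl : ∀ δ : ℝ, 0 < δ → ∃ Y₀ : ℝ, ∀ Y : ℝ, Y₀ ≤ Y → ∀ (L : LDs D Ω) (Fr : FR L),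
      Unz L E φ → |∑ f ∈ Cy D (Fin N) Y E,
        om (ZZ D Y \ E) (fun v j => fx (S j) (π (φ (Fr.F v)))) f -
          l₀ * (Y * Real.log Y ^ (N - 1))| ≤ δ * (Y * Real.log Y ^ (N - 1)))
    (M₁ C C' : ℕ) (hC : 1 ≤ C) (hM₁ : Fintype.card G ≤ M₁) (M : ℕ) (ε : ℝ) (hε : 0 < ε)
    (hε1 : ε < 1) (δ : ℝ) (hδ : 0 < δ) :
    ∃ Y₀ : ℝ, ∀ Y : ℝ, Y₀ ≤ Y → ∀ (L : LDs D Ω) (Fr : FR L), GLp p Fr M₁ C C' Y → Unz L E φ →
      ∀ Q : Pl K → Prop, (∀ v, φ (Fr.F v) = 1 → Q v) →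
      ‖∑ z, (∑ y, χ y z) * ∑ f ∈ RL D Λ M (Real.exp (Real.log Y ^ ε)) Y E Q,
          om (ZZ D Y \ E) (fun v x => pws a (e z) x (φ (Fr.F v))) f -
        ((l₀ * (Nat.card (CCz a e hem he) * (Finset.univ.filter fun y =>
          ∀ z ∈ CCz a e hem he, χ y z = 1).card) * (Y * Real.log Y ^ (N - 1)) : ℝ) : ℂ)‖ ≤
        δ * (Y * Real.log Y ^ (N - 1)) := by
  obtain ⟨B, hB⟩ : ∃ B : ℝ, B = ∑ z, ‖∑ y, χ y z‖ + 1 := ⟨_, rfl⟩
  have hB0 : 0 < B := by
    rw [hB]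
    have : 0 ≤ ∑ z, ‖∑ y, χ y z‖ := Finset.sum_nonneg fun _ _ => norm_nonneg _
    linarith
  obtain ⟨d, hd⟩ : ∃ d : ℝ, d = δ / (2 * B) := ⟨_, rfl⟩
  have hd0 : 0 < d := by
    rw [hd]
    positivity
  have hpG : IsPGroup p G := fun g => ⟨κ, hκ g⟩
  have hz : ∀ z : Z, ∃ Y₀ : ℝ, ∀ Y : ℝ, Y₀ ≤ Y → ∀ (L : LDs D Ω) (Fr : FR L),
      GLp p Fr M₁ C C' Y → Unz L E φ → ∀ Q : Pl K → Prop, (∀ v, φ (Fr.F v) = 1 → Q v) →
      ‖∑ f ∈ RL D Λ M (Real.exp (Real.log Y ^ ε)) Y E Q,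
          om (ZZ D Y \ E) (fun v x => pws a (e z) x (φ (Fr.F v))) f -
        (if z ∈ CCz a e hem he then ((l₀ * (Y * Real.log Y ^ (N - 1)) : ℝ) : ℂ) else 0)‖ ≤
        2 * d * (Y * Real.log Y ^ (N - 1)) := by
    intro z
    by_cases hzc : z ∈ CCz a e hem he
    · obtain ⟨Y₁, h₁⟩ := dz1 (Ω := Ω) hp hp2 hζ D hpG hR φ hφ hs π hπ S E cl a ha haw (e z)
        (fun x => by
          obtain ⟨i, hi, _⟩ := h1 x
          exact ⟨i, hi⟩) hzc M ε hε hε1 d hd0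
      obtain ⟨Y₂, h₂⟩ := hl d hd0
      refine ⟨max Y₁ Y₂, fun Y hY L Fr _ hE Q hQ => ?_⟩
      have e1 := h₁ Y ((le_max_left _ _).trans hY) L Fr hE Q hQ
      have e2 := h₂ Y ((le_max_right _ _).trans hY) L Fr hE
      rw [if_pos hzc]
      rw [← Real.norm_eq_abs, ← Complex.norm_real, Complex.ofReal_sub] at e2
      calc _ ≤ _ := norm_sub_le_norm_sub_add_norm_sub _ ((∑ f ∈ Cy D (Fin N) Y E,
          om (ZZ D Y \ E) (fun v j => fx (S j) (π (φ (Fr.F v)))) f : ℝ) : ℂ) _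
        _ ≤ d * (Y * Real.log Y ^ (N - 1)) + d * (Y * Real.log Y ^ (N - 1)) := add_le_add e1 e2
        _ = _ := by ring
    · have hz2 : ∃ x g i, 0 < a x g i ∧ e z x g i ≠ 1 := by
        by_contra h
        push Not at h
        exact hzc h
      obtain ⟨Y₁, h₁⟩ := dz0 (Ω := Ω) hp hp2 hζ D κ hG hR φ hφ hs hκ π hπ S E cl a ha haw (e z)
        (he z) (fun x => by
          obtain ⟨i, hi, hi'⟩ := h1 x
          exact ⟨i, hi, hi' z⟩) hz2 M₁ C C' hC hM₁ M ε hε hε1 (2 * d) (by linarith)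
      refine ⟨Y₁, fun Y hY L Fr hgl hE Q hQ => ?_⟩
      rw [if_neg hzc, sub_zero]
      exact h₁ Y hY L Fr hgl hE Q hQ
  choose Yf hYf using hz
  refine ⟨max 1 (∑ z, |Yf z|), fun Y hY L Fr hgl hE Q hQ => ?_⟩
  have hYs : ∀ z, Yf z ≤ Y := fun z => (le_abs_self _).trans
    ((Finset.single_le_sum (f := fun z => |Yf z|) (fun _ _ => abs_nonneg _)
      (Finset.mem_univ z)).trans ((le_max_right _ _).trans hY))
  have hY1 : 1 ≤ Y := (le_max_left _ _).trans hY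
  have hYl : 0 ≤ Y * Real.log Y ^ (N - 1) := by
    have := Real.log_nonneg hY1
    positivity
  have hmain : (((l₀ * (Nat.card (CCz a e hem he) * (Finset.univ.filter fun y =>
          ∀ z ∈ CCz a e hem he, χ y z = 1).card) * (Y * Real.log Y ^ (N - 1)) : ℝ) : ℂ)) =
      ∑ z, (∑ y, χ y z) *
        (if z ∈ CCz a e hem he then ((l₀ * (Y * Real.log Y ^ (N - 1)) : ℝ) : ℂ) else 0) := by
    have e1 : ∑ z, (∑ y, χ y z) *
        (if z ∈ CCz a e hem he then ((l₀ * (Y * Real.log Y ^ (N - 1)) : ℝ) : ℂ) else 0) =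
        (∑ z ∈ Finset.univ.filter (fun z => z ∈ CCz a e hem he), ∑ y, χ y z) *
          ((l₀ * (Y * Real.log Y ^ (N - 1)) : ℝ) : ℂ) := by
      rw [Finset.sum_mul, Finset.sum_filter]
      refine Finset.sum_congr rfl fun z _ => ?_
      split_ifs
      · rfl
      · rw [mul_zero]
    rw [e1, sub_sum]
    push_cast
    ring
  rw [hmain, ← Finset.sum_sub_distrib]
  calc ‖∑ z, ((∑ y, χ y z) * ∑ f ∈ RL D Λ M (Real.exp (Real.log Y ^ ε)) Y E Q,
          om (ZZ D Y \ E) (fun v x => pws a (e z) x (φ (Fr.F v))) f -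
        (∑ y, χ y z) *
        (if z ∈ CCz a e hem he then ((l₀ * (Y * Real.log Y ^ (N - 1)) : ℝ) : ℂ) else 0))‖
      ≤ ∑ z, ‖∑ y, χ y z‖ * (2 * d * (Y * Real.log Y ^ (N - 1))) := by
        refine (norm_sum_le _ _).trans (Finset.sum_le_sum fun z _ => ?_)
        rw [← mul_sub, norm_mul]
        exact mul_le_mul_of_nonneg_left (hYf z Y (hYs z) L Fr hgl hE Q hQ) (norm_nonneg _)
    _ ≤ B * (2 * d * (Y * Real.log Y ^ (N - 1))) := by
        rw [← Finset.sum_mul]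
        refine mul_le_mul_of_nonneg_right ?_ (by positivity)
        rw [hB]
        linarith
    _ = δ * (Y * Real.log Y ^ (N - 1)) := by
        rw [hd]
        field_simp

end main

section lim

/-- from the approximations to the limit -/
theorem dlim (N : ℕ) (Nt : ℝ → ℝ) (k l : ℝ)
    (h : ∀ δ : ℝ, 0 < δ → ∃ Y₀ : ℝ, ∀ Y : ℝ, Y₀ ≤ Y → ∃ (r : ℝ) (m : ℂ),
      |Nt Y - r| ≤ δ * (Y * Real.log Y ^ (N - 1)) ∧
      ‖(r : ℂ) - k * m‖ ≤ δ * (Y * Real.log Y ^ (N - 1)) ∧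
      ‖m - ((l * (Y * Real.log Y ^ (N - 1)) : ℝ) : ℂ)‖ ≤ δ * (Y * Real.log Y ^ (N - 1))) :
    Tendsto (fun Y : ℝ => Nt Y / (Y * Real.log Y ^ (N - 1))) atTop (𝓝 (k * l)) := by
  rw [Metric.tendsto_atTop]
  intro ε hε
  obtain ⟨δ, hδ⟩ : ∃ δ : ℝ, δ = ε / (2 * (2 + |k|)) := ⟨_, rfl⟩
  have hk := abs_nonneg k
  have hδ0 : 0 < δ := by
    rw [hδ]
    positivity
  obtain ⟨Y₀, hY₀⟩ := h δ hδ0
  refine ⟨max Y₀ 3, fun Y hY => ?_⟩
  obtain ⟨r, m, h1, h2, h3⟩ := hY₀ Y ((le_max_left _ _).trans hY)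
  have hY3 : 3 ≤ Y := (le_max_right _ _).trans hY
  have hlog : 0 < Real.log Y := Real.log_pos (by linarith)
  obtain ⟨W, hW⟩ : ∃ W : ℝ, W = Y * Real.log Y ^ (N - 1) := ⟨_, rfl⟩
  have hW0 : 0 < W := by
    rw [hW]
    positivity
  rw [← hW] at h1 h2 h3 ⊢
  rw [Real.dist_eq]
  have h4 : Nt Y / W - k * l = (Nt Y - k * (l * W)) / W := by
    field_simp
  rw [h4, abs_div, abs_of_pos hW0, div_lt_iff₀ hW0]
  have h5 : |r - k * (l * W)| ≤ δ * W + |k| * (δ * W) := by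
    have e1 : ((r - k * (l * W) : ℝ) : ℂ) = ((r : ℂ) - k * m) +
        k * (m - ((l * W : ℝ) : ℂ)) := by
      push_cast
      ring
    rw [← Real.norm_eq_abs, ← Complex.norm_real, e1]
    refine (norm_add_le _ _).trans (add_le_add h2 ?_)
    rw [norm_mul, Complex.norm_real, Real.norm_eq_abs]
    exact mul_le_mul_of_nonneg_left h3 hk
  have h6 : |Nt Y - k * (l * W)| ≤ |Nt Y - r| + |r - k * (l * W)| := abs_sub_le _ _ _
  have h7 : δ * (2 + |k|) = ε / 2 := by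
    rw [hδ]
    field_simp
  have h8 : |Nt Y - k * (l * W)| ≤ ε / 2 * W := by
    rw [← h7]
    nlinarith
  have h9 : ε / 2 * W < ε * W := by
    apply mul_lt_mul_of_pos_right _ hW0
    linarith
  linarith

end lim

end H38.S3

end

end Sbx_

section Dsx_

/-!
# H38-S3-DSX: the D6 theorem for the phases `Phs` (MP_b39724_nt, stage 3, chapter D)

`phs_haw`: the sum over the labels of a class is a number of fixed points. `CCh H`: the subgroup of the `z` all of whose phases are `1`. `d6`: THE MAIN TERM OF `EQ1`: for all good places, for every `δ > 0` and large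
`Y`, the sum over `z` of `(∑ y, b y z)` times the sum over `RRL` is `l₀ #CC #{y : b y = 1 on CC} (Y (log Y)^(N-1))` up to `δ (Y (log Y)^(N-1))`, `l₀ > 0`.
`dsx`: THE ASYMPTOTIC FORMULA for the sum of `wL` over one fibre and type, from `EQ1`.
-/

set_option autoImplicit false

open scoped NumberField Classical
open NumberField IsDedekindDomain H38.ML H63.MA H38.BB H38.BG H57.PC H57.BRA H38.AS H77.WD H77.WE
  H77.GL H77.PC3 H77.PT H57.AN H35.CF H35.UB H93.UB H86.AP H55.E2 H62.BL H51.F3 H12.S3 Filter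
  Topology

noncomputable section

namespace H38.S3

section alg

variable {p N : ℕ} {P : Type} [Group P] [Fintype P]

/-- the fixed points of a class modulo `Tc c` -/
def Sx (c : CL p N P) (j : Fin N) : Subgroup (P ⧸ Tc c) :=
  (Subgroup.centralizer {c.g j}).map (QuotientGroup.mk' (Tc c))

theorem phs_haw (c : CL p N P) {G : Type} [Group G] {r : G →* P} (H : Phs c r) (j : Fin N)
    (g : G) : ∑ x ∈ Finset.univ.filter (fun x : Px c => cid x = j), ∑ i, H.a x g i =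
      fx (Sx c j) (((QuotientGroup.mk' (Tc c)).comp r) g) := by
  have hj : c.g j ∈ Tc c := Subgroup.subset_normalClosure ⟨j, rfl⟩
  have h1 := H1.UX.hcl_fx c (Tc c) j hj ((r g : P) : P ⧸ Tc c)
  unfold hcl at h1
  show _ = fx (Sx c j) ((r g : P) : P ⧸ Tc c)
  unfold Sx
  rw [← h1]
  refine Finset.sum_congr rfl fun x _ => ?_
  rw [H.a_sum, hq_mk]

/-- the subgroup of the `z` all of whose phases are `1` -/
def CCh {c : CL p N P} {G : Type} [Group G] {r : G →* P} (H : Phs c r) : Subgroup H.Z :=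
  CCz H.a H.e H.e_mul H.e_nm

theorem mem_cch {c : CL p N P} {G : Type} [Group G] {r : G →* P} (H : Phs c r) (z : H.Z) :
    z ∈ CCh H ↔ ∀ s f x, 0 < H.a s f x → H.e z s f x = 1 := Iff.rfl

end alg

section cj

variable {K : Type} [Field K] [NumberField K] {Ω : Type} [Field Ω] [Algebra K Ω] {p : ℕ} {ζ : K}
  {D : RD0 K p ζ}

theorem unz_cj (L : LDs D Ω) (s : Pl K → Gal(Ω/K)) {G : Type} [Group G] (φ : Gal(Ω/K) →* G)
    (E : Finset (Pl K)) (h : Unz L E φ) : Unz (cjL L s) E φ :=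
  ⟨h.1, fun v hv hvE => by
    rw [cj_t L s hv, map_mul, map_mul, map_inv, h.2 v hv hvE, mul_one, mul_inv_cancel]⟩

end cj

section gpl

variable {K : Type} [Field K] [NumberField K] {Ω : Type} [Field Ω] [Algebra K Ω] {p : ℕ} {ζ : K}
  {D : RD0 K p ζ}

theorem glp_mono {L : LDs D Ω} {Fr : FR L} {M M' C C₁ C' : ℕ} {Y : ℝ} (hY : 1 ≤ Y)
    (h : GLp p Fr M' C₁ C' Y) (hM : M ≤ M') (hC : C ≤ C₁) : GLp p Fr M C C' Y := by
  intro H _ _ hH hc φ T hU hT g hg x' x b hx0 hx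
  have h1 : Y ^ C ≤ Y ^ C₁ := pow_le_pow_right₀ hY hC
  exact h H hH (hc.trans hM) φ T hU (hT.trans h1) g hg x' x b hx0 (hx.trans h1)

theorem gpl_con {L : LDs D Ω} {Fr : FR L} {E : Finset (Pl K)}
    {R R' : ℝ → (Pl K → Gal(Ω/K)) → Prop} (h : Gpl p Fr E R) (h' : Gpl p Fr E R') :
    Gpl p Fr E fun Y s => R Y s ∧ R' Y s := by
  obtain ⟨M, C, h1⟩ := h
  obtain ⟨M', C₁, h2⟩ := h'
  refine ⟨max M M', max C C₁, fun C' => ?_⟩
  obtain ⟨Y₁, h3⟩ := h1 C'
  obtain ⟨Y₂, h4⟩ := h2 C'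
  refine ⟨max (max Y₁ Y₂) 1, fun Y hY s hs hgl => ?_⟩
  have hY1 : 1 ≤ Y := (le_max_right _ _).trans hY
  have hY2 : max Y₁ Y₂ ≤ Y := (le_max_left _ _).trans hY
  exact ⟨h3 Y ((le_max_left _ _).trans hY2) s hs
      (glp_mono hY1 hgl (le_max_left _ _) (le_max_left _ _)),
    h4 Y ((le_max_right _ _).trans hY2) s hs
      (glp_mono hY1 hgl (le_max_right _ _) (le_max_right _ _))⟩

theorem gpl_evt {L : LDs D Ω} {Fr : FR L} {E : Finset (Pl K)} {T : ℝ → Prop}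
    (h : ∀ᶠ Y in atTop, T Y) : Gpl p Fr E fun Y _ => T Y := by
  obtain ⟨Y₀, hY₀⟩ := eventually_atTop.1 h
  exact ⟨0, 0, fun _ => ⟨Y₀, fun Y hY _ _ _ => hY₀ Y hY⟩⟩

theorem gpl_imp {L : LDs D Ω} {Fr : FR L} {E : Finset (Pl K)}
    {R R' : ℝ → (Pl K → Gal(Ω/K)) → Prop} (h : Gpl p Fr E R) (h' : ∀ Y s, R Y s → R' Y s) :
    Gpl p Fr E R' := by
  obtain ⟨M, C, h1⟩ := h
  refine ⟨M, C, fun C' => ?_⟩
  obtain ⟨Y₁, h3⟩ := h1 C'
  exact ⟨Y₁, fun Y hY s hs hgl => h' Y s (h3 Y hY s hs hgl)⟩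

end gpl

section main

variable {K : IntermediateField ℚ QBar} [NumberField K] {p N : ℕ} {ζ : K} {D : RD0 K p ζ}
  {P : Type} [Group P] [Fintype P]

theorem rrl_rl (c : CL p N P) {L : LDs D QBar} (Fr : FR L) (φb : Gal(QBar/K) →* P)
    (E : Finset (Pl K)) (M : ℕ) (T₀ Y : ℝ) :
    RRL c Fr φb E M T₀ Y = RL D (Px c) M T₀ Y E (fun v => φb (Fr.F v) = 1) := by
  ext f
  rw [RRL, RL, Cy, Finset.mem_filter, Finset.mem_filter, Finset.mem_filter]
  tauto

/-- the limit of the sum of the numbers of fixed points -/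
theorem l0_ex [NeZero N] (hp : p.Prime) (hp2 : MOne p K) (hζ : IsPrimitiveRoot ζ p)
    (L : LDs D QBar) (Fr : FR L) {R : Type} [Group R] [Finite R] (hR : IsPGroup p R)
    (S : Fin N → Subgroup R) (ρ : Gal(QBar/K) →* R) (hρ : FT ρ) (hs : Function.Surjective ρ)
    (E : Finset (Pl K)) (hU : Unz L E ρ) :
    ∃ l₀ : ℝ, 0 < l₀ ∧ ∀ δ : ℝ, 0 < δ → ∃ Y₀ : ℝ, ∀ Y : ℝ, Y₀ ≤ Y →
      ∀ (L : LDs D QBar) (Fr : FR L), Unz L E ρ → |∑ f ∈ Cy D (Fin N) Y E,
        om (ZZ D Y \ E) (fun v j => fx (S j) (ρ (Fr.F v))) f -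
          l₀ * (Y * Real.log Y ^ (N - 1))| ≤ δ * (Y * Real.log Y ^ (N - 1)) := by
  obtain ⟨l₀, hl₀, hlim⟩ := H1.UX.lim_rm hp hp2 hζ D L Fr hR S ρ hρ hs E hU
  refine ⟨l₀, hl₀, fun δ hδ => ?_⟩
  have h1 := hlim 0 (1 / 2) (by norm_num) (by norm_num)
  rw [Metric.tendsto_atTop] at h1
  obtain ⟨Y₀, hY₀⟩ := h1 δ hδ
  refine ⟨max Y₀ 3, fun Y hY L' Fr' hU' => ?_⟩
  have h2 := hY₀ Y ((le_max_left _ _).trans hY)
  have hY3 : 3 ≤ Y := (le_max_right _ _).trans hY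
  have hlog : 0 < Real.log Y := Real.log_pos (by linarith)
  have hW : 0 < Y * Real.log Y ^ (N - 1) := by positivity
  have h3 := H1.UX.ws_ind hp hζ L L' Fr Fr' hR S ρ hρ hs E hU hU' 0
    (Real.exp (Real.log Y ^ (1 / 2 : ℝ))) Y
  have h4 : ∑ f ∈ Cy D (Fin N) Y E, om (ZZ D Y \ E) (fun v j => fx (S j) (ρ (Fr'.F v))) f =
      wS D N 0 (Real.exp (Real.log Y ^ (1 / 2 : ℝ))) Y E
        (fun j v => H77.PT.fx (S j) (ρ (Fr'.F v))) := by
    unfold wS
    rw [rc_zero]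
    refine Finset.sum_congr rfl fun f _ => ?_
    exact om_cf (ZZ D Y \ E) (fun j v => fx (S j) (ρ (Fr'.F v))) f
  rw [h4, ← h3]
  rw [Real.dist_eq] at h2
  have h5 : wS D N 0 (Real.exp (Real.log Y ^ (1 / 2 : ℝ))) Y E
        (fun j v => H77.PT.fx (S j) (ρ (Fr.F v))) - l₀ * (Y * Real.log Y ^ (N - 1)) =
      (wS D N 0 (Real.exp (Real.log Y ^ (1 / 2 : ℝ))) Y E
        (fun j v => H77.PT.fx (S j) (ρ (Fr.F v))) / (Y * Real.log Y ^ (N - 1)) - l₀) *
        (Y * Real.log Y ^ (N - 1)) := by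
    field_simp
  rw [h5, abs_mul, abs_of_pos hW]
  exact mul_le_mul_of_nonneg_right h2.le hW.le

/-- THE MAIN TERM OF `EQ1` -/
theorem d6 (hN : 1 ≤ N) (hp : p.Prime) (hp2 : MOne p K) (hζ : IsPrimitiveRoot ζ p)
    (hP : IsPGroup p P) (κ₁ : ℕ) (hG : GPU D QBar κ₁) (L : LDs D QBar) (Fr : FR L)
    (c : CL p N P) (φb : Gal(QBar/K) →* P) (hb : Function.Surjective φb)
    (E : Finset (Pl K)) {G : Type} [Group G] [Fintype G] (r : G →* P)
    (φG : Gal(QBar/K) →* G) (hκ : ∀ g : G, g ^ p ^ κ₁ = 1) (hs : Function.Surjective φG)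
    (hr : r.comp φG = φb) (hU : Unz L E φG) (H : Phs c r) {Yv : Type} [Fintype Yv]
    (b : Yv → H.Z →* ℂ) :
    ∃ l₀ : ℝ, 0 < l₀ ∧ ∀ (M : ℕ) (ε : ℝ), 0 < ε → ε < 1 → ∀ δ : ℝ, 0 < δ →
      Gpl p Fr E fun Y s =>
        ‖∑ z : H.Z, (∑ y, b y z) * ∑ f ∈ RRL c (cjF Fr s) φb E M (T0 ε Y) Y,
          om (ZZ D Y \ E) (fun v x => H.w z x (φG ((cjF Fr s).F v))) f -
          ((l₀ * (Nat.card (CCh H) * (Finset.univ.filter fun y =>
            ∀ z ∈ CCh H, b y z = 1).card) * (Y * Real.log Y ^ (N - 1)) : ℝ) : ℂ)‖ ≤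
        δ * (Y * Real.log Y ^ (N - 1)) := by
  haveI : NeZero N := ⟨by omega⟩
  have hrs : Function.Surjective r := by
    intro y
    obtain ⟨σ, hσ⟩ := hb y
    refine ⟨φG σ, ?_⟩
    rw [← hσ, ← hr]
    rfl
  obtain ⟨π, hπd⟩ : ∃ π : G →* P ⧸ Tc c, π = (QuotientGroup.mk' (Tc c)).comp r := ⟨_, rfl⟩
  have hπ : Function.Surjective π := by
    rw [hπd]
    exact (QuotientGroup.mk'_surjective _).comp hrs
  have hR : IsPGroup p (P ⧸ Tc c) := hP.to_quotient _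
  have haw : ∀ j g, ∑ x ∈ Finset.univ.filter (fun x : Px c => cid x = j), ∑ i, H.a x g i =
      fx (Sx c j) (π g) := by
    intro j g
    rw [hπd]
    exact phs_haw c H j g
  obtain ⟨l₀, hl₀, hl⟩ := l0_ex hp hp2 hζ L Fr hR (Sx c) (π.comp φG)
    (H77.WD.ft_comp π hU.1) (hπ.comp hs) E (hU.comp π)
  refine ⟨l₀, hl₀, fun M ε hε hε1 δ hδ => ⟨Fintype.card G, 1, fun C' => ?_⟩⟩
  obtain ⟨Y₀, hY₀⟩ := dfin (Ω := QBar) hp hp2 hζ D κ₁ hG hR φG hU.1 hs hκ π hπ (Sx c) E cid H.a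
    H.a_nn haw H.e H.e_mul H.e_nm H.one b l₀
    (fun δ hδ => by
      obtain ⟨Y₀, hY₀⟩ := hl δ hδ
      exact ⟨Y₀, fun Y hY L' Fr' hU' => hY₀ Y hY L' Fr' (hU'.comp π)⟩)
    (Fintype.card G) 1 C' le_rfl le_rfl M ε hε hε1 δ hδ
  refine ⟨Y₀, fun Y hY s hsE hgl => ?_⟩
  have h1 := hY₀ Y hY (cjL L s) (cjF Fr s) hgl (unz_cj L s φG E hU)
    (fun v => φb ((cjF Fr s).F v) = 1) (fun v hv => by
      rw [← hr, MonoidHom.comp_apply, hv, map_one])
  rw [← T0] at h1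
  simp_rw [rrl_rl]
  exact h1

/-- THE ASYMPTOTIC FORMULA FOR ONE FIBRE AND ONE TYPE -/
theorem dsx (hp : p.Prime) (hp2 : MOne p K) (hζ : IsPrimitiveRoot ζ p) (hP : IsPGroup p P)
    (hN : 1 ≤ N) {L : LDs D QBar} (Fr : FR L) (Q : DP K QBar) (c : CL p N P)
    {φb φ' : Gal(QBar/K) →* P} {E : Finset (Pl K)} (hF : Fib L c φb φ' E) {κ₁ : ℕ}
    (hE : EQ1 L Fr Q c φb φ' E κ₁) (hG : GPU D QBar κ₁) :
    ∃ (l : ℝ) (M₁ : ℕ), 0 ≤ l ∧ (φ' = φb → 0 < l) ∧ ∀ M, M₁ ≤ M → ∀ ε : ℝ, 0 < ε → ε < 1 →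
      ∀ δ : ℝ, 0 < δ → Gpl p Fr E fun Y s =>
        |∑ᶠ φ ∈ FS L Fr Q c φb φ' E Y, wL c (cjF Fr s) φb E M (T0 ε Y) Y φ -
          l * (Y * Real.log Y ^ (N - 1))| ≤ δ * (Y * Real.log Y ^ (N - 1)) := by
  obtain ⟨G, _, _, r, φG, H, Yv, _, b, κ, M₁, hκ1, hs, hr, hU, hκ, hpos, hEQ⟩ := hE
  obtain ⟨l₀, hl₀, h6⟩ := d6 hN hp hp2 hζ hP κ₁ hG L Fr c φb hF.sj E r φG hκ1 hs hr hU H b
  obtain ⟨m, hm⟩ : ∃ m : ℝ, m = (Nat.card (CCh H) : ℝ) * ((Finset.univ.filter fun y =>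
            ∀ z ∈ CCh H, b y z = 1).card : ℝ) := ⟨_, rfl⟩
  have hm0 : 0 ≤ m := by
    rw [hm]
    positivity
  refine ⟨κ * (l₀ * m), M₁, by positivity, fun hφ => ?_, fun M hM ε hε hε1 δ hδ => ?_⟩
  · obtain ⟨y, hy⟩ := hpos hφ
    have h1 : 0 < m := by
      rw [hm]
      refine mul_pos (Nat.cast_pos.2 Nat.card_pos) (Nat.cast_pos.2 (Finset.card_pos.2 ⟨y, ?_⟩))
      rw [Finset.mem_filter]
      refine ⟨Finset.mem_univ _, fun z _ => ?_⟩
      rw [hy, MonoidHom.one_apply]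
    positivity
  · obtain ⟨d, hd⟩ : ∃ d : ℝ, d = δ / (2 * κ) := ⟨_, rfl⟩
    have hd0 : 0 < d := by
      rw [hd]
      positivity
    have hev : ∀ᶠ Y : ℝ in atTop, 1 ≤ Y ∧ 1 ≤ Real.log Y ∧ 2 / δ ≤ Real.log Y :=
      (eventually_ge_atTop 1).and ((Real.tendsto_log_atTop.eventually_ge_atTop 1).and
        (Real.tendsto_log_atTop.eventually_ge_atTop (2 / δ)))
    refine gpl_imp (gpl_con (gpl_con (hEQ M hM ε hε hε1) (h6 M ε hε hε1 d hd0)) (gpl_evt hev)) ?_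
    rintro Y s ⟨⟨h1, h2⟩, h3, h4, h5⟩
    rw [← hm] at h2
    obtain ⟨W, hW⟩ : ∃ W : ℝ, W = Y * Real.log Y ^ (N - 1) := ⟨_, rfl⟩
    obtain ⟨S, hS⟩ : ∃ S : ℂ, S = ∑ z : H.Z, (∑ y, b y z) *
      ∑ f ∈ RRL c (cjF Fr s) φb E M (T0 ε Y) Y,
          om (ZZ D Y \ E) (fun v x => H.w z x (φG ((cjF Fr s).F v))) f := ⟨_, rfl⟩
    obtain ⟨A, hA⟩ : ∃ A : ℝ, A = ∑ᶠ φ ∈ FS L Fr Q c φb φ' E Y,
      wL c (cjF Fr s) φb E M (T0 ε Y) Y φ := ⟨_, rfl⟩
    rw [← hS, ← hA] at h1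
    rw [← hS, ← hW] at h2
    rw [← hA, ← hW]
    have hl1 : (1 : ℝ) ≤ Real.log Y ^ (N - 1) := one_le_pow₀ h4
    have h6 : Y * (Real.log Y)⁻¹ ≤ δ / 2 * W := by
      have h7 : (Real.log Y)⁻¹ ≤ δ / 2 := by
        rw [inv_le_comm₀ (by linarith) (by linarith), inv_div]
        exact h5
      rw [hW]
      calc Y * (Real.log Y)⁻¹ ≤ Y * (δ / 2) := mul_le_mul_of_nonneg_left h7 (by linarith)
        _ = δ / 2 * (Y * 1) := by ring
        _ ≤ _ := mul_le_mul_of_nonneg_left (mul_le_mul_of_nonneg_left hl1 (by linarith))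
          (by linarith)
    have e1 : ((A - κ * (l₀ * m) * W : ℝ) : ℂ) = ((A : ℂ) - κ * S) +
        κ * (S - ((l₀ * m * W : ℝ) : ℂ)) := by
      push_cast
      ring
    rw [← Real.norm_eq_abs, ← Complex.norm_real, e1]
    calc _ ≤ _ := norm_add_le _ _
      _ ≤ δ / 2 * W + κ * (d * W) := by
          refine add_le_add (h1.trans h6) ?_
          rw [norm_mul, Complex.norm_real, Real.norm_eq_abs, abs_of_pos hκ]
          exact mul_le_mul_of_nonneg_left h2 hκ.le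
      _ = δ * W := by
          rw [hd]
          field_simp
          ring

end main

end H38.S3

end

end Dsx_
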